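import Mathlib

/-! # Wiener–Hopf identities for finite sections, in a ring -/

namespace Pool.Agent.K1H32.TD

section

variable {R : Type*} [Ring R]

/-- the data: a splitting `1 = a + b + c` into orthogonal idempotents, `p` and `p'` inverse to
each other and lower triangular, `m` and `m'` inverse to each other and upper triangular, `w`
commutes with `m`, `m'`. -/
structure WH (a b c p p' m m' w : R) : Prop where
  sum : a + b + c = 1
  aa : a * a = a
  ab : a * b = 0
  ba : b * a = 0
  ac : a * c = 0
  ca : c * a = 0
  pp' : p * p' = 1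
  p'p : p' * p = 1
  mm' : m * m' = 1
  m'm : m' * m = 1
  wm' : w * m' = m' * w
  apc : a * p * c = 0
  ap'c : a * p' * c = 0
  bpa : b * p * a = 0
  bp'a : b * p' * a = 0
  cma : c * m * a = 0
  cm'a : c * m' * a = 0
  amb : a * m * b = 0
  am'b : a * m' * b = 0

variable {a b c p p' m m' w : R}

theorem WH.ap' (h : WH a b c p p' m m' w) : a * p' * a = a * p' - a * p' * b := by
  have h1 : a * p' = a * p' * (a + b + c) := by rw [h.sum, mul_one]
  have h2 : a * p' * (a + b + c) = a * p' * a + a * p' * b + a * p' * c := by
    rw [mul_add, mul_add]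
  rw [h.ap'c, add_zero] at h2
  rw [eq_sub_iff_add_eq, ← h2, ← h1]

theorem WH.m'a (h : WH a b c p p' m m' w) : a * m' * a = m' * a - b * m' * a := by
  have h1 : m' * a = (a + b + c) * (m' * a) := by rw [h.sum, one_mul]
  have h2 : (a + b + c) * (m' * a) = a * m' * a + b * m' * a + c * m' * a := by
    simp only [add_mul, mul_assoc]
  rw [h.cm'a, add_zero] at h2
  rw [eq_sub_iff_add_eq, ← h2, ← h1]

/-- the compression of `p m w` between the two triangular factors -/
theorem WH.main (h : WH a b c p p' m m' w) :
    (a * p' * a) * (a * (p * m * w) * a) * (a * m' * a) =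
      a * w * a - a * m * w * (b * m' * a) - (a * p' * b) * (p * m * w) * (a * m' * a) := by
  have h1 : (a * p' * a) * (a * (p * m * w) * a) * (a * m' * a) =
      (a * p' * a) * (p * m * w) * (a * m' * a) := by
    have haa := h.aa
    calc (a * p' * a) * (a * (p * m * w) * a) * (a * m' * a)
        = a * p' * (a * a) * (p * m * w) * (a * a) * m' * a := by simp only [mul_assoc]
      _ = a * p' * a * (p * m * w) * a * m' * a := by rw [haa]
      _ = _ := by simp only [mul_assoc]
  have h2 : (a * p' * a) * (p * m * w) * (a * m' * a) =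
      a * p' * (p * m * w) * (a * m' * a) - (a * p' * b) * (p * m * w) * (a * m' * a) := by
    rw [h.ap', sub_mul, sub_mul]
  have h3 : a * p' * (p * m * w) = a * m * w := by
    calc a * p' * (p * m * w) = a * (p' * p) * m * w := by simp only [mul_assoc]
      _ = a * m * w := by rw [h.p'p, mul_one]
  have h4 : a * m * w * (a * m' * a) = a * w * a - a * m * w * (b * m' * a) := by
    rw [h.m'a, mul_sub]
    congr 1
    calc a * m * w * (m' * a) = a * m * (w * m') * a := by simp only [mul_assoc]
      _ = a * (m * m') * w * a := by rw [h.wm']; simp only [mul_assoc]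
      _ = a * w * a := by rw [h.mm', mul_one]
  rw [h1, h2, h3, h4]

theorem one_sub_mul_self (haa : a * a = a) : (1 - a) * (1 - a) = 1 - a := by
  rw [mul_sub, mul_one, sub_mul, one_mul, haa, sub_self, sub_zero]

/-- block diagonal elements multiply blockwise -/
theorem blk (haa : a * a = a) (x y : R) :
    (a * x * a + (1 - a)) * (a * y * a + (1 - a)) = a * x * a * (a * y * a) + (1 - a) := by
  have h1 : a * (1 - a) = 0 := by rw [mul_sub, mul_one, haa, sub_self]
  have h2 : (1 - a) * a = 0 := by rw [sub_mul, one_mul, haa, sub_self]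
  rw [add_mul, mul_add, mul_add, one_sub_mul_self haa]
  have h3 : a * x * a * (1 - a) = 0 := by rw [mul_assoc, h1, mul_zero]
  have h4 : (1 - a) * (a * y * a) = 0 := by
    rw [← mul_assoc, ← mul_assoc, h2, zero_mul, zero_mul]
  rw [h3, h4, add_zero, zero_add]

theorem WH.pinv (h : WH a b c p p' m m' w) : a * p * a * (a * p' * a) = a := by
  have h1 : a * p * a * (a * p' * a) = a * p * a * p' * a := by
    calc a * p * a * (a * p' * a) = a * p * (a * a) * p' * a := by simp only [mul_assoc]
      _ = _ := by rw [h.aa]
  have h2 : a * p * (a + b + c) * p' * a = a * p * a * p' * a + a * p * (b * p' * a) +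
      (a * p * c) * p' * a := by
    simp only [mul_add, add_mul, mul_assoc]
  rw [h.bp'a, h.apc, mul_zero, zero_mul, zero_mul, add_zero, add_zero, h.sum, mul_one] at h2
  rw [h1, ← h2, mul_assoc a p p', h.pp', mul_one, h.aa]

theorem WH.pinv' (h : WH a b c p p' m m' w) : a * p' * a * (a * p * a) = a := by
  have h1 : a * p' * a * (a * p * a) = a * p' * a * p * a := by
    calc a * p' * a * (a * p * a) = a * p' * (a * a) * p * a := by simp only [mul_assoc]
      _ = _ := by rw [h.aa]
  have h2 : a * p' * (a + b + c) * p * a = a * p' * a * p * a + a * p' * (b * p * a) +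
      (a * p' * c) * p * a := by
    simp only [mul_add, add_mul, mul_assoc]
  rw [h.bpa, h.ap'c, mul_zero, zero_mul, zero_mul, add_zero, add_zero, h.sum, mul_one] at h2
  rw [h1, ← h2, mul_assoc a p' p, h.p'p, mul_one, h.aa]

theorem WH.minv (h : WH a b c p p' m m' w) : a * m * a * (a * m' * a) = a := by
  have h1 : a * m * a * (a * m' * a) = a * m * a * m' * a := by
    calc a * m * a * (a * m' * a) = a * m * (a * a) * m' * a := by simp only [mul_assoc]
      _ = _ := by rw [h.aa]
  have h2 : a * m * (a + b + c) * m' * a = a * m * a * m' * a + (a * m * b) * m' * a +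
      a * m * (c * m' * a) := by
    simp only [mul_add, add_mul, mul_assoc]
  rw [h.cm'a, h.amb, mul_zero, zero_mul, zero_mul, add_zero, add_zero, h.sum, mul_one] at h2
  rw [h1, ← h2, mul_assoc a m m', h.mm', mul_one, h.aa]

theorem WH.minv' (h : WH a b c p p' m m' w) : a * m' * a * (a * m * a) = a := by
  have h1 : a * m' * a * (a * m * a) = a * m' * a * m * a := by
    calc a * m' * a * (a * m * a) = a * m' * (a * a) * m * a := by simp only [mul_assoc]
      _ = _ := by rw [h.aa]
  have h2 : a * m' * (a + b + c) * m * a = a * m' * a * m * a + (a * m' * b) * m * a +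
      a * m' * (c * m * a) := by
    simp only [mul_add, add_mul, mul_assoc]
  rw [h.cma, h.am'b, mul_zero, zero_mul, zero_mul, add_zero, add_zero, h.sum, mul_one] at h2
  rw [h1, ← h2, mul_assoc a m' m, h.m'm, mul_one, h.aa]

/-- the factorisation of the finite section of `p m w` -/
theorem WH.factor (h : WH a b c p p' m m' w) :
    a * (p * m * w) * a + (1 - a) =
      (a * p * a + (1 - a)) *
        (a * w * a - a * m * w * (b * m' * a) - (a * p' * b) * (p * m * w) * (a * m' * a)
          + (1 - a)) * (a * m * a + (1 - a)) := by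
  rw [← h.main]
  have e1 : (a * p' * a) * (a * (p * m * w) * a) * (a * m' * a) =
      a * (p' * a * (p * m * w) * a * m') * a := by
    have haa := h.aa
    calc (a * p' * a) * (a * (p * m * w) * a) * (a * m' * a)
        = a * p' * (a * a) * (p * m * w) * (a * a) * m' * a := by simp only [mul_assoc]
      _ = a * p' * a * (p * m * w) * a * m' * a := by rw [haa]
      _ = _ := by simp only [mul_assoc]
  rw [e1, blk h.aa]
  have e2 : a * p * a * (a * (p' * a * (p * m * w) * a * m') * a) =
      a * (p * a * a * (p' * a * (p * m * w) * a * m')) * a := by simp only [mul_assoc]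
  rw [e2, blk h.aa]
  congr 1
  have e3 : a * (p * a * a * (p' * a * (p * m * w) * a * m')) * a * (a * m * a) =
      (a * p * a * (a * p' * a)) * (p * m * w) * (a * m' * a * (a * m * a)) := by
    have haa := h.aa
    calc a * (p * a * a * (p' * a * (p * m * w) * a * m')) * a * (a * m * a)
        = a * p * (a * a) * p' * a * (p * m * w) * a * m' * (a * a) * m * a := by
          simp only [mul_assoc]
      _ = a * p * (a * a) * p' * a * (p * m * w) * (a * m' * (a * a) * m * a) := by
          simp only [mul_assoc]
      _ = _ := by simp only [mul_assoc]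
  rw [e3, h.pinv, h.minv']

/-- the half-line version: everything is invertible -/
theorem WH.half (h : WH a b 0 p p' m m' w) (hpw : p * w = w * p) (hpm : p * m = m * p)
    (hwm : w * m = m * w) :
    a * w * a - a * m * w * (b * m' * a) - (a * p' * b) * (p * m * w) * (a * m' * a) + (1 - a) =
      (a * p' * a + (1 - a)) * (a * m * a + (1 - a)) * (a * w * a + (1 - a)) *
        (a * p * a + (1 - a)) * (a * m' * a + (1 - a)) := by
  have hs : a + b = 1 := by have := h.sum; rwa [add_zero] at this
  -- a p m w a = (a m a)(a w a)(a p a)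
  have h1 : a * (p * m * w) * a = a * m * a * (a * w * a) * (a * p * a) := by
    have e1 : p * m * w = m * w * p := by
      rw [hpm, mul_assoc m p w, hpw, mul_assoc]
    have e2 : a * m = a * m * a := by
      have : a * m * (a + b) = a * m * a + a * m * b := mul_add _ _ _
      rw [hs, mul_one, h.amb, add_zero] at this
      exact this
    have e3 : p * a = a * p * a := by
      have : (a + b) * (p * a) = a * p * a + b * p * a := by simp only [add_mul, mul_assoc]
      rw [hs, one_mul, h.bpa, add_zero] at this
      exact this
    calc a * (p * m * w) * a = (a * m) * w * (p * a) := by rw [e1]; simp only [mul_assoc]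
      _ = (a * m * a) * w * (a * p * a) := by rw [← e2, ← e3]
      _ = a * m * (a * a) * w * (a * a) * p * a := by rw [h.aa]; simp only [mul_assoc]
      _ = _ := by simp only [mul_assoc]
  have h2 := h.main
  rw [h1] at h2
  rw [← h2]
  have haa := h.aa
  rw [blk haa]
  have k1 : a * p' * a * (a * m * a) = a * (p' * a * a * m) * a := by simp only [mul_assoc]
  rw [k1, blk haa]
  have k2 : a * (p' * a * a * m) * a * (a * w * a) = a * (p' * a * a * m * a * a * w) * a := by
    simp only [mul_assoc]
  rw [k2, blk haa]
  have k3 : a * (p' * a * a * m * a * a * w) * a * (a * p * a) =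
      a * (p' * a * a * m * a * a * w * a * a * p) * a := by
    simp only [mul_assoc]
  rw [k3, blk haa]
  congr 1
  simp only [mul_assoc]

theorem isUnit_of_inv {x y : R} (h1 : x * y = 1) (h2 : y * x = 1) : IsUnit x :=
  ⟨⟨x, y, h1, h2⟩, rfl⟩

theorem blk_unit (haa : a * a = a) {x y : R} (h1 : a * x * a * (a * y * a) = a)
    (h2 : a * y * a * (a * x * a) = a) :
    (a * x * a + (1 - a)) * (a * y * a + (1 - a)) = 1 ∧
      (a * y * a + (1 - a)) * (a * x * a + (1 - a)) = 1 := by
  rw [blk haa, blk haa, h1, h2]
  constructor <;> abel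

end

end Pool.Agent.K1H32.TD
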