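import Pool.Agent.K1H32.TD.Pr

/-! # determinants with rapidly decreasing perturbations -/

open Filter Topology MeasureTheory
open scoped InnerProductSpace

namespace Pool.Agent.K1H32.TD

set_option linter.unusedSectionVars false
set_option linter.unusedVariables false
set_option linter.deprecated false

theorem sum_int_sq : Summable (fun p : ℤ => 1 / (1 + |(p : ℝ)|) ^ 2) := by
  have h1 : Summable (fun n : ℕ => 1 / (1 + (n : ℝ)) ^ 2) := by
    have := (summable_nat_add_iff 1).2 (Real.summable_one_div_nat_pow.2 (one_lt_two))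
    refine this.congr fun n => ?_
    push_cast
    rw [add_comm]
  rw [summable_int_iff_summable_nat_and_neg]
  constructor
  · refine h1.congr fun n => ?_
    simp
  · refine h1.congr fun n => ?_
    simp

/-- an injection `ℤ → ℕ` -/
def encZ (p : ℤ) : ℕ := 2 * p.natAbs + (if p < 0 then 1 else 0)

theorem encZ_inj : Function.Injective encZ := by
  intro p q h
  unfold encZ at h
  split_ifs at h <;> omega

theorem encZ_le (p : ℤ) : (encZ p : ℝ) ≤ 2 * |(p : ℝ)| + 1 := by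
  have h1 : (encZ p : ℕ) ≤ 2 * p.natAbs + 1 := by
    unfold encZ
    split_ifs <;> omega
  have h2 : ((p.natAbs : ℕ) : ℝ) = |(p : ℝ)| := by
    rw [Nat.cast_natAbs, Int.cast_abs]
  calc (encZ p : ℝ) ≤ ((2 * p.natAbs + 1 : ℕ) : ℝ) := by exact_mod_cast h1
    _ = 2 * |(p : ℝ)| + 1 := by push_cast [← h2]; rfl

noncomputable def nu {J : Type} [Fintype J] (x : J × (ℤ × ℤ)) : ℕ :=
  Nat.pair (Fintype.equivFin J x.1) (Nat.pair (encZ x.2.1) (encZ x.2.2))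

theorem nu_inj {J : Type} [Fintype J] : Function.Injective (nu (J := J)) := by
  rintro ⟨i, p, q⟩ ⟨i', p', q'⟩ h
  unfold nu at h
  rw [Nat.pair_eq_pair, Nat.pair_eq_pair] at h
  obtain ⟨h1, h2, h3⟩ := h
  have h1' : i = i' := (Fintype.equivFin J).injective (Fin.ext h1)
  have h2' : p = p' := encZ_inj h2
  have h3' : q = q' := encZ_inj h3
  rw [h1', h2', h3']

theorem nu_le {J : Type} [Fintype J] (x : J × (ℤ × ℤ)) :
    (nu x : ℝ) + 1 ≤ (((Fintype.card J : ℝ) + 10) ^ 2 + 1) * (1 + |(x.2.1 : ℝ)| + |(x.2.2 : ℝ)|) ^ 4 := by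
  obtain ⟨i, p, q⟩ := x
  simp only
  set S : ℝ := 1 + |(p : ℝ)| + |(q : ℝ)| with hS
  set N : ℝ := (Fintype.card J : ℝ) with hN
  have hS1 : 1 ≤ S := by
    have := abs_nonneg (p : ℝ); have := abs_nonneg (q : ℝ); rw [hS]; linarith
  have hN0 : 0 ≤ N := Nat.cast_nonneg _
  have hb : ∀ a b : ℕ, ((Nat.pair a b : ℕ) : ℝ) ≤ ((a : ℝ) + b + 1) ^ 2 := by
    intro a b
    have h1 := Nat.pair_lt_max_add_one_sq a b
    have h2 : (max a b + 1) ^ 2 ≤ (a + b + 1) ^ 2 := by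
      apply Nat.pow_le_pow_left
      have : max a b ≤ a + b := max_le (by omega) (by omega)
      omega
    have h3 : Nat.pair a b ≤ (a + b + 1) ^ 2 := h1.le.trans h2
    calc ((Nat.pair a b : ℕ) : ℝ) ≤ (((a + b + 1) ^ 2 : ℕ) : ℝ) := by exact_mod_cast h3
      _ = _ := by push_cast; rfl
  have h1 : ((Nat.pair (encZ p) (encZ q) : ℕ) : ℝ) ≤ 9 * S ^ 2 := by
    refine (hb _ _).trans ?_
    have h2 := encZ_le p
    have h3 := encZ_le q
    have h4 : (encZ p : ℝ) + encZ q + 1 ≤ 3 * S := by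
      rw [hS]
      have := abs_nonneg (p : ℝ); have := abs_nonneg (q : ℝ)
      linarith
    calc ((encZ p : ℝ) + encZ q + 1) ^ 2 ≤ (3 * S) ^ 2 := by
          apply pow_le_pow_left₀ (by positivity) h4
      _ = 9 * S ^ 2 := by ring
  have h5 : ((Fintype.equivFin J i : ℕ) : ℝ) ≤ N := by
    have := (Fintype.equivFin J i).2
    rw [hN]
    exact_mod_cast this.le
  have hS2 : 1 ≤ S ^ 2 := one_le_pow₀ hS1
  have hS4 : 1 ≤ S ^ 4 := one_le_pow₀ hS1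
  have h6 : (nu (J := J) (i, p, q) : ℝ) ≤ (N + 10) ^ 2 * S ^ 4 := by
    have h7 := hb (Fintype.equivFin J i) (Nat.pair (encZ p) (encZ q))
    have h8 : ((Fintype.equivFin J i : ℕ) : ℝ) + ((Nat.pair (encZ p) (encZ q) : ℕ) : ℝ) + 1 ≤
        (N + 10) * S ^ 2 := by nlinarith
    calc (nu (J := J) (i, p, q) : ℝ) ≤ _ := h7
      _ ≤ ((N + 10) * S ^ 2) ^ 2 := pow_le_pow_left₀ (by positivity) h8 2
      _ = _ := by ring
  nlinarith

section

variable {H : Type} [NormedAddCommGroup H] [InnerProductSpace ℂ H] [CompleteSpace H]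

/-- rapidly decreasing matrix entries -/
def Fast (e : HilbertBasis ℤ ℂ H) (K : H →L[ℂ] H) : Prop :=
  ∃ C : ℝ, ∀ p q : ℤ, ‖⟪e p, K (e q)⟫_ℂ‖ ≤ C / (1 + |(p : ℝ)| + |(q : ℝ)|) ^ 8

theorem fast_sum (c : ℤ × ℤ → ℂ) (C : ℝ) (hC : 0 ≤ C)
    (h : ∀ x, ‖c x‖ ≤ C / (1 + |(x.1 : ℝ)| + |(x.2 : ℝ)|) ^ 4) : Summable (fun x => ‖c x‖) := by
  have h1 : Summable (fun x : ℤ × ℤ => (1 / (1 + |(x.1 : ℝ)|) ^ 2) * (1 / (1 + |(x.2 : ℝ)|) ^ 2)) :=
    Summable.mul_of_nonneg sum_int_sq sum_int_sq (fun _ => by positivity) (fun _ => by positivity)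
  refine Summable.of_nonneg_of_le (fun _ => norm_nonneg _) ?_ (h1.mul_left C)
  intro x
  refine (h x).trans ?_
  have ha := abs_nonneg (x.1 : ℝ)
  have hb := abs_nonneg (x.2 : ℝ)
  have h2 : (1 + |(x.1 : ℝ)|) * (1 + |(x.2 : ℝ)|) ≤ (1 + |(x.1 : ℝ)| + |(x.2 : ℝ)|) ^ 2 := by
    nlinarith [mul_nonneg ha hb]
  have h3 : (1 + |(x.1 : ℝ)|) ^ 2 * (1 + |(x.2 : ℝ)|) ^ 2 ≤
      (1 + |(x.1 : ℝ)| + |(x.2 : ℝ)|) ^ 4 := by
    calc (1 + |(x.1 : ℝ)|) ^ 2 * (1 + |(x.2 : ℝ)|) ^ 2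
        = ((1 + |(x.1 : ℝ)|) * (1 + |(x.2 : ℝ)|)) ^ 2 := by ring
      _ ≤ ((1 + |(x.1 : ℝ)| + |(x.2 : ℝ)|) ^ 2) ^ 2 := pow_le_pow_left₀ (by positivity) h2 2
      _ = _ := by ring
  calc C / (1 + |(x.1 : ℝ)| + |(x.2 : ℝ)|) ^ 4
      ≤ C / ((1 + |(x.1 : ℝ)|) ^ 2 * (1 + |(x.2 : ℝ)|) ^ 2) :=
        div_le_div_of_nonneg_left hC (by positivity) h3
    _ = C * ((1 / (1 + |(x.1 : ℝ)|) ^ 2) * (1 / (1 + |(x.2 : ℝ)|) ^ 2)) := by
        field_simp

theorem Fast.nonneg {e : HilbertBasis ℤ ℂ H} {K : H →L[ℂ] H} {C : ℝ}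
    (h : ∀ p q : ℤ, ‖⟪e p, K (e q)⟫_ℂ‖ ≤ C / (1 + |(p : ℝ)| + |(q : ℝ)|) ^ 8) : 0 ≤ C := by
  have := (norm_nonneg _).trans (h 0 0)
  simpa using this

/-- matrix expansion of `⟪u, K v⟫` -/
theorem fast_hasSum (e : HilbertBasis ℤ ℂ H) {K : H →L[ℂ] H} (hK : Fast e K) (a v : H) :
    HasSum (fun x : ℤ × ℤ => ⟪e x.1, K (e x.2)⟫_ℂ * ⟪a, e x.1⟫_ℂ * ⟪e x.2, v⟫_ℂ) ⟪a, K v⟫_ℂ := by
  obtain ⟨C, hC⟩ := hK
  have hC0 : 0 ≤ C := Fast.nonneg hC
  have hin : ∀ (k : ℤ) (z : H), ‖⟪e k, z⟫_ℂ‖ ≤ ‖z‖ := by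
    intro k z
    have := norm_inner_le_norm (𝕜 := ℂ) (e k) z
    rwa [norm_e, one_mul] at this
  have hin' : ∀ (k : ℤ) (z : H), ‖⟪z, e k⟫_ℂ‖ ≤ ‖z‖ := by
    intro k z
    have := norm_inner_le_norm (𝕜 := ℂ) z (e k)
    rwa [norm_e, mul_one] at this
  have hs : Summable (fun x : ℤ × ℤ => ⟪e x.1, K (e x.2)⟫_ℂ * ⟪a, e x.1⟫_ℂ * ⟪e x.2, v⟫_ℂ) := by
    apply Summable.of_norm
    apply fast_sum _ (C * ‖a‖ * ‖v‖) (by positivity)
    intro x
    rw [norm_mul, norm_mul]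
    have h1 : 1 ≤ 1 + |(x.1 : ℝ)| + |(x.2 : ℝ)| := by
      have := abs_nonneg (x.1 : ℝ); have := abs_nonneg (x.2 : ℝ); linarith
    have h2 : C / (1 + |(x.1 : ℝ)| + |(x.2 : ℝ)|) ^ 8 ≤ C / (1 + |(x.1 : ℝ)| + |(x.2 : ℝ)|) ^ 4 :=
      div_le_div_of_nonneg_left hC0 (by positivity) (pow_le_pow_right₀ h1 (by norm_num))
    calc ‖⟪e x.1, K (e x.2)⟫_ℂ‖ * ‖⟪a, e x.1⟫_ℂ‖ * ‖⟪e x.2, v⟫_ℂ‖
        ≤ (C / (1 + |(x.1 : ℝ)| + |(x.2 : ℝ)|) ^ 4) * ‖a‖ * ‖v‖ := by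
          gcongr
          · exact (hC _ _).trans h2
          · exact hin' _ _
          · exact hin _ _
      _ = _ := by ring
  have h1 : ∀ p : ℤ, HasSum (fun q : ℤ => ⟪e p, K (e q)⟫_ℂ * ⟪a, e p⟫_ℂ * ⟪e q, v⟫_ℂ)
      (⟪a, e p⟫_ℂ * ⟪e p, K v⟫_ℂ) := by
    intro p
    have h2 := e.hasSum_repr v
    have h3 := (K.hasSum h2)
    have h4 := (innerSL ℂ (e p)).hasSum h3
    have h5 := h4.mul_left ⟪a, e p⟫_ℂ
    simp only [innerSL_apply_apply] at h5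
    have hf : (fun q : ℤ => ⟪e p, K (e q)⟫_ℂ * ⟪a, e p⟫_ℂ * ⟪e q, v⟫_ℂ) =
        fun i => ⟪a, e p⟫_ℂ * ⟪e p, K (e.repr v i • e i)⟫_ℂ := by
      funext q
      rw [map_smul, inner_smul_right, e.repr_apply_apply]
      ring
    rw [hf]
    exact h5
  have h2 := hs.hasSum.prod_fiberwise h1
  have h3 := e.hasSum_inner_mul_inner a (K v)
  rw [h3.unique h2]
  exact hs.hasSum

/-- the `n × n` matrix of an operator -/
noncomputable def matn (e : HilbertBasis ℤ ℂ H) (n : ℕ) (T : H →L[ℂ] H) : Matrix (Fin n) (Fin n) ℂ :=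
  fun j k => ⟪e j, T (e k)⟫_ℂ

theorem pr_Ip (e : HilbertBasis ℤ ℂ H) (n : ℕ) (x : H) :
    pr e (Ip n) x = ∑ j : Fin n, ⟪e (j : ℤ), x⟫_ℂ • e (j : ℤ) := by
  classical
  apply ext_coord e
  intro k
  rw [pr_coord, inner_sum]
  simp only [inner_smul_right, inner_e]
  split_ifs with hk
  · obtain ⟨h1, h2⟩ := hk
    have h3 : k.toNat < n := by omega
    rw [Finset.sum_eq_single (⟨k.toNat, h3⟩ : Fin n)]
    · have h4 : ((k.toNat : ℕ) : ℤ) = k := Int.toNat_of_nonneg h1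
      simp only [h4, if_true, mul_one]
    · intro j _ hj
      rw [if_neg, mul_zero]
      intro h5
      apply hj
      apply Fin.ext
      simp only
      omega
    · intro h; exact absurd (Finset.mem_univ _) h
  · symm
    apply Finset.sum_eq_zero
    intro j _
    rw [if_neg, mul_zero]
    intro h5
    apply hk
    have := j.2
    simp only [Ip, Set.mem_setOf_eq]
    omega

/-- sums over the finite section -/
theorem sum_inner_Ip (e : HilbertBasis ℤ ℂ H) (n : ℕ) (T : H →L[ℂ] H) (y x : H) :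
    ∑ j : Fin n, ⟪y, T (e (j : ℤ))⟫_ℂ * ⟪e (j : ℤ), x⟫_ℂ = ⟪y, T (pr e (Ip n) x)⟫_ℂ := by
  rw [pr_Ip, map_sum, inner_sum]
  apply Finset.sum_congr rfl
  intro j _
  rw [map_smul, inner_smul_right]
  ring

theorem matn_mul (e : HilbertBasis ℤ ℂ H) (n : ℕ) (S T : H →L[ℂ] H) :
    matn e n S * matn e n T = matn e n (S * pr e (Ip n) * T) := by
  ext j k
  rw [Matrix.mul_apply]
  exact sum_inner_Ip e n S (e j) (T (e k))

/-- convergence of determinants of the form `det (1 + X (∑ L_i K_i R_i) Y)` -/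
theorem nuc_det (hFD : S_FD) (e : HilbertBasis ℤ ℂ H) {J : Type} [Fintype J]
    (X Y : ℕ → H →L[ℂ] H) (L R : J → ℕ → H →L[ℂ] H) (K : J → H →L[ℂ] H) (C : ℝ)
    (hX : ∀ᶠ n in atTop, ‖X n‖ ≤ C) (hY : ∀ᶠ n in atTop, ‖Y n‖ ≤ C)
    (hL : ∀ᶠ n in atTop, ∀ i, ‖L i n‖ ≤ C) (hR : ∀ᶠ n in atTop, ∀ i, ‖R i n‖ ≤ C)
    (hK : ∀ i, Fast e (K i))
    (hG : ∀ i i' p q, ∃ l : ℂ, Tendsto
      (fun n => ⟪e q, (R i n * (Y n * pr e (Ip n) * X n) * L i' n) (e p)⟫_ℂ) atTop (𝓝 l)) :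
    ∃ l : ℂ, Tendsto (fun n => Matrix.det (1 + matn e n (X n * (∑ i, L i n * K i * R i n) * Y n)))
      atTop (𝓝 l) := by
  classical
  choose D hD using hK
  have hD0 : ∀ i, 0 ≤ D i := fun i => Fast.nonneg (hD i)
  set c : J × (ℤ × ℤ) → ℂ := fun x => ⟪e x.2.1, K x.1 (e x.2.2)⟫_ℂ with hc
  set A : ℝ := ((Fintype.card J : ℝ) + 10) ^ 2 + 1 with hA
  have hA0 : 0 ≤ A := by positivity
  -- summability with the weight
  have hsum : Summable (fun x : J × (ℤ × ℤ) => ((nu x : ℝ) + 1) * ‖c x‖) := by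
    have h1 : Summable (fun x : ℤ × ℤ => 1 / (1 + |(x.1 : ℝ)| + |(x.2 : ℝ)|) ^ 4) := by
      have := fast_sum (fun x : ℤ × ℤ => ((1 / (1 + |(x.1 : ℝ)| + |(x.2 : ℝ)|) ^ 4 : ℝ) : ℂ)) 1
        zero_le_one (by
          intro x
          rw [Complex.norm_real, Real.norm_eq_abs, abs_of_nonneg (by positivity)])
      refine this.congr fun x => ?_
      rw [Complex.norm_real, Real.norm_eq_abs, abs_of_nonneg (by positivity)]
    have h2 : Summable (fun x : J × (ℤ × ℤ) =>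
        (A * D x.1) * (1 / (1 + |(x.2.1 : ℝ)| + |(x.2.2 : ℝ)|) ^ 4)) :=
      Summable.mul_of_nonneg (f := fun i : J => A * D i)
        (g := fun x : ℤ × ℤ => 1 / (1 + |(x.1 : ℝ)| + |(x.2 : ℝ)|) ^ 4)
        (hasSum_fintype _).summable h1 (fun i => mul_nonneg hA0 (hD0 i)) (fun _ => by positivity)
    refine Summable.of_nonneg_of_le (fun x => by positivity) ?_ h2
    intro x
    have h3 := nu_le x
    have h4 := hD x.1 x.2.1 x.2.2
    set S : ℝ := 1 + |(x.2.1 : ℝ)| + |(x.2.2 : ℝ)| with hS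
    have hS0 : 0 < S := by positivity
    calc ((nu x : ℝ) + 1) * ‖c x‖ ≤ (A * S ^ 4) * (D x.1 / S ^ 8) := by
          apply mul_le_mul h3 h4 (norm_nonneg _) (by positivity)
      _ = (A * D x.1) * (1 / S ^ 4) := by
          field_simp
  refine hFD (J × (ℤ × ℤ)) nu nu_inj c hsum (C * (C * 1 * C) * C)
    (fun n x j => ⟪e (j : ℤ), (X n * L x.1 n) (e x.2.1)⟫_ℂ)
    (fun n x k => ⟪e x.2.2, (R x.1 n * Y n) (e (k : ℤ))⟫_ℂ)
    (fun n => matn e n (X n * (∑ i, L i n * K i * R i n) * Y n)) ?_ ?_ ?_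
  · -- the expansion of the matrix entries
    filter_upwards [hL, hR] with n hLn hRn
    intro j k
    have h1 : ∀ i : J, HasSum (fun x : ℤ × ℤ => c (i, x) *
        ⟪e (j : ℤ), (X n * L i n) (e x.1)⟫_ℂ * ⟪e x.2, (R i n * Y n) (e (k : ℤ))⟫_ℂ)
        ⟪e (j : ℤ), (X n * (L i n * K i * R i n) * Y n) (e (k : ℤ))⟫_ℂ := by
      intro i
      have h2 := fast_hasSum e ⟨D i, hD i⟩ (star (X n * L i n) (e (j : ℤ)))
        ((R i n * Y n) (e (k : ℤ)))
      convert h2 using 1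
      · funext x
        rw [ContinuousLinearMap.star_eq_adjoint, ContinuousLinearMap.adjoint_inner_left]
      · rw [ContinuousLinearMap.star_eq_adjoint, ContinuousLinearMap.adjoint_inner_left]
        rfl
    have h2 : Summable (fun x : J × (ℤ × ℤ) => c x *
        ⟪e (j : ℤ), (X n * L x.1 n) (e x.2.1)⟫_ℂ * ⟪e x.2.2, (R x.1 n * Y n) (e (k : ℤ))⟫_ℂ) := by
      apply Summable.of_norm
      have h3 : Summable (fun x : J × (ℤ × ℤ) => ((nu x : ℝ) + 1) * ‖c x‖ *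
        ((‖X n‖ * C) * (C * ‖Y n‖))) := hsum.mul_right _
      refine Summable.of_nonneg_of_le (fun x => norm_nonneg _) ?_ h3
      intro x
      have hC0 : 0 ≤ C := (norm_nonneg _).trans (hLn x.1)
      rw [norm_mul, norm_mul, mul_assoc]
      have hin : ∀ (p q : ℤ) (T : H →L[ℂ] H), ‖⟪e p, T (e q)⟫_ℂ‖ ≤ ‖T‖ := by
        intro p q T
        have h4 := norm_inner_le_norm (𝕜 := ℂ) (e p) (T (e q))
        rw [norm_e, one_mul] at h4
        have h5 := T.le_opNorm (e q)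
        rw [norm_e, mul_one] at h5
        exact h4.trans h5
      apply mul_le_mul
      · have : (0 : ℝ) ≤ (nu x : ℝ) := Nat.cast_nonneg _
        nlinarith [norm_nonneg (c x)]
      · apply mul_le_mul
        · exact (hin _ _ _).trans ((norm_mul_le _ _).trans
            (mul_le_mul_of_nonneg_left (hLn x.1) (norm_nonneg _)))
        · exact (hin _ _ _).trans ((norm_mul_le _ _).trans
            (mul_le_mul_of_nonneg_right (hRn x.1) (norm_nonneg _)))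
        · exact norm_nonneg _
        · positivity
      · positivity
      · positivity
    have h3 := h2.hasSum.prod_fiberwise h1
    have h4 : matn e n (X n * (∑ i, L i n * K i * R i n) * Y n) j k =
        ∑ i, ⟪e (j : ℤ), (X n * (L i n * K i * R i n) * Y n) (e (k : ℤ))⟫_ℂ := by
      unfold matn
      rw [Finset.mul_sum, Finset.sum_mul, ContinuousLinearMap.sum_apply, inner_sum]
    rw [h4, (hasSum_fintype _).unique h3]
    exact h2.hasSum
  · -- bounded Gram entries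
    filter_upwards [hX, hY, hL, hR] with n h1 h2 h3 h4
    intro x y
    have h5 := sum_inner_Ip e n (R x.1 n * Y n) (e x.2.2) ((X n * L y.1 n) (e y.2.1))
    rw [h5]
    have hC0 : 0 ≤ C := (norm_nonneg _).trans h1
    have h6 : (R x.1 n * Y n) (pr e (Ip n) ((X n * L y.1 n) (e y.2.1))) =
        (R x.1 n * (Y n * pr e (Ip n) * X n) * L y.1 n) (e y.2.1) := by
      simp only [ContinuousLinearMap.mul_apply]
    rw [h6]
    have h7 := norm_inner_le_norm (𝕜 := ℂ) (e x.2.2)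
      ((R x.1 n * (Y n * pr e (Ip n) * X n) * L y.1 n) (e y.2.1))
    rw [norm_e, one_mul] at h7
    refine h7.trans ?_
    have h8 := (R x.1 n * (Y n * pr e (Ip n) * X n) * L y.1 n).le_opNorm (e y.2.1)
    rw [norm_e, mul_one] at h8
    refine h8.trans ?_
    calc ‖R x.1 n * (Y n * pr e (Ip n) * X n) * L y.1 n‖
        ≤ ‖R x.1 n * (Y n * pr e (Ip n) * X n)‖ * ‖L y.1 n‖ := norm_mul_le _ _
      _ ≤ (‖R x.1 n‖ * ‖Y n * pr e (Ip n) * X n‖) * ‖L y.1 n‖ :=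
          mul_le_mul_of_nonneg_right (norm_mul_le _ _) (norm_nonneg _)
      _ ≤ (‖R x.1 n‖ * ((‖Y n‖ * ‖pr e (Ip n)‖) * ‖X n‖)) * ‖L y.1 n‖ := by
          apply mul_le_mul_of_nonneg_right _ (norm_nonneg _)
          apply mul_le_mul_of_nonneg_left _ (norm_nonneg _)
          exact (norm_mul_le _ _).trans (mul_le_mul_of_nonneg_right (norm_mul_le _ _) (norm_nonneg _))
      _ ≤ C * (C * 1 * C) * C := by
          gcongr
          · exact h4 _
          · exact pr_norm _ _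
          · exact h3 _
  · intro x y
    obtain ⟨l, hl⟩ := hG x.1 y.1 y.2.1 x.2.2
    refine ⟨l, hl.congr fun n => ?_⟩
    rw [sum_inner_Ip e n (R x.1 n * Y n) (e x.2.2) ((X n * L y.1 n) (e y.2.1))]
    simp only [ContinuousLinearMap.mul_apply]

end

end Pool.Agent.K1H32.TD
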