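import Pool.Agent.K1H32.TD.Fam
import Pool.Agent.K1H32.TD.Nuc

/-! # the two-cluster localisation, abstract form -/

open Filter Topology MeasureTheory
open scoped InnerProductSpace

namespace Pool.Agent.K1H32.TD

set_option linter.unusedSectionVars false
set_option linter.unusedVariables false
set_option linter.deprecated false

theorem split4 {R : Type*} [Ring R] {P Q a b x : R} (hs : P + Q = 1) (PP : P * P = P)
    (QQ : Q * Q = Q) :
    P * (a * Q * b) * P = P * ((P * (a * x) * Q) * b + a * (Q * ((1 - x) * b) * P)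
      + (-a) * (P * x * Q) * b + a * (Q * x * P) * b) * P := by
  have e1 : P * ((P * (a * x) * Q) * b) * P = P * a * x * Q * b * P := by
    calc P * ((P * (a * x) * Q) * b) * P = (P * P) * a * x * Q * b * P := by simp only [mul_assoc]
      _ = _ := by rw [PP]
  have e2 : P * (a * (Q * ((1 - x) * b) * P)) * P = P * a * Q * b * P - P * a * Q * x * b * P := by
    calc P * (a * (Q * ((1 - x) * b) * P)) * P = P * a * Q * ((1 - x) * b) * (P * P) := by
          simp only [mul_assoc]
      _ = _ := by rw [PP, sub_mul, one_mul]; simp only [mul_sub, sub_mul, mul_assoc]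
  have e3 : P * ((-a) * (P * x * Q) * b) * P = -(P * a * P * x * Q * b * P) := by
    simp only [mul_assoc, neg_mul, mul_neg]
  have e4 : P * (a * (Q * x * P) * b) * P = P * a * Q * x * P * b * P := by
    simp only [mul_assoc]
  have e5 : P * a * x * Q * b * P = P * a * P * x * Q * b * P + P * a * Q * x * Q * b * P := by
    calc P * a * x * Q * b * P = P * a * 1 * x * Q * b * P := by rw [mul_one]
      _ = _ := by rw [← hs]; simp only [mul_add, add_mul]
  have e6 : P * a * Q * x * b * P = P * a * Q * x * P * b * P + P * a * Q * x * Q * b * P := by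
    calc P * a * Q * x * b * P = P * a * Q * x * 1 * b * P := by rw [mul_one]
      _ = _ := by rw [← hs]; simp only [mul_add, add_mul]
  rw [mul_add, mul_add, mul_add, add_mul, add_mul, add_mul, e1, e2, e3, e4, e5, e6]
  have e7 : P * (a * Q * b) * P = P * a * Q * b * P := by simp only [mul_assoc]
  rw [e7]
  abel

section

variable {H : Type} [NormedAddCommGroup H] [InnerProductSpace ℂ H] [CompleteSpace H]
  {e : HilbertBasis ℤ ℂ H} {M : (Tc → ℂ) → (H →L[ℂ] H)}

theorem fast_corner (h : MulSys e M) {f : Tc → ℂ} (hf : BM f) {C : ℝ}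
    (hC : ∀ k : ℤ, ‖fourierCoeff f k‖ ≤ C / (1 + |(k : ℝ)|) ^ 8) {A B : Set ℤ}
    (hAB : (A = {k | k < 0} ∧ B = {k | 0 ≤ k}) ∨ (A = {k | 0 ≤ k} ∧ B = {k | k < 0})) :
    Fast e (pr e A * M f * pr e B) := by
  classical
  refine ⟨C, fun p q => ?_⟩
  have hC0 : 0 ≤ C := by
    have := (norm_nonneg _).trans (hC 0)
    simpa using this
  have h1 : 0 ≤ C / (1 + |(p : ℝ)| + |(q : ℝ)|) ^ 8 := by positivity
  rw [ContinuousLinearMap.mul_apply, ContinuousLinearMap.mul_apply, pr_coord]
  split_ifs with hp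
  · by_cases hq : q ∈ B
    · rw [pr_in e hq, h.entry f hf]
      have h2 : |((p - q : ℤ) : ℝ)| = |(p : ℝ)| + |(q : ℝ)| := by
        push_cast
        rcases hAB with ⟨rfl, rfl⟩ | ⟨rfl, rfl⟩
        · have hp' : (p : ℝ) < 0 := by exact_mod_cast hp
          have hq' : (0 : ℝ) ≤ q := by exact_mod_cast hq
          rw [abs_of_neg hp', abs_of_nonneg hq', abs_of_neg (by linarith)]
          ring
        · have hp' : (0 : ℝ) ≤ p := by exact_mod_cast hp
          have hq' : (q : ℝ) < 0 := by exact_mod_cast hq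
          rw [abs_of_nonneg hp', abs_of_neg hq', abs_of_nonneg (by linarith)]
          ring
      have h3 := hC (p - q)
      rw [h2] at h3
      rwa [add_assoc]
    · rw [pr_out e hq, map_zero, inner_zero_right, norm_zero]
      exact h1
  · rw [norm_zero]
    exact h1

/-- the finite section and its inverse -/
theorem fin_inv (e : HilbertBasis ℤ ℂ H) (n : ℕ) {T : H →L[ℂ] H}
    (hu : IsUnit (pr e (Ip n) * T * pr e (Ip n) + (1 - pr e (Ip n)))) :
    matn e n T * matn e n (Ring.inverse (pr e (Ip n) * T * pr e (Ip n) + (1 - pr e (Ip n)))) = 1 := by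
  set A := pr e (Ip n) * T * pr e (Ip n) + (1 - pr e (Ip n)) with hA
  set P := pr e (Ip n) with hP
  have hAA : A * Ring.inverse A = 1 := Ring.mul_inverse_cancel _ hu
  have hPA : P * A = P * T * P := by
    rw [hA, mul_add, mul_sub, mul_one, pr_idem, sub_self, add_zero, ← mul_assoc, ← mul_assoc,
      pr_idem]
  have h1 : P * T * P * Ring.inverse A = P := by
    rw [← hPA, mul_assoc, hAA, mul_one]
  rw [matn_mul]
  ext j k
  have hj : (j : ℤ) ∈ Ip n := ⟨Int.natCast_nonneg _, by exact_mod_cast j.2⟩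
  have h2 : ⟪e (j : ℤ), (T * P * Ring.inverse A) (e (k : ℤ))⟫_ℂ =
      ⟪e (j : ℤ), (P * T * P * Ring.inverse A) (e (k : ℤ))⟫_ℂ := by
    have h3 : (P * T * P * Ring.inverse A) (e (k : ℤ)) =
        P ((T * P * Ring.inverse A) (e (k : ℤ))) := by
      simp only [ContinuousLinearMap.mul_apply]
    rw [h3, hP, pr_inner, pr_in e hj]
  have hk : (k : ℤ) ∈ Ip n := ⟨Int.natCast_nonneg _, by exact_mod_cast k.2⟩
  change ⟪e (j : ℤ), (T * P * Ring.inverse A) (e (k : ℤ))⟫_ℂ = _
  rw [h2, h1, hP, pr_in e hk, inner_e, Matrix.one_apply]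
  by_cases hjk : j = k
  · rw [if_pos hjk, if_pos (by rw [hjk])]
  · rw [if_neg hjk, if_neg]
    intro h4
    apply hjk
    apply Fin.ext
    exact_mod_cast h4

theorem matn_one_of (e : HilbertBasis ℤ ℂ H) (n : ℕ) (S T : H →L[ℂ] H)
    (h : pr e (Ip n) * S * pr e (Ip n) = pr e (Ip n) * T * pr e (Ip n)) (A B : H →L[ℂ] H) :
    A * pr e (Ip n) * S * pr e (Ip n) * B = A * pr e (Ip n) * T * pr e (Ip n) * B := by
  have e1 : ∀ Z : H →L[ℂ] H, A * pr e (Ip n) * Z * pr e (Ip n) * B =
      A * (pr e (Ip n) * Z * pr e (Ip n)) * B := by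
    intro Z; simp only [mul_assoc]
  rw [e1, e1, h]

/-- the quotient of determinants is one determinant -/
theorem ratio_eq (e : HilbertBasis ℤ ℂ H) (n : ℕ) {S T : H →L[ℂ] H}
    (hS : IsUnit (pr e (Ip n) * S * pr e (Ip n) + (1 - pr e (Ip n))))
    (hT : IsUnit (pr e (Ip n) * T * pr e (Ip n) + (1 - pr e (Ip n)))) :
    Matrix.det (matn e n S) ≠ 0 ∧ Matrix.det (matn e n T) ≠ 0 ∧
    Matrix.det (matn e n (S * T)) / (Matrix.det (matn e n S) * Matrix.det (matn e n T)) =
      Matrix.det (1 + matn e n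
        (Ring.inverse (pr e (Ip n) * S * pr e (Ip n) + (1 - pr e (Ip n))) * pr e (Ip n) *
          (S * (1 - pr e (Ip n)) * T) * pr e (Ip n) *
          Ring.inverse (pr e (Ip n) * T * pr e (Ip n) + (1 - pr e (Ip n))))) := by
  have h1 := fin_inv e n hS
  have h2 := fin_inv e n hT
  set S' := Ring.inverse (pr e (Ip n) * S * pr e (Ip n) + (1 - pr e (Ip n))) with hS'
  set T' := Ring.inverse (pr e (Ip n) * T * pr e (Ip n) + (1 - pr e (Ip n))) with hT'
  have h1' : matn e n S' * matn e n S = 1 := mul_eq_one_comm.1 h1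
  have d1 : Matrix.det (matn e n S) * Matrix.det (matn e n S') = 1 := by
    rw [← Matrix.det_mul, h1, Matrix.det_one]
  have d2 : Matrix.det (matn e n T) * Matrix.det (matn e n T') = 1 := by
    rw [← Matrix.det_mul, h2, Matrix.det_one]
  have n1 : Matrix.det (matn e n S) ≠ 0 := left_ne_zero_of_mul_eq_one d1
  have n2 : Matrix.det (matn e n T) ≠ 0 := left_ne_zero_of_mul_eq_one d2
  refine ⟨n1, n2, ?_⟩
  have hadd : ∀ A B : H →L[ℂ] H, matn e n (A + B) = matn e n A + matn e n B := by
    intro A B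
    ext j k
    simp only [matn, Matrix.add_apply, ContinuousLinearMap.add_apply, inner_add_right]
  have h3 : matn e n (S * T) = matn e n S * matn e n T + matn e n (S * (1 - pr e (Ip n)) * T) := by
    rw [matn_mul, ← hadd]
    congr 1
    rw [mul_sub, mul_one, sub_mul]
    abel
  have h4 : matn e n S' * matn e n (S * T) * matn e n T' = 1 + matn e n
        (S' * pr e (Ip n) * (S * (1 - pr e (Ip n)) * T) * pr e (Ip n) * T') := by
    rw [h3, mul_add, add_mul]
    congr 1
    · calc matn e n S' * (matn e n S * matn e n T) * matn e n T'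
          = (matn e n S' * matn e n S) * (matn e n T * matn e n T') := by
            simp only [mul_assoc]
        _ = 1 := by rw [h1', h2, one_mul]
    · rw [matn_mul, matn_mul]
  have h5 : Matrix.det (matn e n S') * Matrix.det (matn e n (S * T)) * Matrix.det (matn e n T') =
      Matrix.det (1 + matn e n
        (S' * pr e (Ip n) * (S * (1 - pr e (Ip n)) * T) * pr e (Ip n) * T')) := by
    rw [← Matrix.det_mul, ← Matrix.det_mul, h4]
  rw [← h5]
  rw [div_eq_iff (mul_ne_zero n1 n2)]
  calc Matrix.det (matn e n (S * T))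
      = (Matrix.det (matn e n S) * Matrix.det (matn e n S')) * Matrix.det (matn e n (S * T)) *
        (Matrix.det (matn e n T) * Matrix.det (matn e n T')) := by rw [d1, d2]; ring
    _ = _ := by ring

theorem pq_sum (e : HilbertBasis ℤ ℂ H) : pr e {k : ℤ | 0 ≤ k} + pr e {k : ℤ | k < 0} = 1 := by
  rw [pr_add e]
  · have : {k : ℤ | 0 ≤ k} ∪ {k | k < 0} = Set.univ := by
      ext k
      simp only [Set.mem_union, Set.mem_setOf_eq, Set.mem_univ, iff_true]
      omega
    rw [this, pr_univ]
  · rw [Set.disjoint_left]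
    intro k hk hk'
    simp only [Set.mem_setOf_eq] at hk hk'
    omega

/-- left factors -/
noncomputable def L0 (a : H →L[ℂ] H) (κ : ℂ) : Fin 4 → (H →L[ℂ] H) := ![κ • 1, a, -a, a]
/-- right factors -/
noncomputable def R0 (b : H →L[ℂ] H) (κ : ℂ) : Fin 4 → (H →L[ℂ] H) := ![b, κ • 1, b, b]
/-- Hankel type corners -/
noncomputable def K0 (P Q x s s' : H →L[ℂ] H) : Fin 4 → (H →L[ℂ] H) :=
  ![P * s * Q, Q * s' * P, P * x * Q, Q * x * P]

theorem split4' {P Q a b x s s' : H →L[ℂ] H} {κ κ' : ℂ} (hs : P + Q = 1) (PP : P * P = P)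
    (QQ : Q * Q = Q) (h1 : a * x = κ • s) (h2 : (1 - x) * b = κ' • s') :
    P * (a * Q * b) * P = P * (∑ i, L0 a κ i * K0 P Q x s s' i * R0 b κ' i) * P := by
  rw [split4 (x := x) hs PP QQ, h1, h2]
  congr 2
  rw [Fin.sum_univ_four]
  simp only [L0, R0, K0, Matrix.cons_val_zero, Matrix.cons_val_one, Matrix.cons_val_two,
    Matrix.cons_val_three, Matrix.head_cons, Matrix.tail_cons]
  simp only [smul_mul_assoc, mul_smul_comm, one_mul, mul_one, mul_assoc]

end

end Pool.Agent.K1H32.TD
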