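import Pool.Agent.K1H32.TD.Asm

/-! # the two-cluster localisation: the limit of the quotient -/

open Filter Topology MeasureTheory
open scoped InnerProductSpace

namespace Pool.Agent.K1H32.TD

set_option linter.unusedSectionVars false
set_option linter.unusedVariables false
set_option linter.deprecated false

section

variable {H : Type} [NormedAddCommGroup H] [InnerProductSpace ℂ H] [CompleteSpace H]
  {e : HilbertBasis ℤ ℂ H} {M : (Tc → ℂ) → (H →L[ℂ] H)}

theorem norm_all {J : Type} [Fintype J] {A : J → ℕ → H →L[ℂ] H}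
    (h : ∀ i, ∃ C : ℝ, ∀ᶠ n in atTop, ‖A i n‖ ≤ C) :
    ∃ C : ℝ, ∀ᶠ n in atTop, ∀ i, ‖A i n‖ ≤ C := by
  choose C hC using h
  refine ⟨∑ i, |C i|, ?_⟩
  rw [eventually_all]
  intro i
  filter_upwards [hC i] with n hn
  exact hn.trans ((le_abs_self _).trans
    (Finset.single_le_sum (f := fun i => |C i|) (fun _ _ => abs_nonneg _) (Finset.mem_univ i)))

theorem inner_lim {Z : ℕ → H →L[ℂ] H} {Z0 : H →L[ℂ] H} (hZ : SSC Z Z0) (x y : H) :
    Tendsto (fun n => ⟪x, Z n y⟫_ℂ) atTop (𝓝 ⟪x, Z0 y⟫_ℂ) :=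
  Tendsto.inner tendsto_const_nhds (hZ.1.2 y)

/-- the shifted data -/
noncomputable def LL (M : (Tc → ℂ) → (H →L[ℂ] H)) (L : Fin 4 → ℕ → H →L[ℂ] H)
    (i : Bool × Fin 4) (n : ℕ) : H →L[ℂ] H := if i.1 then sh M n * L i.2 n else L i.2 n
noncomputable def RR (M : (Tc → ℂ) → (H →L[ℂ] H)) (R : Fin 4 → ℕ → H →L[ℂ] H)
    (i : Bool × Fin 4) (n : ℕ) : H →L[ℂ] H := if i.1 then R i.2 n * sh M (-(n : ℤ)) else R i.2 n

/-- convergence of the Gram entries -/
theorem gram (h : MulSys e M) {L R : Fin 4 → ℕ → H →L[ℂ] H} {l r : Fin 4 → H →L[ℂ] H}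
    (hL : ∀ i, SSC (L i) (l i)) (hR : ∀ i, SSC (R i) (r i)) {Z : ℕ → H →L[ℂ] H}
    {Z0 Z1 : H →L[ℂ] H} (hZ : SSC Z Z0)
    (hZ' : SSC (fun n : ℕ => sh M (-(n : ℤ)) * Z n * sh M n) Z1) (i j : Bool × Fin 4) (p q : ℤ) :
    ∃ c : ℂ, Tendsto (fun n => ⟪e q, (RR M R i n * Z n * LL M L j n) (e p)⟫_ℂ) atTop (𝓝 c) := by
  obtain ⟨b, i⟩ := i
  obtain ⟨b', j⟩ := j
  cases b <;> cases b'
  · refine ⟨_, (inner_lim (((hR i).mul hZ).mul (hL j)) (e q) (e p)).congr fun n => ?_⟩
    rfl
  · refine ⟨0, ?_⟩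
    have h1 := weak_conv h (((hR i).mul hZ).2.2 (e q)) ((hL j).1.2 (e p))
    refine h1.congr fun n => ?_
    simp only [RR, LL, if_true]
    rw [ContinuousLinearMap.star_eq_adjoint, ContinuousLinearMap.adjoint_inner_left]
    rfl
  · refine ⟨0, ?_⟩
    have h1 := weak_conv h ((hZ.mul (hL j)).1.2 (e p)) ((hR i).2.2 (e q))
    have h2 := (continuous_star.tendsto (0 : ℂ)).comp h1
    rw [star_zero] at h2
    refine h2.congr fun n => ?_
    simp only [RR, LL, if_true, Function.comp_def]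
    have h3 : ∀ x y : H, star ⟪x, y⟫_ℂ = ⟪y, x⟫_ℂ := fun x y => inner_conj_symm y x
    rw [h3]
    have h4 : sh M n (star (R i n) (e q)) = star (R i n * sh M (-(n : ℤ))) (e q) := by
      rw [star_mul, sh_star h, neg_neg]
      rfl
    rw [h4, ContinuousLinearMap.star_eq_adjoint, ContinuousLinearMap.adjoint_inner_left]
    rfl
  · refine ⟨_, (inner_lim (((hR i).mul hZ').mul (hL j)) (e q) (e p)).congr fun n => ?_⟩
    simp only [RR, LL, if_true]
    have h1 : R i n * (sh M (-(n : ℤ)) * Z n * sh M n) * L j n =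
        R i n * sh M (-(n : ℤ)) * Z n * (sh M n * L j n) := by
      simp only [mul_assoc]
    rw [h1]

/-- one block of the perturbation, at the left and at the right end -/
theorem ends (h : MulSys e M) (n : ℕ) {a b x s s' : Tc → ℂ} (ba : BM a) (bb : BM b) (bx : BM x)
    {κ κ' : ℂ} (h1 : M a * M x = κ • M s) (h2 : (1 - M x) * M b = κ' • M s') :
    pr e (Ip n) * (M a * (1 - pr e (Ip n)) * M b) * pr e (Ip n) =
      pr e (Ip n) * (∑ i : Bool × Fin 4,
        (if i.1 then sh M n * L0 (M a) κ i.2 else L0 (M a) κ i.2) *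
        (if i.1 then K0 (pr e {k | k < 0}) (pr e {k | 0 ≤ k}) (M x) (M s) (M s') i.2 else
          K0 (pr e {k | 0 ≤ k}) (pr e {k | k < 0}) (M x) (M s) (M s') i.2) *
        (if i.1 then R0 (M b) κ' i.2 * sh M (-(n : ℤ)) else R0 (M b) κ' i.2)) * pr e (Ip n) := by
  set P := pr e {k : ℤ | 0 ≤ k} with hP
  set Q := pr e {k : ℤ | k < 0} with hQ
  set p := pr e (Ip n) with hp
  have hs : P + Q = 1 := pq_sum e
  have PP : P * P = P := pr_idem e _
  have QQ : Q * Q = Q := pr_idem e _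
  have pP : p * P = p := pr_sub e (fun k hk => hk.1)
  have Pp : P * p = p := pr_sup e (fun k hk => hk.1)
  -- left end
  have hleft : p * (M a * Q * M b) * p =
      p * (∑ i, L0 (M a) κ i * K0 P Q (M x) (M s) (M s') i * R0 (M b) κ' i) * p := by
    have h3 := split4' hs PP QQ h1 h2
    calc p * (M a * Q * M b) * p = (p * P) * (M a * Q * M b) * (P * p) := by rw [pP, Pp]
      _ = p * (P * (M a * Q * M b) * P) * p := by simp only [mul_assoc]
      _ = (p * P) * (∑ i, L0 (M a) κ i * K0 P Q (M x) (M s) (M s') i * R0 (M b) κ' i) * (P * p) := by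
          rw [h3]; simp only [mul_assoc]
      _ = _ := by rw [pP, Pp]
  -- right end
  set V := sh M n with hV
  set V' := sh M (-(n : ℤ)) with hV'
  set p' := pr e {k : ℤ | k + (n : ℤ) ∈ Ip n} with hp'
  have VV : V' * V = 1 := sh_inv' h _
  have VV' : V * V' = 1 := sh_inv h _
  have p'Q : p' * Q = p' := pr_sub e (by
    intro k hk
    simp only [Ip, Set.mem_setOf_eq] at hk ⊢
    omega)
  have Qp' : Q * p' = p' := pr_sup e (by
    intro k hk
    simp only [Ip, Set.mem_setOf_eq] at hk ⊢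
    omega)
  have hpc : V' * p * V = p' := pr_conj h n (Ip n)
  have pV : p * V = V * p' := by
    rw [← hpc, ← mul_assoc, ← mul_assoc, VV', one_mul]
  have V'p : V' * p = p' * V' := by
    rw [← hpc, mul_assoc _ V V', VV', mul_one]
  have hQn : pr e {k : ℤ | (n : ℤ) ≤ k} = V * P * V' := by
    rw [hV, sh_pr h, mul_assoc, ← hV, VV', mul_one]
    congr 1
    ext k
    simp
  have aV : M a * V = V * M a := (sh_comm h _ ba).symm
  have V'b : V' * M b = M b * V' := sh_comm h _ bb
  have hright : p * (M a * pr e {k : ℤ | (n : ℤ) ≤ k} * M b) * p =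
      p * (V * (∑ i, L0 (M a) κ i * K0 Q P (M x) (M s) (M s') i * R0 (M b) κ' i) * V') * p := by
    have h3 := split4' (P := Q) (Q := P) (by rw [add_comm]; exact hs) QQ PP h1 h2
    have h4 : ∀ Z : H →L[ℂ] H, p * (V * Z * V') * p = V * (p' * Z * p') * V' := by
      intro Z
      calc p * (V * Z * V') * p = (p * V) * Z * (V' * p) := by simp only [mul_assoc]
        _ = _ := by rw [pV, V'p]; simp only [mul_assoc]
    have h5 : M a * pr e {k : ℤ | (n : ℤ) ≤ k} * M b = V * (M a * P * M b) * V' := by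
      rw [hQn]
      calc M a * (V * P * V') * M b = (M a * V) * P * (V' * M b) := by simp only [mul_assoc]
        _ = _ := by rw [aV, V'b]; simp only [mul_assoc]
    rw [h5, h4, h4]
    congr 2
    calc p' * (M a * P * M b) * p' = (p' * Q) * (M a * P * M b) * (Q * p') := by rw [p'Q, Qp']
      _ = p' * (Q * (M a * P * M b) * Q) * p' := by simp only [mul_assoc]
      _ = (p' * Q) * (∑ i, L0 (M a) κ i * K0 Q P (M x) (M s) (M s') i * R0 (M b) κ' i) *
            (Q * p') := by
          rw [h3]; simp only [mul_assoc]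
      _ = _ := by rw [p'Q, Qp']
  have hone : 1 - p = Q + pr e {k : ℤ | (n : ℤ) ≤ k} := by
    rw [sub_eq_iff_eq_add, hQ, hp, pr_add e, pr_add e]
    · have : {k : ℤ | k < 0} ∪ {k : ℤ | (n : ℤ) ≤ k} ∪ Ip n = Set.univ := by
        ext k
        simp only [Ip, Set.mem_union, Set.mem_setOf_eq, Set.mem_univ, iff_true]
        omega
      rw [this, pr_univ]
    · rw [Set.disjoint_left]
      intro k hk hk'
      simp only [Ip, Set.mem_union, Set.mem_setOf_eq] at hk hk'
      omega
    · rw [Set.disjoint_left]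
      intro k hk hk'
      simp only [Set.mem_setOf_eq] at hk hk'
      omega
  rw [hone]
  have h6 : p * (M a * (Q + pr e {k : ℤ | (n : ℤ) ≤ k}) * M b) * p =
      p * (M a * Q * M b) * p + p * (M a * pr e {k : ℤ | (n : ℤ) ≤ k} * M b) * p := by
    simp only [mul_add, add_mul]
  rw [h6, hleft, hright, ← add_mul, ← mul_add]
  congr 2
  rw [Fintype.sum_prod_type, Fintype.sum_bool, add_comm]
  simp only [if_true, Bool.false_eq_true, if_false]
  congr 1
  rw [Finset.mul_sum, Finset.sum_mul]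
  apply Finset.sum_congr rfl
  intro i _
  simp only [mul_assoc]

end

end Pool.Agent.K1H32.TD
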