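import Pool.Agent.K1H32.TD.Asm2

/-! # the two-cluster localisation for multiplication operators -/

open Filter Topology MeasureTheory
open scoped InnerProductSpace

namespace Pool.Agent.K1H32.TD

set_option linter.unusedSectionVars false
set_option linter.unusedVariables false
set_option linter.deprecated false

section

variable {H : Type} [NormedAddCommGroup H] [InnerProductSpace ℂ H] [CompleteSpace H]
  {e : HilbertBasis ℤ ℂ H} {M : (Tc → ℂ) → (H →L[ℂ] H)}

/-- the symbol `exp(g) v` -/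
noncomputable def ev (g : C(Tc, ℂ)) (v : Tc → ℂ) (z : Tc) : ℂ := Complex.exp (g z) * v z

/-- the block diagonal finite section -/
noncomputable def An (e : HilbertBasis ℤ ℂ H) (n : ℕ) (T : H →L[ℂ] H) : H →L[ℂ] H :=
  pr e (Ip n) * T * pr e (Ip n) + (1 - pr e (Ip n))

theorem ev_bm (g : C(Tc, ℂ)) {v : Tc → ℂ} (hv : BM v) : BM (ev g v) :=
  (BM_cont (f := fun z => Complex.exp (g z)) (by fun_prop)).mul hv

theorem ev_ssc (h : MulSys e M) (g : C(Tc, ℂ)) {v : ℕ → Tc → ℂ} {v0 : Tc → ℂ} (hv : Fam v v0) :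
    SSC (fun n => M (ev g (v n))) (M (ev g v0)) := by
  obtain ⟨-, C, hC⟩ := BM_cont (f := fun z => Complex.exp (g z)) (by fun_prop)
  apply h.ssc (fun n => ev_bm g (hv.bm n)) (ev_bm g hv.bm0) (C * 2)
  · intro n x
    unfold ev
    rw [norm_mul]
    exact mul_le_mul (hC x) (hv.bd n x) (norm_nonneg _) ((norm_nonneg _).trans (hC x))
  · filter_upwards [hv.lim] with x hx
    exact hx.const_mul _

/-- inverses of the finite sections converge *-strongly, at both ends -/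
theorem inv_both (hINV : S_INV) (h : MulSys e M) (g : C(Tc, ℂ)) {v : ℕ → Tc → ℂ} {v0 : Tc → ℂ}
    (hv : Fam v v0) :
    (∀ᶠ n in atTop, IsUnit (An e n (M (ev g (v n))))) ∧
    (∃ Z : H →L[ℂ] H, SSC (fun n => Ring.inverse (An e n (M (ev g (v n))))) Z) ∧
    (∃ Z : H →L[ℂ] H, SSC (fun n : ℕ => sh M (-(n : ℤ)) *
      Ring.inverse (An e n (M (ev g (v n)))) * sh M n) Z) := by
  obtain ⟨C, hC⟩ := fam_stab hINV h g hv
  have hC' : ∀ᶠ n in atTop, IsUnit (An e n (M (ev g (v n)))) ∧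
      ‖Ring.inverse (An e n (M (ev g (v n))))‖ ≤ C := hC
  have hA : SSC (fun n => An e n (M (ev g (v n))))
      (pr e {k | 0 ≤ k} * M (ev g v0) * pr e {k | 0 ≤ k} + (1 - pr e {k | 0 ≤ k})) :=
    (((Ip_ssc e).mul (ev_ssc h g hv)).mul (Ip_ssc e)).add ((SSC.const 1).sub (Ip_ssc e))
  refine ⟨hC'.mono fun n hn => hn.1, ⟨_, (hINV H _ _ C hA hC').2⟩, ?_⟩
  -- the shifted sections
  have hsh : ∀ n : ℕ, sh M (-(n : ℤ)) * An e n (M (ev g (v n))) * sh M n =
      pr e {k | k + (n : ℤ) ∈ Ip n} * M (ev g (v n)) * pr e {k | k + (n : ℤ) ∈ Ip n} +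
        (1 - pr e {k | k + (n : ℤ) ∈ Ip n}) := by
    intro n
    unfold An
    rw [mul_add, add_mul, conj_mul h, conj_mul h, pr_conj h, mul_sub, sub_mul, mul_one,
      sh_inv' h, pr_conj h]
    congr 3
    rw [mul_assoc, ← sh_comm h n (ev_bm g (hv.bm n)), ← mul_assoc, sh_inv' h, one_mul]
  have hp : SSC (fun n : ℕ => pr e {k | k + (n : ℤ) ∈ Ip n}) (pr e {k | k < 0}) := by
    apply pr_ssc
    intro k
    filter_upwards [eventually_gt_atTop k.natAbs] with n hn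
    simp only [Ip, Set.mem_setOf_eq]
    omega
  have hA' : SSC (fun n : ℕ => sh M (-(n : ℤ)) * An e n (M (ev g (v n))) * sh M n)
      (pr e {k | k < 0} * M (ev g v0) * pr e {k | k < 0} + (1 - pr e {k | k < 0})) := by
    have := ((hp.mul (ev_ssc h g hv)).mul hp).add ((SSC.const 1).sub hp)
    exact this.congr (Eventually.of_forall fun n => (hsh n).symm)
  have hinv : ∀ n : ℕ, IsUnit (An e n (M (ev g (v n)))) →
      IsUnit (sh M (-(n : ℤ)) * An e n (M (ev g (v n))) * sh M n) ∧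
      Ring.inverse (sh M (-(n : ℤ)) * An e n (M (ev g (v n))) * sh M n) =
        sh M (-(n : ℤ)) * Ring.inverse (An e n (M (ev g (v n)))) * sh M n := by
    intro n hn
    have e1 : (sh M (-(n : ℤ)) * An e n (M (ev g (v n))) * sh M n) *
        (sh M (-(n : ℤ)) * Ring.inverse (An e n (M (ev g (v n)))) * sh M n) = 1 := by
      rw [← conj_mul h, Ring.mul_inverse_cancel _ hn, mul_one, sh_inv' h]
    have e2 : (sh M (-(n : ℤ)) * Ring.inverse (An e n (M (ev g (v n)))) * sh M n) *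
        (sh M (-(n : ℤ)) * An e n (M (ev g (v n))) * sh M n) = 1 := by
      rw [← conj_mul h, Ring.inverse_mul_cancel _ hn, mul_one, sh_inv' h]
    exact ⟨isUnit_of_inv e1 e2, ring_inverse_eq e1 e2⟩
  have hb : ∀ᶠ n : ℕ in atTop, IsUnit (sh M (-(n : ℤ)) * An e n (M (ev g (v n))) * sh M n) ∧
      ‖Ring.inverse (sh M (-(n : ℤ)) * An e n (M (ev g (v n))) * sh M n)‖ ≤ C := by
    filter_upwards [hC'] with n hn
    obtain ⟨h1, h2⟩ := hinv n hn.1
    refine ⟨h1, ?_⟩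
    rw [h2]
    calc ‖sh M (-(n : ℤ)) * Ring.inverse (An e n (M (ev g (v n)))) * sh M n‖
        ≤ ‖sh M (-(n : ℤ))‖ * ‖Ring.inverse (An e n (M (ev g (v n))))‖ * ‖sh M n‖ :=
          (norm_mul_le _ _).trans (mul_le_mul_of_nonneg_right (norm_mul_le _ _) (norm_nonneg _))
      _ ≤ 1 * C * 1 := by
          have hC0 : 0 ≤ C := (norm_nonneg _).trans hn.2
          gcongr
          · exact sh_norm h _
          · exact hn.2
          · exact sh_norm h _
      _ = C := by ring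
  refine ⟨_, ((hINV H _ _ C hA' hb).2).congr ?_⟩
  filter_upwards [hC'] with n hn
  exact (hinv n hn.1).2

/-- decay of the Fourier coefficients -/
def Dec (f : Tc → ℂ) : Prop := ∃ C : ℝ, ∀ k : ℤ, ‖fourierCoeff f k‖ ≤ C / (1 + |(k : ℝ)|) ^ 8

/-- the main theorem for multiplication operators -/
theorem loc (hINV : S_INV) (hFD : S_FD) (h : MulSys e M) (g g' : C(Tc, ℂ))
    {v v' : ℕ → Tc → ℂ} {v0 v0' : Tc → ℂ} (hv : Fam v v0) (hv' : Fam v' v0')
    {x s s' : Tc → ℂ} (bx : BM x) (bs : BM s) (bs' : BM s') (dx : Dec x) (ds : Dec s)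
    (ds' : Dec s') {κ κ' : ℕ → ℂ} {κ0 κ0' : ℂ} (hκ : Tendsto κ atTop (𝓝 κ0))
    (hκ' : Tendsto κ' atTop (𝓝 κ0'))
    (h1 : ∀ᶠ n in atTop, ∀ z, ev g (v n) z * x z = κ n * s z)
    (h2 : ∀ᶠ n in atTop, ∀ z, (1 - x z) * ev g' (v' n) z = κ' n * s' z) :
    (∀ᶠ n in atTop, Matrix.det (matn e n (M (ev g (v n)))) ≠ 0 ∧
      Matrix.det (matn e n (M (ev g' (v' n)))) ≠ 0) ∧
    ∃ l : ℂ, Tendsto (fun n => Matrix.det (matn e n (M (fun z => ev g (v n) z * ev g' (v' n) z))) /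
      (Matrix.det (matn e n (M (ev g (v n)))) * Matrix.det (matn e n (M (ev g' (v' n))))))
      atTop (𝓝 l) := by
  obtain ⟨u1, ⟨Z1, hZ1⟩, ⟨Z1', hZ1'⟩⟩ := inv_both hINV h g hv
  obtain ⟨u2, ⟨Z2, hZ2⟩, ⟨Z2', hZ2'⟩⟩ := inv_both hINV h g' hv'
  have hmul : ∀ n, M (fun z => ev g (v n) z * ev g' (v' n) z) = M (ev g (v n)) * M (ev g' (v' n)) :=
    fun n => h.mul _ _ (ev_bm g (hv.bm n)) (ev_bm g' (hv'.bm n))
  refine ⟨?_, ?_⟩
  · filter_upwards [u1, u2] with n hn1 hn2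
    have := ratio_eq e n hn1 hn2
    exact ⟨this.1, this.2.1⟩
  -- the data for the expansion
  set A' : ℕ → H →L[ℂ] H := fun n => Ring.inverse (An e n (M (ev g (v n)))) with hA'
  set B' : ℕ → H →L[ℂ] H := fun n => Ring.inverse (An e n (M (ev g' (v' n)))) with hB'
  set P : ℕ → H →L[ℂ] H := fun n => pr e (Ip n) with hP
  have hPS : SSC P (pr e {k | 0 ≤ k}) := Ip_ssc e
  set L : Fin 4 → ℕ → H →L[ℂ] H := fun i n => L0 (M (ev g (v n))) (κ n) i with hL
  set R : Fin 4 → ℕ → H →L[ℂ] H := fun i n => R0 (M (ev g' (v' n))) (κ' n) i with hR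
  have hLS : ∀ i, SSC (L i) (L0 (M (ev g v0)) κ0 i) := by
    intro i
    fin_cases i
    · exact (SSC.const 1).smul hκ
    · exact ev_ssc h g hv
    · exact (ev_ssc h g hv).neg
    · exact ev_ssc h g hv
  have hRS : ∀ i, SSC (R i) (R0 (M (ev g' v0')) κ0' i) := by
    intro i
    fin_cases i
    · exact ev_ssc h g' hv'
    · exact (SSC.const 1).smul hκ'
    · exact ev_ssc h g' hv'
    · exact ev_ssc h g' hv'
  set K : Bool × Fin 4 → H →L[ℂ] H := fun i =>
    if i.1 then K0 (pr e {k | k < 0}) (pr e {k | 0 ≤ k}) (M x) (M s) (M s') i.2 else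
          K0 (pr e {k | 0 ≤ k}) (pr e {k | k < 0}) (M x) (M s) (M s') i.2 with hK
  have hKf : ∀ i, Fast e (K i) := by
    obtain ⟨Cx, hx⟩ := dx
    obtain ⟨Cs, hs⟩ := ds
    obtain ⟨Cs', hs'⟩ := ds'
    rintro ⟨b, i⟩
    cases b
    · fin_cases i
      · exact fast_corner h bs hs (Or.inr ⟨rfl, rfl⟩)
      · exact fast_corner h bs' hs' (Or.inl ⟨rfl, rfl⟩)
      · exact fast_corner h bx hx (Or.inr ⟨rfl, rfl⟩)
      · exact fast_corner h bx hx (Or.inl ⟨rfl, rfl⟩)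
    · fin_cases i
      · exact fast_corner h bs hs (Or.inl ⟨rfl, rfl⟩)
      · exact fast_corner h bs' hs' (Or.inr ⟨rfl, rfl⟩)
      · exact fast_corner h bx hx (Or.inl ⟨rfl, rfl⟩)
      · exact fast_corner h bx hx (Or.inr ⟨rfl, rfl⟩)
  -- bounds
  have hX : SSC (fun n => A' n * P n) (Z1 * pr e {k | 0 ≤ k}) := hZ1.mul hPS
  have hY : SSC (fun n => P n * B' n) (pr e {k | 0 ≤ k} * Z2) := hPS.mul hZ2
  obtain ⟨C1, hC1⟩ := hX.1.1
  obtain ⟨C2, hC2⟩ := hY.1.1
  have hshb : ∀ (n : ℕ) (T : H →L[ℂ] H), ‖sh M n * T‖ ≤ ‖T‖ ∧ ‖T * sh M (-(n : ℤ))‖ ≤ ‖T‖ := by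
    intro n T
    constructor
    · calc ‖sh M n * T‖ ≤ ‖sh M n‖ * ‖T‖ := norm_mul_le _ _
        _ ≤ 1 * ‖T‖ := mul_le_mul_of_nonneg_right (sh_norm h _) (norm_nonneg _)
        _ = ‖T‖ := one_mul _
    · calc ‖T * sh M (-(n : ℤ))‖ ≤ ‖T‖ * ‖sh M (-(n : ℤ))‖ := norm_mul_le _ _
        _ ≤ ‖T‖ * 1 := mul_le_mul_of_nonneg_left (sh_norm h _) (norm_nonneg _)
        _ = ‖T‖ := mul_one _
  obtain ⟨C3, hC3⟩ := norm_all (A := LL M L) (by
    rintro ⟨b, i⟩
    obtain ⟨C, hC⟩ := (hLS i).1.1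
    refine ⟨C, hC.mono fun n hn => ?_⟩
    cases b
    · exact hn
    · exact ((hshb n _).1).trans hn)
  obtain ⟨C4, hC4⟩ := norm_all (A := RR M R) (by
    rintro ⟨b, i⟩
    obtain ⟨C, hC⟩ := (hRS i).1.1
    refine ⟨C, hC.mono fun n hn => ?_⟩
    cases b
    · exact hn
    · exact ((hshb n _).2).trans hn)
  set C := max (max C1 C2) (max C3 C4) with hC
  have hCt : SSC (fun n => P n * B' n * P n * (A' n * P n))
      (pr e {k | 0 ≤ k} * Z2 * pr e {k | 0 ≤ k} * (Z1 * pr e {k | 0 ≤ k})) :=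
    (hY.mul hPS).mul hX
  have hp : SSC (fun n : ℕ => sh M (-(n : ℤ)) * P n * sh M n) (pr e {k | k < 0}) := by
    have : SSC (fun n : ℕ => pr e {k | k + (n : ℤ) ∈ Ip n}) (pr e {k | k < 0}) := by
      apply pr_ssc
      intro k
      filter_upwards [eventually_gt_atTop k.natAbs] with n hn
      simp only [Ip, Set.mem_setOf_eq]
      omega
    exact this.congr (Eventually.of_forall fun n => (pr_conj h n (Ip n)).symm)
  have hCt' : SSC (fun n : ℕ => sh M (-(n : ℤ)) * (P n * B' n * P n * (A' n * P n)) * sh M n)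
      (pr e {k | k < 0} * Z2' * pr e {k | k < 0} * (Z1' * pr e {k | k < 0})) := by
    have := ((hp.mul hZ2').mul hp).mul (hZ1'.mul hp)
    refine this.congr (Eventually.of_forall fun n => ?_)
    rw [conj_mul h, conj_mul h, conj_mul h, conj_mul h]
  obtain ⟨l, hl⟩ := nuc_det hFD e (fun n => A' n * P n) (fun n => P n * B' n) (LL M L) (RR M R) K C
    (hC1.mono fun n hn => hn.trans ((le_max_left _ _).trans (le_max_left _ _)))
    (hC2.mono fun n hn => hn.trans ((le_max_right _ _).trans (le_max_left _ _)))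
    (hC3.mono fun n hn i => (hn i).trans ((le_max_left _ _).trans (le_max_right _ _)))
    (hC4.mono fun n hn i => (hn i).trans ((le_max_right _ _).trans (le_max_right _ _)))
    hKf (fun i j p q => gram h hLS hRS hCt hCt' j i p q |> fun _ => gram h hLS hRS hCt hCt' i j p q)
  refine ⟨l, hl.congr' ?_⟩
  filter_upwards [u1, u2, h1, h2] with n hn1 hn2 hn3 hn4
  have hr := (ratio_eq e n hn1 hn2).2.2
  rw [hmul n, hr]
  congr 2
  -- the operator identity
  have e1 : M (ev g (v n)) * M x = κ n • M s := by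
    rw [← h.mul _ _ (ev_bm g (hv.bm n)) bx, ← h.smul _ _ bs]
    congr 1
    funext z
    exact hn3 z
  have e2 : (1 - M x) * M (ev g' (v' n)) = κ' n • M s' := by
    have hone : BM (fun _ : Tc => (1 : ℂ)) := BM_cont continuous_const
    have b1 : BM (fun z => 1 - x z) := by
      have := hone.add (bx.const_mul (-1))
      simpa [sub_eq_add_neg] using this
    rw [← h.one, ← h.sub hone bx, ← h.mul _ _ b1 (ev_bm g' (hv'.bm n)), ← h.smul _ _ bs']
    congr 1
    funext z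
    exact hn4 z
  have e3 := ends h n (a := ev g (v n)) (b := ev g' (v' n)) (x := x) (s := s) (s' := s')
    (ev_bm g (hv.bm n)) (ev_bm g' (hv'.bm n)) bx e1 e2
  have e4 := matn_one_of e n _ _ e3 (A' n) (B' n)
  symm
  have e5 : A' n * P n * (∑ i, LL M L i n * K i * RR M R i n) * (P n * B' n) =
      A' n * P n * (∑ i, LL M L i n * K i * RR M R i n) * P n * B' n := by
    simp only [mul_assoc]
  change matn e n (A' n * P n * (M (ev g (v n)) * (1 - P n) * M (ev g' (v' n))) * P n * B' n) =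
    matn e n (A' n * P n * (∑ i, LL M L i n * K i * RR M R i n) * (P n * B' n))
  rw [e5]
  exact congrArg _ e4

end

end Pool.Agent.K1H32.TD
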