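import Pool.Agent.K1H32.TD.Pr

/-! # strong convergence times compact is norm convergence -/

open Filter Topology MeasureTheory
open scoped InnerProductSpace

namespace Pool.Agent.K1H32.TD

set_option linter.unusedSectionVars false
set_option linter.deprecated false

section

variable {H : Type*} [NormedAddCommGroup H] [InnerProductSpace ℂ H] [CompleteSpace H]

theorem pr_finset (e : HilbertBasis ℤ ℂ H) (s : Finset ℤ) (x : H) :
    pr e (s : Set ℤ) x = ∑ k ∈ s, ⟪e k, x⟫_ℂ • e k := by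
  classical
  apply ext_coord e
  intro j
  rw [pr_coord, inner_sum]
  simp only [inner_smul_right, inner_e]
  split_ifs with hj
  · rw [Finset.sum_eq_single j]
    · simp
    · intro k _ hk
      rw [if_neg hk.symm, mul_zero]
    · intro h
      exact absurd hj (by simpa using h)
  · symm
    apply Finset.sum_eq_zero
    intro k hk
    rw [if_neg, mul_zero]
    rintro rfl
    exact hj (by simpa using hk)

theorem sc_mul_pr (e : HilbertBasis ℤ ℂ H) {X : ℕ → H →L[ℂ] H} {X0 : H →L[ℂ] H} (hX : SC X X0)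
    (s : Finset ℤ) : Tendsto (fun n => X n * pr e (s : Set ℤ)) atTop (𝓝 (X0 * pr e (s : Set ℤ))) := by
  rw [tendsto_iff_norm_sub_tendsto_zero]
  have hb : ∀ n, ‖X n * pr e (s : Set ℤ) - X0 * pr e (s : Set ℤ)‖ ≤
      ∑ k ∈ s, ‖X n (e k) - X0 (e k)‖ := by
    intro n
    refine ContinuousLinearMap.opNorm_le_bound _ (Finset.sum_nonneg fun _ _ => norm_nonneg _) ?_
    intro x
    have h1 : (X n * pr e (s : Set ℤ) - X0 * pr e (s : Set ℤ)) x =
        ∑ k ∈ s, ⟪e k, x⟫_ℂ • (X n (e k) - X0 (e k)) := by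
      rw [ContinuousLinearMap.sub_apply, ContinuousLinearMap.mul_apply,
        ContinuousLinearMap.mul_apply, pr_finset, map_sum, map_sum, ← Finset.sum_sub_distrib]
      apply Finset.sum_congr rfl
      intro k _
      rw [map_smul, map_smul, smul_sub]
    rw [h1, Finset.sum_mul]
    refine (norm_sum_le _ _).trans (Finset.sum_le_sum fun k _ => ?_)
    rw [norm_smul, mul_comm]
    apply mul_le_mul_of_nonneg_left _ (norm_nonneg _)
    have := norm_inner_le_norm (𝕜 := ℂ) (e k) x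
    rwa [norm_e, one_mul] at this
  apply squeeze_zero (fun _ => norm_nonneg _) hb
  have h2 : Tendsto (fun n => ∑ k ∈ s, ‖X n (e k) - X0 (e k)‖) atTop (𝓝 (∑ k ∈ s, 0)) := by
    apply tendsto_finset_sum
    intro k _
    exact (tendsto_iff_norm_sub_tendsto_zero).1 (hX.2 (e k))
  simpa using h2

theorem pr_mul_sc (e : HilbertBasis ℤ ℂ H) {Y : ℕ → H →L[ℂ] H} {Y0 : H →L[ℂ] H} (hY : SSC Y Y0)
    (s : Finset ℤ) : Tendsto (fun n => pr e (s : Set ℤ) * Y n) atTop (𝓝 (pr e (s : Set ℤ) * Y0)) := by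
  have h1 := sc_mul_pr e hY.2 s
  have h2 := (continuous_star.tendsto _).comp h1
  simp only [Function.comp_def, star_mul, star_star, pr_star] at h2
  exact h2

theorem cp_conv (e : HilbertBasis ℤ ℂ H) {X Y : ℕ → H →L[ℂ] H} {X0 Y0 K : H →L[ℂ] H}
    (hX : SC X X0) (hY : SSC Y Y0) (hK : Cp e K) :
    Tendsto (fun n => X n * K * Y n) atTop (𝓝 (X0 * K * Y0)) := by
  obtain ⟨C, hC⟩ := hX.1
  obtain ⟨C', hC'⟩ := hY.1.1
  rw [Metric.tendsto_nhds]
  intro ε hε
  set A : ℝ := |C| * |C'| + ‖X0‖ * ‖Y0‖ + 1 with hA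
  have hA0 : 0 < A := by positivity
  obtain ⟨s, F, hF, hKF⟩ := hK (ε / (2 * A)) (by positivity)
  have h1 : Tendsto (fun n => X n * F * Y n) atTop (𝓝 (X0 * F * Y0)) := by
    have h2 := ((sc_mul_pr e hX s).mul_const F).mul (pr_mul_sc e hY s)
    have h3 : ∀ S T : H →L[ℂ] H, S * pr e (s : Set ℤ) * F * (pr e (s : Set ℤ) * T) = S * F * T := by
      intro S T
      conv_rhs => rw [hF]
      simp only [mul_assoc]
    simpa only [h3] using h2
  have h4 := (Metric.tendsto_nhds.1 h1) (ε / 2) (by positivity)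
  filter_upwards [h4, hC, hC'] with n hn h5 h6
  rw [dist_eq_norm] at hn ⊢
  have h7 : X n * K * Y n - X0 * K * Y0 = X n * (K - F) * Y n + (X n * F * Y n - X0 * F * Y0)
      - X0 * (K - F) * Y0 := by
    simp only [mul_sub, sub_mul]
    abel
  rw [h7]
  have h8 : ‖X n * (K - F) * Y n‖ ≤ |C| * |C'| * (ε / (2 * A)) := by
    calc ‖X n * (K - F) * Y n‖ ≤ ‖X n‖ * ‖K - F‖ * ‖Y n‖ :=
          (norm_mul_le _ _).trans (mul_le_mul_of_nonneg_right (norm_mul_le _ _) (norm_nonneg _))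
      _ ≤ |C| * (ε / (2 * A)) * |C'| := by
          gcongr
          · exact h5.trans (le_abs_self C)
          · exact h6.trans (le_abs_self C')
      _ = _ := by ring
  have h9 : ‖X0 * (K - F) * Y0‖ ≤ ‖X0‖ * ‖Y0‖ * (ε / (2 * A)) := by
    calc ‖X0 * (K - F) * Y0‖ ≤ ‖X0‖ * ‖K - F‖ * ‖Y0‖ :=
          (norm_mul_le _ _).trans (mul_le_mul_of_nonneg_right (norm_mul_le _ _) (norm_nonneg _))
      _ ≤ ‖X0‖ * (ε / (2 * A)) * ‖Y0‖ := by gcongr
      _ = _ := by ring
  have h10 : (|C| * |C'| + ‖X0‖ * ‖Y0‖) * (ε / (2 * A)) < ε / 2 := by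
    have h11 : A * (ε / (2 * A)) = ε / 2 := by
      field_simp
    have h12 : 0 < ε / (2 * A) := by positivity
    nlinarith
  calc ‖X n * (K - F) * Y n + (X n * F * Y n - X0 * F * Y0) - X0 * (K - F) * Y0‖
      ≤ ‖X n * (K - F) * Y n‖ + ‖X n * F * Y n - X0 * F * Y0‖ + ‖X0 * (K - F) * Y0‖ :=
        (norm_sub_le _ _).trans (add_le_add (norm_add_le _ _) (le_refl _))
    _ < ε := by linarith

end

end Pool.Agent.K1H32.TD
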