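import Pool.Agent.K1H32.TD.Tri

/-! # exponentials of trigonometric polynomials -/

open Filter Topology MeasureTheory
open scoped InnerProductSpace

namespace Pool.Agent.K1H32.TD

set_option linter.unusedSectionVars false
set_option linter.deprecated false

section

variable {H : Type} [NormedAddCommGroup H] [InnerProductSpace ℂ H] [CompleteSpace H]
  {e : HilbertBasis ℤ ℂ H} {M : (Tc → ℂ) → (H →L[ℂ] H)}

/-- corners of continuous multiplication operators are compact -/
theorem corner_cont (h : MulSys e M) (f : C(Tc, ℂ)) {A B : Set ℤ}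
    (hAB : (A = {k | k < 0} ∧ B = {k | 0 ≤ k}) ∨ (A = {k | 0 ≤ k} ∧ B = {k | k < 0})) :
    Cp e (pr e A * M f * pr e B) := by
  classical
  intro ε hε
  obtain ⟨S, q, hq⟩ := trig_approx f hε
  -- a window that contains all |k| ≤ |l|, l ∈ S
  obtain ⟨s, hs⟩ : ∃ s : Finset ℤ, ∀ l ∈ S, ∀ k : ℤ, |k| ≤ |l| → k ∈ s := by
    refine ⟨S.biUnion fun l => Finset.Icc (-|l|) |l|, fun l hl k hk => ?_⟩
    rw [Finset.mem_biUnion]
    exact ⟨l, hl, Finset.mem_Icc.2 (abs_le.1 hk)⟩
  refine ⟨s, pr e A * M (fun x => ∑ l ∈ S, q l * fourier l x) * pr e B, ?_, ?_⟩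
  · rw [h.trig, Finset.mul_sum, Finset.sum_mul, Finset.mul_sum, Finset.sum_mul]
    apply Finset.sum_congr rfl
    intro l hl
    rw [mul_smul_comm, smul_mul_assoc, mul_smul_comm, smul_mul_assoc,
      corner_fourier h l s (hs l hl) hAB]
  · rw [← sub_mul, ← mul_sub, ← h.sub (BM_of_cont f) (BM_trig S q)]
    have h1 : ‖M (fun x => f x - ∑ l ∈ S, q l * fourier l x)‖ ≤ ε := by
      apply h.norm _ _ _ hq
      have := (BM_of_cont f).add ((BM_trig S q).const_mul (-1))
      simpa [sub_eq_add_neg] using this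
    calc _ ≤ ‖pr e A‖ * ‖M (fun x => f x - ∑ l ∈ S, q l * fourier l x)‖ * ‖pr e B‖ :=
          (norm_mul_le _ _).trans (mul_le_mul_of_nonneg_right (norm_mul_le _ _) (norm_nonneg _))
      _ ≤ 1 * ε * 1 := by
          gcongr
          · exact pr_norm e A
          · exact pr_norm e B
      _ = ε := by ring

/-- the ring homomorphism `f ↦ M f` on continuous functions -/
noncomputable def Mc (h : MulSys e M) : C(Tc, ℂ) →+* (H →L[ℂ] H) where
  toFun f := M f
  map_one' := h.one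
  map_mul' f g := h.mul f g (BM_of_cont f) (BM_of_cont g)
  map_zero' := h.zero
  map_add' f g := h.add f g (BM_of_cont f) (BM_of_cont g)

theorem Mc_cont (h : MulSys e M) : Continuous (Mc h) := by
  rw [Metric.continuous_iff]
  intro f ε hε
  refine ⟨ε, hε, fun g hg => ?_⟩
  rw [dist_eq_norm] at hg ⊢
  rw [← map_sub]
  refine lt_of_le_of_lt ?_ hg
  exact h.norm _ _ (BM_of_cont (g - f)) (g - f).norm_coe_le_norm

theorem exp_apply (f : C(Tc, ℂ)) (x : Tc) : (NormedSpace.exp f) x = Complex.exp (f x) := by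
  have h1 := NormedSpace.map_exp_of_mem_ball (𝕂 := ℂ)
    (f := ((Pi.evalRingHom (fun _ : Tc => ℂ) x).comp ContinuousMap.coeFnRingHom : C(Tc, ℂ) →+* ℂ))
    (continuous_eval_const x) f ((NormedSpace.expSeries_radius_eq_top ℂ C(Tc, ℂ)).symm ▸ edist_lt_top _ _)
  rw [Complex.exp_eq_exp_ℂ]
  exact h1

theorem M_exp (h : MulSys e M) (f : C(Tc, ℂ)) :
    M (fun x => Complex.exp (f x)) = NormedSpace.exp (M f) := by
  have h1 := NormedSpace.map_exp_of_mem_ball (𝕂 := ℂ) (f := Mc h) (Mc_cont h) f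
    ((NormedSpace.expSeries_radius_eq_top ℂ C(Tc, ℂ)).symm ▸ edist_lt_top _ _)
  have h2 : Mc h (NormedSpace.exp f) = M (fun x => Complex.exp (f x)) := by
    change M _ = _
    congr 1
    funext x
    exact exp_apply f x
  rw [← h2, h1]
  rfl

/-- triangularity passes to exponentials -/
theorem tri_exp (e : HilbertBasis ℤ ℂ H) (A : Set ℤ) (T : H →L[ℂ] H)
    (hT : pr e A * T * pr e Aᶜ = 0) : pr e A * NormedSpace.exp T * pr e Aᶜ = 0 := by
  have hn : ∀ n : ℕ, pr e A * T ^ n * pr e Aᶜ = 0 := by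
    intro n
    induction n with
    | zero => rw [pow_zero, mul_one]; exact pr_disj e disjoint_compl_right
    | succ n ih =>
      have h1 : pr e A * T ^ (n + 1) * pr e Aᶜ = pr e A * T * (pr e A + pr e Aᶜ) * T ^ n * pr e Aᶜ := by
        rw [pr_compl, mul_one, pow_succ']
        simp only [mul_assoc]
      rw [h1]
      have h2 : pr e A * T * (pr e A + pr e Aᶜ) * T ^ n * pr e Aᶜ =
          pr e A * T * (pr e A * T ^ n * pr e Aᶜ) + (pr e A * T * pr e Aᶜ) * T ^ n * pr e Aᶜ := by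
        simp only [mul_add, add_mul, mul_assoc]
      rw [h2, ih, hT]
      simp
  have h3 := NormedSpace.exp_series_hasSum_exp' (𝕂 := ℂ) T
  have h4 := (h3.mul_left (pr e A)).mul_right (pr e Aᶜ)
  have h5 : (fun n : ℕ => pr e A * (((n.factorial : ℂ)⁻¹) • T ^ n) * pr e Aᶜ) = fun _ => 0 := by
    funext n
    rw [mul_smul_comm, smul_mul_assoc, hn, smul_zero]
  rw [h5] at h4
  exact (h4.unique hasSum_zero)

theorem fourier_tri (h : MulSys e M) (l : ℤ) (A : Set ℤ) (hA : ∀ k, k ∉ A → l + k ∉ A) :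
    pr e A * M (fun x => fourier l x) * pr e Aᶜ = 0 := by
  apply op_ext e
  intro k
  simp only [ContinuousLinearMap.mul_apply, ContinuousLinearMap.zero_apply]
  by_cases hk : k ∈ A
  · rw [pr_out e (by simpa using hk)]
    simp only [map_zero]
  · rw [pr_in e hk, h.shift, pr_out e (hA k hk)]

theorem trig_tri (h : MulSys e M) (S : Finset ℤ) (q : ℤ → ℂ) (A : Set ℤ)
    (hA : ∀ l ∈ S, ∀ k, k ∉ A → l + k ∉ A) :
    pr e A * M (fun x => ∑ l ∈ S, q l * fourier l x) * pr e Aᶜ = 0 := by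
  rw [h.trig, Finset.mul_sum, Finset.sum_mul]
  apply Finset.sum_eq_zero
  intro l hl
  rw [mul_smul_comm, smul_mul_assoc, fourier_tri h l A (hA l hl), smul_zero]

/-- the trigonometric polynomial as a continuous function -/
noncomputable def tp (S : Finset ℤ) (q : ℤ → ℂ) : C(Tc, ℂ) :=
  ⟨fun x => ∑ l ∈ S, q l * fourier l x, by fun_prop⟩

theorem exp_trig_tri (h : MulSys e M) (S : Finset ℤ) (q : ℤ → ℂ) (A : Set ℤ)
    (hA : ∀ l ∈ S, ∀ k, k ∉ A → l + k ∉ A) :
    pr e A * M (fun x => Complex.exp (tp S q x)) * pr e Aᶜ = 0 := by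
  rw [M_exp h]
  exact tri_exp e A _ (trig_tri h S q A hA)

end

end Pool.Agent.K1H32.TD
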