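import Pool.Agent.K1H32.TD.Tri

/-! # shifts, *-strong convergence of multiplication operators -/

open Filter Topology MeasureTheory
open scoped InnerProductSpace

namespace Pool.Agent.K1H32.TD

set_option linter.unusedSectionVars false
set_option linter.unusedVariables false
set_option linter.deprecated false

section

variable {H : Type} [NormedAddCommGroup H] [InnerProductSpace ℂ H] [CompleteSpace H]
  {e : HilbertBasis ℤ ℂ H} {M : (Tc → ℂ) → (H →L[ℂ] H)}

theorem MulSys.ssc (h : MulSys e M) {f : ℕ → Tc → ℂ} {g : Tc → ℂ} (hf : ∀ n, BM (f n))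
    (hg : BM g) (C : ℝ) (hC : ∀ n x, ‖f n x‖ ≤ C)
    (hl : ∀ᵐ x ∂(AddCircle.haarAddCircle : Measure Tc), Tendsto (fun n => f n x) atTop (𝓝 (g x))) :
    SSC (fun n => M (f n)) (M g) := by
  refine ⟨⟨⟨C, Eventually.of_forall fun n => h.norm _ C (hf n) (hC n)⟩, h.lim f g hf hg C hC hl⟩, ?_⟩
  have h1 : ∀ n, star (M (f n)) = M (fun x => star (f n x)) := fun n => (h.adj _ (hf n)).symm
  have h2 : star (M g) = M (fun x => star (g x)) := (h.adj _ hg).symm
  simp only [h1, h2]
  have hC' : ∀ n x, ‖star (f n x)‖ ≤ C := fun n x => by rw [norm_star]; exact hC n x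
  refine ⟨⟨C, Eventually.of_forall fun n => h.norm _ C (hf n).star (hC' n)⟩, ?_⟩
  apply h.lim _ _ (fun n => (hf n).star) hg.star C hC'
  filter_upwards [hl] with x hx
  exact (continuous_star.tendsto _).comp hx

/-- the shift by `l` -/
noncomputable def sh (M : (Tc → ℂ) → (H →L[ℂ] H)) (l : ℤ) : H →L[ℂ] H := M (fun x => fourier l x)

theorem sh_e (h : MulSys e M) (l k : ℤ) : sh M l (e k) = e (l + k) := h.shift l k

theorem sh_mul (h : MulSys e M) (l k : ℤ) : sh M l * sh M k = sh M (l + k) := by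
  apply op_ext e
  intro j
  rw [ContinuousLinearMap.mul_apply, sh_e h, sh_e h, sh_e h, add_assoc]

theorem sh_zero (h : MulSys e M) : sh M 0 = 1 := by
  apply op_ext e
  intro j
  rw [sh_e h, zero_add]
  rfl

theorem sh_inv (h : MulSys e M) (l : ℤ) : sh M l * sh M (-l) = 1 := by
  rw [sh_mul h, add_neg_cancel, sh_zero h]

theorem sh_inv' (h : MulSys e M) (l : ℤ) : sh M (-l) * sh M l = 1 := by
  rw [sh_mul h, neg_add_cancel, sh_zero h]

theorem sh_star (h : MulSys e M) (l : ℤ) : star (sh M l) = sh M (-l) := by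
  unfold sh
  rw [← h.adj _ (BM_fourier l)]
  congr 1
  funext x
  rw [fourier_neg]
  rfl

theorem sh_norm (h : MulSys e M) (l : ℤ) : ‖sh M l‖ ≤ 1 := by
  apply h.norm _ 1 (BM_fourier l)
  intro x
  rw [fourier_apply]
  exact (Circle.norm_coe _).le

theorem sh_comm (h : MulSys e M) (l : ℤ) {f : Tc → ℂ} (hf : BM f) : sh M l * M f = M f * sh M l :=
  h.comm (BM_fourier l) hf

theorem sh_pr (h : MulSys e M) (l : ℤ) (s : Set ℤ) :
    sh M l * pr e s = pr e {k | k - l ∈ s} * sh M l := by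
  classical
  apply op_ext e
  intro k
  rw [ContinuousLinearMap.mul_apply, ContinuousLinearMap.mul_apply, sh_e h]
  by_cases hk : k ∈ s
  · rw [pr_in e hk, sh_e h, pr_in e]
    simpa using hk
  · rw [pr_out e hk, map_zero, pr_out e]
    simpa using hk

theorem pr_conj (h : MulSys e M) (l : ℤ) (s : Set ℤ) :
    sh M (-l) * pr e s * sh M l = pr e {k | k + l ∈ s} := by
  rw [sh_pr h, mul_assoc, sh_inv' h, mul_one]
  congr 1
  ext k
  simp

theorem conj_mul (h : MulSys e M) (l : ℤ) (A B : H →L[ℂ] H) :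
    sh M (-l) * (A * B) * sh M l = (sh M (-l) * A * sh M l) * (sh M (-l) * B * sh M l) := by
  calc sh M (-l) * (A * B) * sh M l = sh M (-l) * A * 1 * B * sh M l := by
        rw [mul_one]; simp only [mul_assoc]
    _ = _ := by rw [← sh_inv h l]; simp only [mul_assoc]

theorem norm_sh_apply (h : MulSys e M) (l : ℤ) (x : H) : ‖sh M l x‖ ≤ ‖x‖ := by
  calc ‖sh M l x‖ ≤ ‖sh M l‖ * ‖x‖ := (sh M l).le_opNorm x
    _ ≤ 1 * ‖x‖ := mul_le_mul_of_nonneg_right (sh_norm h l) (norm_nonneg _)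
    _ = ‖x‖ := one_mul _

/-- the powers of the shift tend to zero weakly -/
theorem weak_fixed (h : MulSys e M) (z w : H) :
    Tendsto (fun n : ℕ => ⟪z, sh M n w⟫_ℂ) atTop (𝓝 0) := by
  have h1 : ∀ n : ℕ, ‖⟪z, sh M n w⟫_ℂ‖ ≤ ‖pr e {k | (n : ℤ) / 2 ≤ k} z‖ * ‖w‖ +
      ‖z‖ * ‖pr e {k | k + (n : ℤ) < (n : ℤ) / 2} w‖ := by
    intro n
    have h2 : sh M n w = pr e {k | (n : ℤ) / 2 ≤ k} (sh M n w) +
        sh M n (pr e {k | k + (n : ℤ) < (n : ℤ) / 2} w) := by
      have h3 : sh M n * pr e {k | k + (n : ℤ) < (n : ℤ) / 2} =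
          pr e {k | (n : ℤ) / 2 ≤ k}ᶜ * sh M n := by
        rw [sh_pr h]
        congr 2
        ext k
        simp only [Set.mem_setOf_eq, Set.mem_compl_iff, not_le]
        rw [sub_add_cancel]
      have h4 : sh M n (pr e {k | k + (n : ℤ) < (n : ℤ) / 2} w) =
          pr e {k | (n : ℤ) / 2 ≤ k}ᶜ (sh M n w) := by
        have := congrArg (fun T : H →L[ℂ] H => T w) h3
        simpa [ContinuousLinearMap.mul_apply] using this
      rw [h4, ← ContinuousLinearMap.add_apply, pr_compl]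
      rfl
    rw [h2, inner_add_right, pr_inner]
    refine (norm_add_le _ _).trans (add_le_add ?_ ?_)
    · exact (norm_inner_le_norm _ _).trans
        (mul_le_mul_of_nonneg_left (norm_sh_apply h n w) (norm_nonneg _))
    · exact (norm_inner_le_norm _ _).trans
        (mul_le_mul_of_nonneg_left (norm_sh_apply h n _) (norm_nonneg _))
  have h2 : SSC (fun n : ℕ => pr e {k | (n : ℤ) / 2 ≤ k}) (pr e (∅ : Set ℤ)) := by
    apply pr_ssc
    intro k
    filter_upwards [eventually_gt_atTop (2 * k.natAbs + 2)] with n hn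
    simp only [Set.mem_setOf_eq, Set.mem_empty_iff_false, iff_false, not_le]
    omega
  have h3 : SSC (fun n : ℕ => pr e {k | k + (n : ℤ) < (n : ℤ) / 2}) (pr e (∅ : Set ℤ)) := by
    apply pr_ssc
    intro k
    filter_upwards [eventually_gt_atTop (2 * k.natAbs + 2)] with n hn
    simp only [Set.mem_setOf_eq, Set.mem_empty_iff_false, iff_false, not_lt]
    omega
  apply squeeze_zero_norm h1
  have h4 := ((h2.1.2 z).norm.mul_const ‖w‖).add ((h3.1.2 w).norm.const_mul ‖z‖)
  simpa [pr_empty] using h4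

theorem weak_conv (h : MulSys e M) {z w : ℕ → H} {z0 w0 : H} (hz : Tendsto z atTop (𝓝 z0))
    (hw : Tendsto w atTop (𝓝 w0)) : Tendsto (fun n : ℕ => ⟪z n, sh M n (w n)⟫_ℂ) atTop (𝓝 0) := by
  have h1 : ∀ n : ℕ, ⟪z n, sh M n (w n)⟫_ℂ =
      ⟪z0, sh M n w0⟫_ℂ + (⟪z n - z0, sh M n (w n)⟫_ℂ + ⟪z0, sh M n (w n - w0)⟫_ℂ) := by
    intro n
    rw [inner_sub_left, map_sub, inner_sub_right]
    ring
  have h2 : Tendsto (fun n : ℕ => ⟪z n - z0, sh M n (w n)⟫_ℂ) atTop (𝓝 0) := by
    apply squeeze_zero_norm (a := fun n => ‖z n - z0‖ * ‖w n‖)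
    · intro n
      exact (norm_inner_le_norm _ _).trans
        (mul_le_mul_of_nonneg_left (norm_sh_apply h n _) (norm_nonneg _))
    · have h3 := (hz.sub_const z0).norm.mul hw.norm
      simpa using h3
  have h3 : Tendsto (fun n : ℕ => ⟪z0, sh M n (w n - w0)⟫_ℂ) atTop (𝓝 0) := by
    apply squeeze_zero_norm (a := fun n => ‖z0‖ * ‖w n - w0‖)
    · intro n
      exact (norm_inner_le_norm _ _).trans
        (mul_le_mul_of_nonneg_left (norm_sh_apply h n _) (norm_nonneg _))
    · have h4 := (hw.sub_const w0).norm.const_mul ‖z0‖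
      simpa using h4
  simp only [h1]
  simpa using (weak_fixed h z0 w0).add (h2.add h3)

end

end Pool.Agent.K1H32.TD
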