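import Pool.Agent.K1H32.TD.Stab
import Pool.Agent.K1H32.TD.Exp
import Pool.Agent.K1H32.TD.Shift

/-! # stability for the symbols `exp(g) v_n` -/

open Filter Topology MeasureTheory
open scoped InnerProductSpace

namespace Pool.Agent.K1H32.TD

set_option linter.unusedSectionVars false
set_option linter.unusedVariables false
set_option linter.deprecated false

/-- a convergent family of small perturbations of `1` -/
structure Fam (v : ℕ → Tc → ℂ) (v0 : Tc → ℂ) : Prop where
  meas : ∀ n, Measurable (v n)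
  meas0 : Measurable v0
  log : ∀ n x, ∃ ω : ℂ, v n x = Complex.exp ω ∧ ‖ω‖ ≤ Real.pi / 5
  log0 : ∀ x, ∃ ω : ℂ, v0 x = Complex.exp ω ∧ ‖ω‖ ≤ Real.pi / 5
  lim : ∀ᵐ x ∂(AddCircle.haarAddCircle : Measure Tc), Tendsto (fun n => v n x) atTop (𝓝 (v0 x))

theorem Fam.bd {v : ℕ → Tc → ℂ} {v0 : Tc → ℂ} (h : Fam v v0) (n : ℕ) (x : Tc) : ‖v n x‖ ≤ 2 := by
  obtain ⟨ω, h1, h2⟩ := h.log n x
  rw [h1]
  refine (Complex.norm_exp_le_exp_norm ω).trans ?_
  have h3 : ‖ω‖ ≤ Real.log 2 := by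
    have := Real.pi_lt_d2
    have := Real.log_two_gt_d9
    linarith
  calc Real.exp ‖ω‖ ≤ Real.exp (Real.log 2) := Real.exp_le_exp.2 h3
    _ = 2 := Real.exp_log two_pos

theorem Fam.bd0 {v : ℕ → Tc → ℂ} {v0 : Tc → ℂ} (h : Fam v v0) (x : Tc) : ‖v0 x‖ ≤ 2 := by
  obtain ⟨ω, h1, h2⟩ := h.log0 x
  rw [h1]
  refine (Complex.norm_exp_le_exp_norm ω).trans ?_
  have h3 : ‖ω‖ ≤ Real.log 2 := by
    have := Real.pi_lt_d2
    have := Real.log_two_gt_d9
    linarith
  calc Real.exp ‖ω‖ ≤ Real.exp (Real.log 2) := Real.exp_le_exp.2 h3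
    _ = 2 := Real.exp_log two_pos

theorem Fam.bm {v : ℕ → Tc → ℂ} {v0 : Tc → ℂ} (h : Fam v v0) (n : ℕ) : BM (v n) :=
  ⟨h.meas n, 2, h.bd n⟩

theorem Fam.bm0 {v : ℕ → Tc → ℂ} {v0 : Tc → ℂ} (h : Fam v v0) : BM v0 := ⟨h.meas0, 2, h.bd0⟩

/-- `δ = exp(0.68) - 1 < 1` -/
noncomputable def del : ℝ := Real.exp (68 / 100) - 1

theorem del_lt : del < 1 := by
  have h1 : Real.exp (68 / 100) < Real.exp (Real.log 2) := by
    apply Real.exp_lt_exp.2
    have := Real.log_two_gt_d9
    linarith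
  rw [Real.exp_log two_pos] at h1
  unfold del
  linarith

theorem exp_sub_one_le {z : ℂ} (h : ‖z‖ ≤ 68 / 100) : ‖Complex.exp z - 1‖ ≤ del := by
  have h1 : ‖Complex.exp z - 1‖ ≤ Real.exp ‖z‖ - 1 := by
    have := Complex.norm_exp_sub_sum_le_exp_norm_sub_sum z 1
    simpa using this
  refine h1.trans ?_
  unfold del
  have := Real.exp_le_exp.2 h
  linarith

section

variable {H : Type} [NormedAddCommGroup H] [InnerProductSpace ℂ H] [CompleteSpace H]
  {e : HilbertBasis ℤ ℂ H} {M : (Tc → ℂ) → (H →L[ℂ] H)}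

theorem exp_tp_inv (h : MulSys e M) (S : Finset ℤ) (q : ℤ → ℂ) :
    M (fun x => Complex.exp (tp S q x)) * M (fun x => Complex.exp (tp S (fun l => - q l) x)) = 1 := by
  have b1 : BM (fun x => Complex.exp (tp S q x)) := BM_cont (by fun_prop)
  have b2 : BM (fun x => Complex.exp (tp S (fun l => - q l) x)) := BM_cont (by fun_prop)
  rw [← h.mul _ _ b1 b2, ← h.one]
  congr 1
  funext x
  rw [← Complex.exp_add]
  have : tp S q x + tp S (fun l => - q l) x = 0 := by
    simp only [tp, ContinuousMap.coe_mk]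
    rw [← Finset.sum_add_distrib]
    apply Finset.sum_eq_zero
    intro l _
    ring
  rw [this, Complex.exp_zero]

theorem fam_tri (h : MulSys e M) (Sp Sm : Finset ℤ) (q : ℤ → ℂ) (hp : ∀ l ∈ Sp, 0 ≤ l)
    (hm : ∀ l ∈ Sm, l < 0) :
    Tri e (M (fun x => Complex.exp (tp Sp q x))) (M (fun x => Complex.exp (tp Sp (fun l => - q l) x)))
      (M (fun x => Complex.exp (tp Sm q x)))
      (M (fun x => Complex.exp (tp Sm (fun l => - q l) x))) := by
  have bc : ∀ S : Finset ℤ, ∀ q : ℤ → ℂ, BM (fun x => Complex.exp (tp S q x)) :=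
    fun S q => BM_cont (by fun_prop)
  have hneg : ∀ S : Finset ℤ, M (fun x => Complex.exp (tp S (fun l => - q l) x)) *
      M (fun x => Complex.exp (tp S q x)) = 1 := by
    intro S
    rw [h.comm (bc _ _) (bc _ _)]
    exact exp_tp_inv h S q
  refine ⟨exp_tp_inv h Sp q, hneg Sp, exp_tp_inv h Sm q, hneg Sm, h.comm (bc _ _) (bc _ _),
    ?_, ?_, ?_, ?_, ?_, ?_⟩
  · intro k
    apply exp_trig_tri h
    intro l hl j hj
    have := hp l hl
    simp only [Set.mem_setOf_eq] at hj ⊢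
    omega
  · intro k
    apply exp_trig_tri h
    intro l hl j hj
    have := hp l hl
    simp only [Set.mem_setOf_eq] at hj ⊢
    omega
  · intro k
    apply exp_trig_tri h
    intro l hl j hj
    have := hm l hl
    simp only [Set.mem_setOf_eq] at hj ⊢
    omega
  · intro k
    apply exp_trig_tri h
    intro l hl j hj
    have := hm l hl
    simp only [Set.mem_setOf_eq] at hj ⊢
    omega
  · exact corner_cont h ⟨fun x => Complex.exp (tp Sm (fun l => - q l) x), by fun_prop⟩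
      (Or.inl ⟨rfl, rfl⟩)
  · exact corner_cont h ⟨fun x => Complex.exp (tp Sp (fun l => - q l) x), by fun_prop⟩
      (Or.inr ⟨rfl, rfl⟩)

/-- stability of the finite sections of `exp(g) v_n` -/
theorem fam_stab (hINV : S_INV) (h : MulSys e M) (g : C(Tc, ℂ)) {v : ℕ → Tc → ℂ} {v0 : Tc → ℂ}
    (hv : Fam v v0) :
    ∃ C : ℝ, ∀ᶠ n in atTop,
      IsUnit (pr e (Ip n) * M (fun x => Complex.exp (g x) * v n x) * pr e (Ip n) +
        (1 - pr e (Ip n))) ∧
      ‖Ring.inverse (pr e (Ip n) * M (fun x => Complex.exp (g x) * v n x) * pr e (Ip n) +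
        (1 - pr e (Ip n)))‖ ≤ C := by
  classical
  obtain ⟨S, q, hq⟩ := trig_approx g (show (0 : ℝ) < 1 / 20 by norm_num)
  set Sp := S.filter (fun l => 0 ≤ l) with hSp
  set Sm := S.filter (fun l => ¬ 0 ≤ l) with hSm
  have hsplit : ∀ x, ∑ l ∈ S, q l * fourier l x = tp Sp q x + tp Sm q x := by
    intro x
    simp only [tp, ContinuousMap.coe_mk]
    rw [hSp, hSm, Finset.sum_filter_add_sum_filter_not]
  set r : C(Tc, ℂ) := g - (tp Sp q + tp Sm q) with hr
  have hrx : ∀ x, ‖r x‖ ≤ 1 / 20 := by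
    intro x
    have := hq x
    rw [hsplit] at this
    exact this
  have hT := fam_tri h Sp Sm q (fun l hl => (Finset.mem_filter.1 hl).2)
    (fun l hl => not_le.1 (Finset.mem_filter.1 hl).2)
  have bc : ∀ S : Finset ℤ, ∀ q : ℤ → ℂ, BM (fun x => Complex.exp (tp S q x)) :=
    fun S q => BM_cont (by fun_prop)
  have br : BM (fun x => Complex.exp (r x)) := BM_cont (by fun_prop)
  have bw : ∀ n, BM (fun x => Complex.exp (r x) * v n x) := fun n => br.mul (hv.bm n)
  have bw0 : BM (fun x => Complex.exp (r x) * v0 x) := br.mul hv.bm0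
  have hlog : ∀ (x : Tc) (y : ℂ), (∃ ω : ℂ, y = Complex.exp ω ∧ ‖ω‖ ≤ Real.pi / 5) →
      ‖Complex.exp (r x) * y - 1‖ ≤ del := by
    rintro x y ⟨ω, rfl, hω⟩
    rw [← Complex.exp_add]
    apply exp_sub_one_le
    have := hrx x
    have := Real.pi_lt_d2
    calc ‖r x + ω‖ ≤ ‖r x‖ + ‖ω‖ := norm_add_le _ _
      _ ≤ 68 / 100 := by linarith
  have hone : BM (fun _ : Tc => (1 : ℂ)) := BM_cont continuous_const
  have hd : ∀ f : Tc → ℂ, BM f → (∀ x, ‖f x - 1‖ ≤ del) → ‖M f - 1‖ ≤ del := by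
    intro f hf hf1
    rw [← h.one, ← h.sub hf hone]
    apply h.norm _ _ _ hf1
    have := hf.add (hone.const_mul (-1))
    simpa [sub_eq_add_neg] using this
  have hdel0 : 0 ≤ del := by
    have := hlog 0 _ (hv.log0 0)
    exact (norm_nonneg _).trans this
  -- *-strong convergence
  have hw : SSC (fun n => M (fun x => Complex.exp (r x) * v n x))
      (M (fun x => Complex.exp (r x) * v0 x)) := by
    apply h.ssc bw bw0 (del + 1)
    · intro n x
      have h1 := hlog x _ (hv.log n x)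
      calc ‖Complex.exp (r x) * v n x‖ = ‖(Complex.exp (r x) * v n x - 1) + 1‖ := by
            rw [sub_add_cancel]
        _ ≤ ‖Complex.exp (r x) * v n x - 1‖ + ‖(1 : ℂ)‖ := norm_add_le _ _
        _ ≤ del + 1 := by rw [norm_one]; linarith
    · filter_upwards [hv.lim] with x hx
      exact hx.const_mul _
  obtain ⟨C, hC⟩ := stab hINV e hT (w := fun n => M (fun x => Complex.exp (r x) * v n x))
    (w0 := M (fun x => Complex.exp (r x) * v0 x)) del_lt
    (h.comm (bc _ _) bw0) (fun n => h.comm (bw n) (bc _ _)) (h.comm bw0 (bc _ _))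
    (h.comm bw0 (bc _ _)) hw (fun n => hd _ (bw n) fun x => hlog x _ (hv.log n x))
    (hd _ bw0 fun x => hlog x _ (hv.log0 x))
  have hprod : ∀ n, M (fun x => Complex.exp (tp Sp q x)) * M (fun x => Complex.exp (tp Sm q x)) *
      M (fun x => Complex.exp (r x) * v n x) = M (fun x => Complex.exp (g x) * v n x) := by
    intro n
    rw [← h.mul _ _ (bc _ _) (bc _ _), ← h.mul _ _ ((bc _ _).mul (bc _ _)) (bw n)]
    congr 1
    funext x
    rw [← mul_assoc, ← Complex.exp_add, ← Complex.exp_add]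
    congr 2
    rw [hr]
    simp only [ContinuousMap.sub_apply, ContinuousMap.add_apply]
    ring
  refine ⟨C, ?_⟩
  filter_upwards [hC] with n hn
  rw [hprod n] at hn
  exact hn

end

end Pool.Agent.K1H32.TD
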