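import Pool.Agent.K1H32.TD.Lift

/-! # the two-cluster localisation for Toeplitz determinants -/

open Filter Topology MeasureTheory
open scoped InnerProductSpace

namespace Pool.Agent.K1H32.TD

set_option linter.unusedSectionVars false
set_option linter.unusedVariables false
set_option linter.deprecated false

/-- the Toeplitz determinant is the determinant of a finite section -/
theorem D_eq {H : Type} [NormedAddCommGroup H] [InnerProductSpace ℂ H] [CompleteSpace H]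
    {e : HilbertBasis ℤ ℂ H} {M : (Tc → ℂ) → (H →L[ℂ] H)} (h : MulSys e M) (n : ℕ) (a : ℂ → ℂ)
    {f : Tc → ℂ} (hf : BM f) (hfa : ∀ θ, a (tc θ) = f θ) :
    D n a = Matrix.det (matn e n (M f)) := by
  unfold D
  congr 1
  ext j k
  have h1 : f = fun θ => a (tc θ) := by
    funext θ
    exact (hfa θ).symm
  unfold matn
  rw [h.entry f hf, h1, fc_lift]

theorem two_clusters (R S : ℕ) (β : Fin R → ℂ) (β' : Fin S → ℂ) (hβ : ∑ r, ‖β r‖ ≤ 1 / 5)
    (hβ' : ∑ s, ‖β' s‖ ≤ 1 / 5) (b b' : ℂ → ℂ) (hb : SmoothWZ b) (hb' : SmoothWZ b')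
    (t₀ t₀' : ℂ) (h₀ : ‖t₀‖ = 1) (h₀' : ‖t₀'‖ = 1) (hne : t₀ ≠ t₀')
    (t : ℕ → Fin R → ℂ) (t' : ℕ → Fin S → ℂ) (ht : ∀ n r, ‖t n r‖ = 1) (ht' : ∀ n s, ‖t' n s‖ = 1)
    (hl : ∀ r, Tendsto (fun n => t n r) atTop (𝓝 t₀))
    (hl' : ∀ s, Tendsto (fun n => t' n s) atTop (𝓝 t₀')) :
    (∀ᶠ n in atTop, D n (sym b β (t n)) ≠ 0 ∧ D n (sym b' β' (t' n)) ≠ 0) ∧
    ∃ L : ℂ, Tendsto (fun n => D n (fun z => sym b β (t n) z * sym b' β' (t' n) z) /
      (D n (sym b β (t n)) * D n (sym b' β' (t' n)))) atTop (𝓝 L) := by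
  obtain ⟨M, hM⟩ := K1H85.TD.t_mul
  obtain ⟨g, hg⟩ := log_lift b hb
  obtain ⟨g', hg'⟩ := log_lift b' hb'
  have hF := fam_lift β hβ ht h₀ hl
  have hF' := fam_lift β' hβ' ht' h₀' hl'
  obtain ⟨c1, c2, c3, c4⟩ := K1H9.TD.t_chi t₀ t₀' h₀ h₀' hne
  have hd : 0 < ‖t₀' - t₀‖ / 4 := by
    have : 0 < ‖t₀' - t₀‖ := norm_pos_iff.2 (sub_ne_zero.2 (Ne.symm hne))
    positivity
  -- the smooth symbols
  have sb : ContDiff ℝ (⊤ : ℕ∞) (fun x : ℝ => chi t₀ t₀' (ex x) * b (ex x) *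
      ∏ r, u (β r) t₀ (ex x)) := by
    apply K1H9.TD.t_smo R β t₀ (fun x => chi t₀ t₀' (ex x) * b (ex x)) _ h₀ hd
    · exact c1.mul hb.smooth
    · intro x hx
      rw [c3 _ hx, zero_mul]
  have sb' : ContDiff ℝ (⊤ : ℕ∞) (fun x : ℝ => (1 - chi t₀ t₀' (ex x)) * b' (ex x) *
      ∏ s, u (β' s) t₀' (ex x)) := by
    apply K1H9.TD.t_smo S β' t₀' (fun x => (1 - chi t₀ t₀' (ex x)) * b' (ex x)) _ h₀' hd
    · exact (contDiff_const.sub c1).mul hb'.smooth
    · intro x hx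
      rw [c4 _ hx, sub_self, zero_mul]
  have bx : BM (fun θ : Tc => chi t₀ t₀' (tc θ)) :=
    BM_cont (lift_cont (fun z => chi t₀ t₀' z) c1.continuous)
  have bs : BM (fun θ : Tc => chi t₀ t₀' (tc θ) * b (tc θ) * ∏ r, u (β r) t₀ (tc θ)) :=
    BM_cont (lift_cont (fun z => chi t₀ t₀' z * b z * ∏ r, u (β r) t₀ z) sb.continuous)
  have bs' : BM (fun θ : Tc => (1 - chi t₀ t₀' (tc θ)) * b' (tc θ) * ∏ s, u (β' s) t₀' (tc θ)) :=
    BM_cont (lift_cont (fun z => (1 - chi t₀ t₀' z) * b' z * ∏ s, u (β' s) t₀' z) sb'.continuous)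
  have e1 := kap_eq β ht h₀ hl hd
  have e1' := kap_eq β' ht' h₀' hl' hd
  obtain ⟨k1, k2⟩ := loc K1H16.TD.t_INV K1H31.TD.t_FD hM g g' hF hF' bx bs bs'
    (dec_lift (fun z => chi t₀ t₀' z) c1)
    (dec_lift (fun z => chi t₀ t₀' z * b z * ∏ r, u (β r) t₀ z) sb)
    (dec_lift (fun z => (1 - chi t₀ t₀' z) * b' z * ∏ s, u (β' s) t₀' z) sb')
    (kap β h₀ hl) (kap β' h₀' hl')
    (by
      filter_upwards [e1] with n hn θ
      unfold ev
      by_cases hχ : chi t₀ t₀' (tc θ) = 0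
      · rw [hχ]; ring
      · have h1 : ‖t₀' - t₀‖ / 4 < ‖tc θ - t₀‖ := by
          by_contra hcon
          exact hχ (c3 _ (not_lt.1 hcon))
        beta_reduce
        rw [hn θ h1, ← hg θ]
        ring)
    (by
      filter_upwards [e1'] with n hn θ
      unfold ev
      by_cases hχ : chi t₀ t₀' (tc θ) = 1
      · rw [hχ]; ring
      · have h1 : ‖t₀' - t₀‖ / 4 < ‖tc θ - t₀'‖ := by
          by_contra hcon
          exact hχ (c4 _ (not_lt.1 hcon))
        beta_reduce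
        rw [hn θ h1, ← hg' θ]
        ring)
  have d1 : ∀ n, D n (sym b β (t n)) =
      Matrix.det (matn (fourierBasis (T := 2 * Real.pi)) n (M (ev g (fun θ => ∏ r, u (β r) (t n r) (tc θ))))) := by
    intro n
    apply D_eq hM n _ (ev_bm g (hF.bm n))
    intro θ
    unfold sym ev
    rw [hg θ]
  have d2 : ∀ n, D n (sym b' β' (t' n)) =
      Matrix.det (matn (fourierBasis (T := 2 * Real.pi)) n (M (ev g' (fun θ => ∏ s, u (β' s) (t' n s) (tc θ))))) := by
    intro n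
    apply D_eq hM n _ (ev_bm g' (hF'.bm n))
    intro θ
    unfold sym ev
    rw [hg' θ]
  have d3 : ∀ n, D n (fun z => sym b β (t n) z * sym b' β' (t' n) z) =
      Matrix.det (matn (fourierBasis (T := 2 * Real.pi)) n (M (fun θ => ev g (fun θ => ∏ r, u (β r) (t n r) (tc θ)) θ *
        ev g' (fun θ => ∏ s, u (β' s) (t' n s) (tc θ)) θ))) := by
    intro n
    apply D_eq hM n _ ((ev_bm g (hF.bm n)).mul (ev_bm g' (hF'.bm n)))
    intro θ
    unfold sym ev
    rw [hg θ, hg' θ]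
  constructor
  · filter_upwards [k1] with n hn
    rw [d1, d2]
    exact hn
  · obtain ⟨l, hl⟩ := k2
    refine ⟨l, ?_⟩
    simp only [d1, d2, d3]
    exact hl

/-- many tiny jumps at one point may add up to the symbol `-z`, whose determinants vanish -/
theorem many_tiny (ε : ℝ) (hε : 0 < ε) :
    ∃ (R : ℕ) (β : Fin R → ℂ), (∀ r, ‖β r‖ < ε) ∧
      ∀ n : ℕ, 1 ≤ n → D n (sym (fun _ => 1) β (fun _ => 1)) = 0 := by
  obtain ⟨m, hm⟩ := exists_nat_one_div_lt hε
  refine ⟨m + 1, fun _ => ((m + 1 : ℕ) : ℂ)⁻¹, ?_, ?_⟩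
  · intro r
    rw [norm_inv, Complex.norm_natCast]
    rw [one_div] at hm
    push_cast
    exact hm
  · intro n hn
    have hs : sym (fun _ => 1) (fun _ : Fin (m + 1) => ((m + 1 : ℕ) : ℂ)⁻¹) (fun _ => 1) =
        fun z => -z := by
      funext z
      unfold sym u
      rw [one_mul, Finset.prod_const, Finset.card_univ, Fintype.card_fin, div_one,
        Complex.cpow_nat_inv_pow _ (Nat.succ_ne_zero m)]
    rw [hs]
    have hfc : ∀ k : ℤ, k ≤ 0 → fc (fun z => -z) k = 0 := by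
      intro k hk
      unfold fc
      have h1 : (∫ x in (0 : ℝ)..(2 * Real.pi), -ex x * Complex.exp (-(k * x * Complex.I))) = 0 := by
        have h2 : ∀ x : ℝ, -ex x * Complex.exp (-(k * x * Complex.I)) =
            -Complex.exp (((1 - k : ℂ) * Complex.I) * x) := by
          intro x
          unfold ex
          rw [neg_mul, ← Complex.exp_add]
          congr 2
          ring
        simp only [h2]
        have hc : ((1 - k : ℂ) * Complex.I) ≠ 0 := by
          apply mul_ne_zero _ Complex.I_ne_zero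
          have : (1 - k : ℤ) ≠ 0 := by omega
          exact_mod_cast this
        rw [intervalIntegral.integral_neg, integral_exp_mul_complex hc]
        have h3 : Complex.exp ((1 - (k : ℂ)) * Complex.I * ((2 * Real.pi : ℝ) : ℂ)) = 1 := by
          rw [Complex.exp_eq_one_iff]
          refine ⟨1 - k, ?_⟩
          push_cast
          ring
        rw [h3]
        simp
      rw [h1, mul_zero]
    unfold D
    apply Matrix.det_eq_zero_of_row_eq_zero (⟨0, hn⟩ : Fin n)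
    intro k
    apply hfc
    simp

end Pool.Agent.K1H32.TD
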