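import Mathlib

/-!
# Toeplitz determinants with two merging clusters of jumps: definitions and interface

`fc`, `D`, `u`, `sym`, `SmoothWZ` are the notions of the problem.  The rest is the interface
between the parts of the proof (Hilbert space operators, expansion of determinants, Fourier
decay, cut-offs).
-/

open Filter Topology MeasureTheory
open scoped InnerProductSpace

namespace Pool.Agent.K1H32.TD

/-! ### the notions of the problem -/

/-- the point `e^{ix}` of the unit circle -/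
noncomputable def ex (x : ℝ) : ℂ := Complex.exp (x * Complex.I)

/-- the `k`-th Fourier coefficient of a function `a` on the unit circle -/
noncomputable def fc (a : ℂ → ℂ) (k : ℤ) : ℂ :=
  (1 / (2 * Real.pi : ℝ) : ℝ) * ∫ x in (0 : ℝ)..(2 * Real.pi), a (ex x) * Complex.exp (-(k * x * Complex.I))

/-- the `n × n` Toeplitz determinant of the symbol `a` -/
noncomputable def D (n : ℕ) (a : ℂ → ℂ) : ℂ :=
  Matrix.det (fun j k : Fin n => fc a ((j : ℤ) - (k : ℤ)))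

/-- the pure jump `u_{β,t}(z) = (-z/t)^β`, principal branch -/
noncomputable def u (β t z : ℂ) : ℂ := (-z / t) ^ β

/-- the symbol `b ∏ u_{β_r,t_r}` -/
noncomputable def sym {R : ℕ} (b : ℂ → ℂ) (β t : Fin R → ℂ) (z : ℂ) : ℂ :=
  b z * ∏ r, u (β r) (t r) z

/-- `b` is smooth and nonvanishing on the unit circle, with winding number
`(1/2πi) ∫ B'/B = 0`, where `B(x) = b(e^{ix})` -/
structure SmoothWZ (b : ℂ → ℂ) : Prop where
  smooth : ContDiff ℝ (⊤ : ℕ∞) (fun x : ℝ => b (ex x))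
  nonzero : ∀ z : ℂ, ‖z‖ = 1 → b z ≠ 0
  winding : ∫ x in (0 : ℝ)..(2 * Real.pi), deriv (fun y : ℝ => b (ex y)) x / b (ex x) = 0

/-! ### elementary pieces on the circle -/

/-- a smooth nonvanishing function of winding number zero has a continuous periodic logarithm -/
def S_WIND : Prop := ∀ b : ℂ → ℂ, SmoothWZ b →
  ∃ h : ℝ → ℂ, Continuous h ∧ (∀ x, h (x + 2 * Real.pi) = h x) ∧
    ∀ x, b (ex x) = Complex.exp (h x)

/-- Fourier coefficients of smooth periodic functions decay fast -/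
def S_DEC : Prop := ∀ s : ℝ → ℂ, ContDiff ℝ (⊤ : ℕ∞) s →
  (∀ x, s (x + 2 * Real.pi) = s x) →
  ∃ C : ℝ, ∀ k : ℤ, ‖∫ x in (0 : ℝ)..(2 * Real.pi), s x * Complex.exp (-(k * x * Complex.I))‖
    ≤ C / (1 + |(k : ℝ)|) ^ 8

/-- away from `t₀`, a jump at `t` near `t₀` is a constant multiple of the jump at `t₀` -/
def S_ULOG : Prop := ∀ β t t₀ z : ℂ, ‖t‖ = 1 → ‖t₀‖ = 1 → ‖z‖ = 1 → ‖t - t₀‖ < ‖z - t₀‖ →
  u β t z = (t₀ / t) ^ β * u β t₀ z

/-- a product of pure jumps is the exponential of something small -/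
def S_UBD : Prop := ∀ (R : ℕ) (β t : Fin R → ℂ) (z : ℂ), (∀ r, ‖t r‖ = 1) → ‖z‖ = 1 →
  ∃ w : ℂ, ∏ r, u (β r) (t r) z = Complex.exp w ∧ ‖w‖ ≤ Real.pi * ∑ r, ‖β r‖

/-- the cut-off: `0` near `t₀`, `1` near `t₁` -/
noncomputable def chi (t₀ t₁ z : ℂ) : ℂ :=
  ((Real.smoothTransition (16 * Complex.normSq (z - t₀) / Complex.normSq (t₁ - t₀) - 1) : ℝ) : ℂ)

/-- properties of the cut-off -/
def S_CHI : Prop := ∀ t₀ t₁ : ℂ, ‖t₀‖ = 1 → ‖t₁‖ = 1 → t₀ ≠ t₁ →
  ContDiff ℝ (⊤ : ℕ∞) (fun x : ℝ => chi t₀ t₁ (ex x)) ∧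
  (∀ z, ‖chi t₀ t₁ z‖ ≤ 1 ∧ ‖1 - chi t₀ t₁ z‖ ≤ 1) ∧
  (∀ z, ‖z - t₀‖ ≤ ‖t₁ - t₀‖ / 4 → chi t₀ t₁ z = 0) ∧
  (∀ z, ‖z - t₁‖ ≤ ‖t₁ - t₀‖ / 4 → chi t₀ t₁ z = 1)

/-- products of jumps at `t₀` times a smooth function that vanishes near `t₀` are smooth -/
def S_SMO : Prop := ∀ (R : ℕ) (β : Fin R → ℂ) (t₀ : ℂ) (g : ℝ → ℂ) (δ : ℝ), ‖t₀‖ = 1 → 0 < δ →
  ContDiff ℝ (⊤ : ℕ∞) g → (∀ x : ℝ, ‖ex x - t₀‖ ≤ δ → g x = 0) →
  ContDiff ℝ (⊤ : ℕ∞) (fun x : ℝ => g x * ∏ r, u (β r) t₀ (ex x))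

/-! ### expansion of determinants -/

/-- convergence of `det (1 + M_n)` when `M_n = ∑_α c_α x_α ⊗ y_α` with rapidly decreasing
coefficients and convergent bounded Gram entries -/
def S_FD : Prop := ∀ (ι : Type) (ν : ι → ℕ), Function.Injective ν → ∀ c : ι → ℂ,
  Summable (fun α => ((ν α : ℝ) + 1) * ‖c α‖) → ∀ (B : ℝ) (x y : (n : ℕ) → ι → Fin n → ℂ)
    (M : (n : ℕ) → Matrix (Fin n) (Fin n) ℂ),
  (∀ᶠ n in atTop, ∀ j k, HasSum (fun α => c α * x n α j * y n α k) (M n j k)) →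
  (∀ᶠ n in atTop, ∀ α γ, ‖∑ j, y n α j * x n γ j‖ ≤ B) →
  (∀ α γ, ∃ l : ℂ, Tendsto (fun n => ∑ j, y n α j * x n γ j) atTop (𝓝 l)) →
  ∃ L : ℂ, Tendsto (fun n => Matrix.det (1 + M n)) atTop (𝓝 L)

/-! ### operators on a Hilbert space -/

section Ops

variable {H : Type*} [NormedAddCommGroup H] [InnerProductSpace ℂ H] [CompleteSpace H]

/-- strong convergence of a sequence of operators, eventually bounded -/
def SC (B : ℕ → H →L[ℂ] H) (L : H →L[ℂ] H) : Prop :=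
  (∃ C : ℝ, ∀ᶠ n in atTop, ‖B n‖ ≤ C) ∧ ∀ x, Tendsto (fun n => B n x) atTop (𝓝 (L x))

/-- *-strong convergence -/
def SSC (B : ℕ → H →L[ℂ] H) (L : H →L[ℂ] H) : Prop :=
  SC B L ∧ SC (fun n => star (B n)) (star L)

/-- the vectors with coordinates in `s` -/
def V (e : HilbertBasis ℤ ℂ H) (s : Set ℤ) : Submodule ℂ H where
  carrier := {x | ∀ k, k ∉ s → ⟪e k, x⟫_ℂ = 0}
  add_mem' := by
    intro a b ha hb k hk
    rw [inner_add_right, ha k hk, hb k hk, add_zero]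
  zero_mem' := by
    intro k _
    exact inner_zero_right _
  smul_mem' := by
    intro c x hx k hk
    rw [inner_smul_right, hx k hk, mul_zero]

theorem V_closed (e : HilbertBasis ℤ ℂ H) (s : Set ℤ) : IsClosed (V e s : Set H) := by
  have h : (V e s : Set H) = ⋂ k, ⋂ (_ : k ∉ s), {x | ⟪e k, x⟫_ℂ = 0} := by
    ext x
    simp [V]
  rw [h]
  refine isClosed_iInter fun k => isClosed_iInter fun _ => ?_
  exact isClosed_eq (by fun_prop) continuous_const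

instance V_complete (e : HilbertBasis ℤ ℂ H) (s : Set ℤ) : CompleteSpace (V e s) :=
  (V_closed e s).completeSpace_coe

/-- the projection onto the coordinates in `s` -/
noncomputable def pr (e : HilbertBasis ℤ ℂ H) (s : Set ℤ) : H →L[ℂ] H := (V e s).starProjection

/-- norm limits of operators that only see finitely many coordinates -/
def Cp (e : HilbertBasis ℤ ℂ H) (K : H →L[ℂ] H) : Prop :=
  ∀ ε > 0, ∃ (s : Finset ℤ) (F : H →L[ℂ] H), F = pr e s * F * pr e s ∧ ‖K - F‖ ≤ ε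

end Ops

/-- *-strong limits of uniformly invertible operators are invertible, and the inverses
converge *-strongly -/
def S_INV : Prop := ∀ (H : Type) [NormedAddCommGroup H] [InnerProductSpace ℂ H] [CompleteSpace H]
  (A : ℕ → H →L[ℂ] H) (L : H →L[ℂ] H) (C : ℝ), SSC A L →
  (∀ᶠ n in atTop, IsUnit (A n) ∧ ‖Ring.inverse (A n)‖ ≤ C) →
  IsUnit L ∧ SSC (fun n => Ring.inverse (A n)) (Ring.inverse L)

/-! ### multiplication operators -/

/-- the circle `ℝ/2πℤ` -/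
abbrev Tc : Type := AddCircle (2 * Real.pi)

instance factTwoPi : Fact (0 < 2 * Real.pi) := ⟨Real.two_pi_pos⟩

/-- bounded measurable functions -/
def BM (f : Tc → ℂ) : Prop := Measurable f ∧ ∃ C : ℝ, ∀ x, ‖f x‖ ≤ C

/-- `M f` is multiplication by `f`, in the Fourier basis `e` -/
structure MulSys {H : Type} [NormedAddCommGroup H] [InnerProductSpace ℂ H] [CompleteSpace H]
    (e : HilbertBasis ℤ ℂ H) (M : (Tc → ℂ) → (H →L[ℂ] H)) : Prop where
  mul : ∀ f g, BM f → BM g → M (fun x => f x * g x) = M f * M g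
  one : M (fun _ => 1) = 1
  add : ∀ f g, BM f → BM g → M (fun x => f x + g x) = M f + M g
  smul : ∀ (c : ℂ) f, BM f → M (fun x => c * f x) = c • M f
  adj : ∀ f, BM f → M (fun x => star (f x)) = star (M f)
  norm : ∀ f (C : ℝ), BM f → (∀ x, ‖f x‖ ≤ C) → ‖M f‖ ≤ C
  entry : ∀ f, BM f → ∀ j k : ℤ, ⟪e j, M f (e k)⟫_ℂ = fourierCoeff f (j - k)
  shift : ∀ l k : ℤ, M (fun x => fourier l x) (e k) = e (l + k)
  lim : ∀ (f : ℕ → Tc → ℂ) (g : Tc → ℂ), (∀ n, BM (f n)) → BM g →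
    ∀ C : ℝ, (∀ n x, ‖f n x‖ ≤ C) →
    (∀ᵐ x ∂(AddCircle.haarAddCircle : Measure Tc), Tendsto (fun n => f n x) atTop (𝓝 (g x))) →
    ∀ v, Tendsto (fun n => M (f n) v) atTop (𝓝 (M g v))

/-- multiplication operators on `L²` of the circle -/
def S_MUL : Prop := ∃ M : (Tc → ℂ) →
    (Lp ℂ 2 (AddCircle.haarAddCircle : Measure Tc) →L[ℂ] Lp ℂ 2 (AddCircle.haarAddCircle : Measure Tc)),
  MulSys (fourierBasis (T := 2 * Real.pi)) M

end Pool.Agent.K1H32.TD
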