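import Pool.Agent.K1H32.TD.Asm3
import Pool.Agent.K1H65.TD.Circ
import Pool.Agent.K1H65.TD.Branch
import Pool.Agent.K1H9.TD.Chi
import Pool.Agent.K1H31.TD.FD
import Pool.Agent.K1H85.TD.Mul
import Pool.Agent.K1H16.TD.Inv

/-! # from functions on the unit circle to multiplication operators -/

open Filter Topology MeasureTheory
open scoped InnerProductSpace

namespace Pool.Agent.K1H32.TD

set_option linter.unusedSectionVars false
set_option linter.unusedVariables false
set_option linter.deprecated false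
set_option linter.style.haveILetI false

theorem haar_pt (x : Tc) : (AddCircle.haarAddCircle : Measure Tc) {x} = 0 := by
  haveI : Nontrivial Tc := by
    refine ⟨⟨((0 : ℝ) : Tc), ((Real.pi : ℝ) : Tc), fun h => ?_⟩⟩
    have h1 := congrArg (fun z : Tc => ((AddCircle.toCircle z : Circle) : ℂ)) h
    simp only [AddCircle.toCircle_apply_mk, Circle.coe_exp] at h1
    have h2 : 2 * Real.pi / (2 * Real.pi) = 1 := div_self (by positivity)
    rw [h2] at h1
    norm_num at h1
  haveI : (nhdsWithin (0 : Tc) {0}ᶜ).NeBot := inferInstance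
  exact measure_singleton x

/-- the point of the unit circle of an angle -/
noncomputable def tc (θ : Tc) : ℂ := (AddCircle.toCircle θ : Circle)

theorem tc_norm (θ : Tc) : ‖tc θ‖ = 1 := Circle.norm_coe _

theorem tc_coe (x : ℝ) : tc (x : Tc) = ex x := by
  unfold tc ex
  rw [AddCircle.toCircle_apply_mk, Circle.coe_exp]
  have h2 : 2 * Real.pi / (2 * Real.pi) = 1 := div_self (by positivity)
  rw [h2, one_mul]

theorem tc_cont : Continuous tc := continuous_subtype_val.comp AddCircle.continuous_toCircle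

theorem tc_inj : Function.Injective tc := by
  intro a b hab
  apply AddCircle.injective_toCircle (T := 2 * Real.pi) (by positivity)
  exact Subtype.ext hab

theorem ex_per (x : ℝ) : ex (x + 2 * Real.pi) = ex x := by
  unfold ex
  push_cast
  rw [add_mul, Complex.exp_add, Complex.exp_two_pi_mul_I, mul_one]

theorem coe_surj (θ : Tc) : ∃ x : ℝ, (x : Tc) = θ := QuotientAddGroup.mk_surjective θ

/-- Fourier coefficients of lifts -/
theorem fc_lift (a : ℂ → ℂ) (k : ℤ) : fourierCoeff (fun θ : Tc => a (tc θ)) k = fc a k := by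
  rw [fourierCoeff_eq_intervalIntegral _ k 0, zero_add]
  unfold fc
  rw [Complex.real_smul]
  congr 1
  apply intervalIntegral.integral_congr
  intro x _
  simp only [tc_coe, smul_eq_mul]
  rw [fourier_coe_apply, mul_comm]
  congr 2
  have : ((2 * Real.pi : ℝ) : ℂ) ≠ 0 := by
    exact_mod_cast (by positivity : (2 * Real.pi : ℝ) ≠ 0)
  push_cast at this ⊢
  field_simp

/-- decay of Fourier coefficients of smooth lifts -/
theorem dec_lift (a : ℂ → ℂ) (ha : ContDiff ℝ (⊤ : ℕ∞) (fun x : ℝ => a (ex x))) :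
    Dec (fun θ : Tc => a (tc θ)) := by
  obtain ⟨C, hC⟩ := K1H65.TD.t_DEC (fun x => a (ex x)) ha (fun x => by rw [ex_per])
  refine ⟨(1 / (2 * Real.pi)) * C, fun k => ?_⟩
  rw [fc_lift]
  unfold fc
  rw [norm_mul, Complex.norm_real, Real.norm_eq_abs, abs_of_nonneg (by positivity), mul_div_assoc]
  exact mul_le_mul_of_nonneg_left (hC k) (by positivity)

theorem lift_cont (a : ℂ → ℂ) (ha : Continuous (fun x : ℝ => a (ex x))) :
    Continuous (fun θ : Tc => a (tc θ)) := by
  have h1 : (fun θ : Tc => a (tc θ)) ∘ (QuotientAddGroup.mk : ℝ → Tc) = fun x : ℝ => a (ex x) := by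
    funext x
    exact congrArg a (tc_coe x)
  have h2 : Topology.IsQuotientMap (QuotientAddGroup.mk : ℝ → Tc) :=
    QuotientAddGroup.isOpenQuotientMap_mk.isQuotientMap
  rw [h2.continuous_iff, h1]
  exact ha

/-- the continuous logarithm on the circle -/
theorem log_lift (b : ℂ → ℂ) (hb : SmoothWZ b) :
    ∃ g : C(Tc, ℂ), ∀ θ, b (tc θ) = Complex.exp (g θ) := by
  obtain ⟨h, h1, h2, h3⟩ := K1H65.TD.t_WIND b hb
  have hp : Function.Periodic h (2 * Real.pi) := h2
  have h4 : Topology.IsQuotientMap (QuotientAddGroup.mk : ℝ → Tc) :=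
    QuotientAddGroup.isOpenQuotientMap_mk.isQuotientMap
  have h5 : Continuous (hp.lift : Tc → ℂ) := by
    rw [h4.continuous_iff]
    exact h1
  refine ⟨⟨hp.lift, h5⟩, fun θ => ?_⟩
  obtain ⟨x, rfl⟩ := coe_surj θ
  rw [tc_coe, h3 x]
  rfl

/-- the family of jumps -/
theorem fam_lift {R : ℕ} (β : Fin R → ℂ) (hβ : ∑ r, ‖β r‖ ≤ 1 / 5) {t : ℕ → Fin R → ℂ}
    (ht : ∀ n r, ‖t n r‖ = 1) {t₀ : ℂ} (ht₀ : ‖t₀‖ = 1)
    (hl : ∀ r, Tendsto (fun n => t n r) atTop (𝓝 t₀)) :
    Fam (fun n θ => ∏ r, u (β r) (t n r) (tc θ)) (fun θ => ∏ r, u (β r) t₀ (tc θ)) := by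
  have hm : ∀ s : Fin R → ℂ, Measurable (fun θ => ∏ r, u (β r) (s r) (tc θ)) := by
    intro s
    apply Finset.measurable_prod
    intro r _
    unfold u
    exact ((tc_cont.measurable.neg).div_const _).pow_const _
  have hb : ∀ (s : Fin R → ℂ) (θ : Tc), (∀ r, ‖s r‖ = 1) →
      ∃ ω : ℂ, ∏ r, u (β r) (s r) (tc θ) = Complex.exp ω ∧ ‖ω‖ ≤ Real.pi / 5 := by
    intro s θ hs
    obtain ⟨w, h1, h2⟩ := K1H65.TD.t_UBD R β s (tc θ) hs (tc_norm θ)
    refine ⟨w, h1, h2.trans ?_⟩
    have := mul_le_mul_of_nonneg_left hβ Real.pi_pos.le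
    linarith
  refine ⟨fun n => hm _, hm _, fun n θ => hb _ θ (ht n), fun θ => hb _ θ fun _ => ht₀, ?_⟩
  -- convergence off one point
  have h1 : ∀ θ : Tc, tc θ ≠ t₀ →
      Tendsto (fun n => ∏ r, u (β r) (t n r) (tc θ)) atTop (𝓝 (∏ r, u (β r) t₀ (tc θ))) := by
    intro θ hθ
    apply tendsto_finset_prod
    intro r _
    unfold u
    have h0 : t₀ ≠ 0 := by
      intro h0
      rw [h0, norm_zero] at ht₀
      exact zero_ne_one ht₀
    refine Tendsto.cpow (tendsto_const_nhds.div (hl r) h0) tendsto_const_nhds ?_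
    rw [Complex.mem_slitPlane_iff_not_le_zero]
    intro hle
    have h2 : ‖-tc θ / t₀‖ = 1 := by rw [norm_div, norm_neg, tc_norm, ht₀, div_one]
    have h3 : -tc θ / t₀ = -1 := by
      have him : (-tc θ / t₀).im = 0 := by
        have := (Complex.le_def.1 hle).2
        simpa using this
      have hre : (-tc θ / t₀).re ≤ 0 := by
        have := (Complex.le_def.1 hle).1
        simpa using this
      have h4 : -tc θ / t₀ = (((-tc θ / t₀).re : ℝ) : ℂ) := by
        apply Complex.ext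
        · simp
        · rw [him]; simp
      rw [h4, Complex.norm_real, Real.norm_eq_abs, abs_of_nonpos hre] at h2
      rw [h4]
      have : (-tc θ / t₀).re = -1 := by linarith
      rw [this]
      simp
    apply hθ
    rw [div_eq_iff h0] at h3
    linear_combination -h3
  have h2 : ∀ᵐ θ ∂(AddCircle.haarAddCircle : Measure Tc), tc θ ≠ t₀ := by
    by_cases hex : ∃ θ₀ : Tc, tc θ₀ = t₀
    · obtain ⟨θ₀, hθ₀⟩ := hex
      have h3 : ∀ᵐ θ ∂(AddCircle.haarAddCircle : Measure Tc), θ ≠ θ₀ := by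
        rw [ae_iff]
        simp only [not_not, Set.setOf_eq_eq_singleton]
        exact haar_pt θ₀
      filter_upwards [h3] with θ hθ hθ'
      exact hθ (tc_inj (hθ'.trans hθ₀.symm))
    · exact Eventually.of_forall fun θ hθ => hex ⟨θ, hθ⟩
  filter_upwards [h2] with θ hθ
  exact h1 θ hθ

/-- constants relating the moving jumps to the fixed ones -/
theorem kap {R : ℕ} (β : Fin R → ℂ) {t : ℕ → Fin R → ℂ}
    {t₀ : ℂ} (ht₀ : ‖t₀‖ = 1) (hl : ∀ r, Tendsto (fun n => t n r) atTop (𝓝 t₀)) :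
    Tendsto (fun n => ∏ r, (t₀ / t n r) ^ β r) atTop (𝓝 1) := by
  have h0 : t₀ ≠ 0 := by
    intro h0
    rw [h0, norm_zero] at ht₀
    exact zero_ne_one ht₀
  have h1 : (1 : ℂ) = ∏ r : Fin R, (1 : ℂ) ^ β r := by simp
  rw [h1]
  apply tendsto_finset_prod
  intro r _
  apply Tendsto.cpow _ tendsto_const_nhds (by simp)
  have := (tendsto_const_nhds (x := t₀)).div (hl r) h0
  rwa [div_self h0] at this

theorem kap_eq {R : ℕ} (β : Fin R → ℂ) {t : ℕ → Fin R → ℂ} (ht : ∀ n r, ‖t n r‖ = 1)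
    {t₀ : ℂ} (ht₀ : ‖t₀‖ = 1) (hl : ∀ r, Tendsto (fun n => t n r) atTop (𝓝 t₀)) {δ : ℝ}
    (hδ : 0 < δ) :
    ∀ᶠ n in atTop, ∀ θ : Tc, δ < ‖tc θ - t₀‖ →
      ∏ r, u (β r) (t n r) (tc θ) = (∏ r, (t₀ / t n r) ^ β r) * ∏ r, u (β r) t₀ (tc θ) := by
  have h1 : ∀ᶠ n in atTop, ∀ r, ‖t n r - t₀‖ < δ := by
    rw [eventually_all]
    intro r
    have := (Metric.tendsto_nhds.1 (hl r)) δ hδ
    filter_upwards [this] with n hn
    rwa [dist_eq_norm] at hn
  filter_upwards [h1] with n hn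
  intro θ hθ
  rw [← Finset.prod_mul_distrib]
  apply Finset.prod_congr rfl
  intro r _
  exact K1H65.TD.t_ULOG (β r) (t n r) t₀ (tc θ) (ht n r) ht₀ (tc_norm θ) ((hn r).trans hθ)

end Pool.Agent.K1H32.TD
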