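import Pool.Agent.K1H32.TD.Stm

/-! # coordinate projections, *-strong convergence -/

open Filter Topology MeasureTheory
open scoped InnerProductSpace

namespace Pool.Agent.K1H32.TD

set_option linter.unusedSectionVars false
set_option linter.deprecated false

/-- the index set of the finite section -/
def Ip (n : ℕ) : Set ℤ := {k | 0 ≤ k ∧ k < (n : ℤ)}

section

variable {H : Type*} [NormedAddCommGroup H] [InnerProductSpace ℂ H] [CompleteSpace H]

theorem ext_coord (e : HilbertBasis ℤ ℂ H) {x y : H} (h : ∀ k, ⟪e k, x⟫_ℂ = ⟪e k, y⟫_ℂ) : x = y := by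
  apply e.repr.injective
  ext k
  rw [e.repr_apply_apply, e.repr_apply_apply, h k]

theorem op_ext (e : HilbertBasis ℤ ℂ H) {A B : H →L[ℂ] H} (h : ∀ k, A (e k) = B (e k)) : A = B := by
  refine ContinuousLinearMap.ext_on ((Submodule.dense_iff_topologicalClosure_eq_top).2 e.dense_span) ?_
  rintro _ ⟨k, rfl⟩
  exact h k

theorem op_ext2 (e : HilbertBasis ℤ ℂ H) {A B : H →L[ℂ] H}
    (h : ∀ j k, ⟪e j, A (e k)⟫_ℂ = ⟪e j, B (e k)⟫_ℂ) : A = B :=
  op_ext e fun k => ext_coord e fun j => h j k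

theorem inner_e (e : HilbertBasis ℤ ℂ H) (j k : ℤ) : ⟪e j, e k⟫_ℂ = if j = k then 1 else 0 := by
  have := (orthonormal_iff_ite.1 e.orthonormal) j k
  exact this

open Classical in
theorem pr_coord (e : HilbertBasis ℤ ℂ H) (s : Set ℤ) (k : ℤ) (x : H) :
    ⟪e k, pr e s x⟫_ℂ = if k ∈ s then ⟪e k, x⟫_ℂ else 0 := by
  split_ifs with hk
  · have h1 : e k ∈ V e s := by
      intro j hj
      rw [inner_e, if_neg]
      rintro rfl
      exact hj hk
    have h2 : pr e s (e k) = e k := by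
      rw [pr]
      exact Submodule.starProjection_eq_self_iff.2 h1
    have h3 : ⟪e k, pr e s x⟫_ℂ = ⟪pr e s (e k), x⟫_ℂ := by
      rw [pr]
      exact (Submodule.inner_starProjection_left_eq_right (V e s) (e k) x).symm
    rw [h3, h2]
  · have h1 : pr e s x ∈ V e s := by
      rw [pr]
      exact Submodule.starProjection_apply_mem _ _
    exact h1 k hk

open Classical in
theorem pr_basis (e : HilbertBasis ℤ ℂ H) (s : Set ℤ) (k : ℤ) :
    pr e s (e k) = if k ∈ s then e k else 0 := by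
  apply ext_coord e
  intro j
  rw [pr_coord]
  by_cases hk : k ∈ s
  · rw [if_pos hk]
    split_ifs with hj
    · rfl
    · rw [inner_e, if_neg]
      rintro rfl
      exact hj hk
  · rw [if_neg hk, inner_zero_right]
    split_ifs with hj
    · rw [inner_e, if_neg]
      rintro rfl
      exact hk hj
    · rfl

theorem pr_in (e : HilbertBasis ℤ ℂ H) {s : Set ℤ} {k : ℤ} (h : k ∈ s) : pr e s (e k) = e k := by
  classical
  rw [pr_basis, if_pos h]

theorem pr_out (e : HilbertBasis ℤ ℂ H) {s : Set ℤ} {k : ℤ} (h : k ∉ s) : pr e s (e k) = 0 := by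
  classical
  rw [pr_basis, if_neg h]

theorem pr_mul (e : HilbertBasis ℤ ℂ H) (s t : Set ℤ) : pr e s * pr e t = pr e (s ∩ t) := by
  classical
  apply op_ext e
  intro k
  rw [ContinuousLinearMap.mul_apply, pr_basis e t]
  by_cases ht : k ∈ t
  · rw [if_pos ht, pr_basis, pr_basis]
    by_cases hs : k ∈ s
    · rw [if_pos hs, if_pos ⟨hs, ht⟩]
    · rw [if_neg hs, if_neg (fun h => hs h.1)]
  · rw [if_neg ht, map_zero, pr_basis, if_neg (fun h => ht h.2)]

theorem pr_idem (e : HilbertBasis ℤ ℂ H) (s : Set ℤ) : pr e s * pr e s = pr e s := by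
  rw [pr_mul, Set.inter_self]

theorem pr_univ (e : HilbertBasis ℤ ℂ H) : pr e Set.univ = 1 := by
  apply op_ext e
  intro k
  rw [pr_in e (Set.mem_univ k)]
  rfl

theorem pr_empty (e : HilbertBasis ℤ ℂ H) : pr e ∅ = 0 := by
  apply op_ext e
  intro k
  rw [pr_out e (Set.notMem_empty k)]
  rfl

theorem pr_add (e : HilbertBasis ℤ ℂ H) {s t : Set ℤ} (h : Disjoint s t) :
    pr e s + pr e t = pr e (s ∪ t) := by
  classical
  apply op_ext e
  intro k
  rw [ContinuousLinearMap.add_apply, pr_basis, pr_basis, pr_basis]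
  by_cases hs : k ∈ s
  · have ht : k ∉ t := fun ht => Set.disjoint_left.1 h hs ht
    rw [if_pos hs, if_neg ht, if_pos (Set.mem_union_left _ hs), add_zero]
  · by_cases ht : k ∈ t
    · rw [if_neg hs, if_pos ht, if_pos (Set.mem_union_right _ ht), zero_add]
    · rw [if_neg hs, if_neg ht, if_neg (by rintro (h | h) <;> contradiction), add_zero]

theorem pr_compl (e : HilbertBasis ℤ ℂ H) (s : Set ℤ) : pr e s + pr e sᶜ = 1 := by
  rw [pr_add e disjoint_compl_right, Set.union_compl_self, pr_univ]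

theorem pr_disj (e : HilbertBasis ℤ ℂ H) {s t : Set ℤ} (h : Disjoint s t) :
    pr e s * pr e t = 0 := by
  rw [pr_mul, Set.disjoint_iff_inter_eq_empty.1 h, pr_empty]

theorem pr_sub (e : HilbertBasis ℤ ℂ H) {s t : Set ℤ} (h : s ⊆ t) :
    pr e s * pr e t = pr e s := by
  rw [pr_mul, Set.inter_eq_left.2 h]

theorem pr_sup (e : HilbertBasis ℤ ℂ H) {s t : Set ℤ} (h : s ⊆ t) :
    pr e t * pr e s = pr e s := by
  rw [pr_mul, Set.inter_eq_right.2 h]

theorem pr_star (e : HilbertBasis ℤ ℂ H) (s : Set ℤ) : star (pr e s) = pr e s := by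
  rw [pr]
  exact (isSelfAdjoint_starProjection (V e s)).star_eq

theorem pr_norm (e : HilbertBasis ℤ ℂ H) (s : Set ℤ) : ‖pr e s‖ ≤ 1 := by
  rw [pr]
  exact Submodule.starProjection_norm_le _

theorem pr_inner (e : HilbertBasis ℤ ℂ H) (s : Set ℤ) (x y : H) :
    ⟪x, pr e s y⟫_ℂ = ⟪pr e s x, y⟫_ℂ := by
  rw [pr]
  exact (Submodule.inner_starProjection_left_eq_right (V e s) x y).symm

theorem norm_e (e : HilbertBasis ℤ ℂ H) (k : ℤ) : ‖e k‖ = 1 := e.orthonormal.1 k

/-! ### strong convergence -/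

theorem SC.const (L : H →L[ℂ] H) : SC (fun _ => L) L :=
  ⟨⟨‖L‖, Eventually.of_forall fun _ => le_refl _⟩, fun _ => tendsto_const_nhds⟩

theorem SSC.const (L : H →L[ℂ] H) : SSC (fun _ => L) L := ⟨SC.const L, SC.const _⟩

theorem SC.apply {B : ℕ → H →L[ℂ] H} {L : H →L[ℂ] H} (h : SC B L) {x : ℕ → H} {y : H}
    (hx : Tendsto x atTop (𝓝 y)) : Tendsto (fun n => B n (x n)) atTop (𝓝 (L y)) := by
  obtain ⟨⟨C, hC⟩, h2⟩ := h
  have h3 : Tendsto (fun n => B n (x n - y)) atTop (𝓝 0) := by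
    apply squeeze_zero_norm' (a := fun n => C * ‖x n - y‖)
    · filter_upwards [hC] with n hn
      exact ((B n).le_opNorm _).trans (mul_le_mul_of_nonneg_right hn (norm_nonneg _))
    · have : Tendsto (fun n => ‖x n - y‖) atTop (𝓝 0) := by
        have := (hx.sub_const y).norm
        simpa using this
      simpa using this.const_mul C
  have h4 := h3.add (h2 y)
  simpa using h4

theorem SC.mul {A B : ℕ → H →L[ℂ] H} {K L : H →L[ℂ] H} (hA : SC A K) (hB : SC B L) :
    SC (fun n => A n * B n) (K * L) := by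
  refine ⟨?_, fun x => ?_⟩
  · obtain ⟨⟨C, hC⟩, -⟩ := hA
    obtain ⟨⟨C', hC'⟩, -⟩ := hB
    refine ⟨C * C', ?_⟩
    filter_upwards [hC, hC'] with n h1 h2
    exact (norm_mul_le _ _).trans (mul_le_mul h1 h2 (norm_nonneg _) ((norm_nonneg _).trans h1))
  · exact hA.apply (hB.2 x)

theorem SC.add {A B : ℕ → H →L[ℂ] H} {K L : H →L[ℂ] H} (hA : SC A K) (hB : SC B L) :
    SC (fun n => A n + B n) (K + L) := by
  refine ⟨?_, fun x => ?_⟩
  · obtain ⟨⟨C, hC⟩, -⟩ := hA
    obtain ⟨⟨C', hC'⟩, -⟩ := hB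
    refine ⟨C + C', ?_⟩
    filter_upwards [hC, hC'] with n h1 h2
    exact (norm_add_le _ _).trans (add_le_add h1 h2)
  · exact (hA.2 x).add (hB.2 x)

theorem SC.smul {c : ℕ → ℂ} {d : ℂ} (hc : Tendsto c atTop (𝓝 d)) {A : ℕ → H →L[ℂ] H}
    {K : H →L[ℂ] H} (hA : SC A K) : SC (fun n => c n • A n) (d • K) := by
  refine ⟨?_, fun x => ?_⟩
  · obtain ⟨⟨C, hC⟩, -⟩ := hA
    have h1 : ∀ᶠ n in atTop, ‖c n‖ < ‖d‖ + 1 := hc.norm.eventually (gt_mem_nhds (by linarith))
    refine ⟨(‖d‖ + 1) * C, ?_⟩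
    filter_upwards [hC, h1] with n h1 h2
    rw [norm_smul]
    exact mul_le_mul h2.le h1 (norm_nonneg _) (by positivity)
  · exact hc.smul (hA.2 x)

theorem SSC.mul {A B : ℕ → H →L[ℂ] H} {K L : H →L[ℂ] H} (hA : SSC A K) (hB : SSC B L) :
    SSC (fun n => A n * B n) (K * L) := by
  refine ⟨hA.1.mul hB.1, ?_⟩
  simp only [star_mul]
  exact hB.2.mul hA.2

theorem SSC.add {A B : ℕ → H →L[ℂ] H} {K L : H →L[ℂ] H} (hA : SSC A K) (hB : SSC B L) :
    SSC (fun n => A n + B n) (K + L) := by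
  refine ⟨hA.1.add hB.1, ?_⟩
  simp only [star_add]
  exact hA.2.add hB.2

theorem SSC.smul {c : ℕ → ℂ} {d : ℂ} (hc : Tendsto c atTop (𝓝 d)) {A : ℕ → H →L[ℂ] H}
    {K : H →L[ℂ] H} (hA : SSC A K) : SSC (fun n => c n • A n) (d • K) := by
  refine ⟨hA.1.smul hc, ?_⟩
  simp only [star_smul]
  exact hA.2.smul ((continuous_star.tendsto d).comp hc)

theorem SSC.neg {A : ℕ → H →L[ℂ] H} {K : H →L[ℂ] H} (hA : SSC A K) :
    SSC (fun n => - A n) (-K) := by
  have := hA.smul (c := fun _ => (-1 : ℂ)) (d := -1) tendsto_const_nhds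
  simpa using this

theorem SSC.sub {A B : ℕ → H →L[ℂ] H} {K L : H →L[ℂ] H} (hA : SSC A K) (hB : SSC B L) :
    SSC (fun n => A n - B n) (K - L) := by
  simp only [sub_eq_add_neg]
  exact hA.add hB.neg

theorem SSC.star {A : ℕ → H →L[ℂ] H} {K : H →L[ℂ] H} (hA : SSC A K) :
    SSC (fun n => Star.star (A n)) (Star.star K) := by
  refine ⟨hA.2, ?_⟩
  simp only [star_star]
  exact hA.1

theorem SSC.congr {A B : ℕ → H →L[ℂ] H} {K : H →L[ℂ] H} (hA : SSC A K)
    (h : ∀ᶠ n in atTop, A n = B n) : SSC B K := by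
  obtain ⟨⟨⟨C, hC⟩, h2⟩, ⟨⟨C', hC'⟩, h2'⟩⟩ := hA
  refine ⟨⟨⟨C, ?_⟩, fun x => ?_⟩, ⟨⟨C', ?_⟩, fun x => ?_⟩⟩
  · filter_upwards [hC, h] with n h3 h4
    rw [← h4]; exact h3
  · refine (h2 x).congr' ?_
    filter_upwards [h] with n h4
    rw [h4]
  · filter_upwards [hC', h] with n h3 h4
    rw [← h4]; exact h3
  · refine (h2' x).congr' ?_
    filter_upwards [h] with n h4
    rw [h4]

/-- strong convergence follows from convergence on the basis -/
theorem SC.of_basis (e : HilbertBasis ℤ ℂ H) {B : ℕ → H →L[ℂ] H} {L : H →L[ℂ] H} {C : ℝ}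
    (hC : ∀ᶠ n in atTop, ‖B n‖ ≤ C) (h : ∀ k, Tendsto (fun n => B n (e k)) atTop (𝓝 (L (e k)))) :
    SC B L := by
  refine ⟨⟨C, hC⟩, ?_⟩
  -- the set of good vectors is a closed subspace containing the basis
  have hspan : ∀ x ∈ Submodule.span ℂ (Set.range e),
      Tendsto (fun n => B n x) atTop (𝓝 (L x)) := by
    intro x hx
    induction hx using Submodule.span_induction with
    | mem x hx =>
      obtain ⟨k, rfl⟩ := hx
      exact h k
    | zero => simp
    | add x y _ _ h1 h2 => simpa using h1.add h2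
    | smul c x _ h1 => simpa using h1.const_smul c
  intro x
  rw [Metric.tendsto_atTop']
  intro ε hε
  have hd : Dense ((Submodule.span ℂ (Set.range e) : Submodule ℂ H) : Set H) :=
    (Submodule.dense_iff_topologicalClosure_eq_top).2 e.dense_span
  have hC0 : 0 ≤ C := by
    obtain ⟨n, hn⟩ := hC.exists
    exact (norm_nonneg _).trans hn
  have hK : 0 < C + ‖L‖ + 1 := by positivity
  obtain ⟨y, hy, hxy⟩ := Metric.dense_iff.1 hd x (ε / 2 / (C + ‖L‖ + 1)) (by positivity)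
  have h1 := (Metric.tendsto_atTop.1 (hspan y hxy)) (ε / 2) (by positivity)
  obtain ⟨N, hN⟩ := h1
  obtain ⟨N', hN'⟩ := eventually_atTop.1 hC
  refine ⟨max N N', fun n hn => ?_⟩
  have hn1 := hN n ((le_max_left _ _).trans hn.le)
  have hn2 := hN' n ((le_max_right _ _).trans hn.le)
  rw [dist_eq_norm] at hn1 ⊢
  have hy' : ‖x - y‖ < ε / 2 / (C + ‖L‖ + 1) := by
    rw [← dist_eq_norm, dist_comm]
    exact hy
  have h3 : B n x - L x = B n (x - y) + (B n y - L y) - L (x - y) := by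
    simp only [map_sub]
    abel
  rw [h3]
  have h4 : ‖B n (x - y)‖ ≤ C * ‖x - y‖ :=
    ((B n).le_opNorm _).trans (mul_le_mul_of_nonneg_right hn2 (norm_nonneg _))
  have h5 : ‖L (x - y)‖ ≤ ‖L‖ * ‖x - y‖ := L.le_opNorm _
  have h6 : (C + ‖L‖) * ‖x - y‖ ≤ ε / 2 := by
    have h7 : (C + ‖L‖ + 1) * ‖x - y‖ ≤ ε / 2 := by
      rw [lt_div_iff₀ hK] at hy'
      linarith
    nlinarith [norm_nonneg (x - y)]
  calc ‖B n (x - y) + (B n y - L y) - L (x - y)‖
      ≤ ‖B n (x - y)‖ + ‖B n y - L y‖ + ‖L (x - y)‖ :=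
        (norm_sub_le _ _).trans (add_le_add (norm_add_le _ _) (le_refl _))
    _ < ε := by linarith

/-- coordinate projections converge when the index sets do -/
theorem pr_ssc (e : HilbertBasis ℤ ℂ H) {s : ℕ → Set ℤ} {t : Set ℤ}
    (h : ∀ k, ∀ᶠ n in atTop, (k ∈ s n ↔ k ∈ t)) : SSC (fun n => pr e (s n)) (pr e t) := by
  classical
  have h1 : SC (fun n => pr e (s n)) (pr e t) := by
    apply SC.of_basis e (C := 1) (Eventually.of_forall fun n => pr_norm e _)
    intro k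
    apply tendsto_const_nhds.congr'
    filter_upwards [h k] with n hn
    rw [pr_basis, pr_basis]
    simp only [hn]
  refine ⟨h1, ?_⟩
  simp only [pr_star]
  exact h1

end

end Pool.Agent.K1H32.TD
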