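import Pool.Agent.K1H32.TD.Cpt
import Pool.Agent.K1H32.TD.Alg

/-! # stability of the finite sections of `p m w_n` -/

open Filter Topology MeasureTheory
open scoped InnerProductSpace

namespace Pool.Agent.K1H32.TD

set_option linter.unusedSectionVars false
set_option linter.unusedVariables false
set_option linter.deprecated false

theorem ring_inverse_eq {R : Type*} [Ring R] {x y : R} (h1 : x * y = 1) (h2 : y * x = 1) :
    Ring.inverse x = y :=
  Ring.inverse_unit ⟨x, y, h1, h2⟩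

section

variable {H : Type} [NormedAddCommGroup H] [InnerProductSpace ℂ H] [CompleteSpace H]

theorem neumann (t : H →L[ℂ] H) {δ : ℝ} (hδ : δ < 1) (ht : ‖t‖ ≤ δ) :
    IsUnit (1 + t) ∧ ‖Ring.inverse (1 + t)‖ ≤ 1 / (1 - δ) := by
  have h1 : ‖-t‖ < 1 := by rw [norm_neg]; linarith
  have hu : IsUnit (1 + t) := by
    have := (Units.oneSub (-t) h1).isUnit
    rwa [Units.val_oneSub, sub_neg_eq_add] at this
  refine ⟨hu, ?_⟩
  set y := Ring.inverse (1 + t) with hy
  have h2 : (1 + t) * y = 1 := Ring.mul_inverse_cancel _ hu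
  have h3 : y = 1 - t * y := by
    rw [add_mul, one_mul] at h2
    exact eq_sub_of_add_eq h2
  have h4 : ‖y‖ ≤ 1 + δ * ‖y‖ := by
    calc ‖y‖ = ‖1 - t * y‖ := by rw [← h3]
      _ ≤ ‖(1 : H →L[ℂ] H)‖ + ‖t * y‖ := norm_sub_le _ _
      _ ≤ 1 + δ * ‖y‖ := by
          apply add_le_add
          · exact ContinuousLinearMap.norm_id_le
          · exact (norm_mul_le _ _).trans (mul_le_mul_of_nonneg_right ht (norm_nonneg _))
  rw [le_div_iff₀ (by linarith)]
  linarith

theorem unit_open {X : ℕ → H →L[ℂ] H} {X0 : H →L[ℂ] H} (h : Tendsto X atTop (𝓝 X0))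
    (hu : IsUnit X0) : ∃ C : ℝ, ∀ᶠ n in atTop, IsUnit (X n) ∧ ‖Ring.inverse (X n)‖ ≤ C := by
  obtain ⟨u0, hu0⟩ := hu
  have h1 : ∀ᶠ n in atTop, IsUnit (X n) := by
    have : {x : H →L[ℂ] H | IsUnit x} ∈ 𝓝 X0 := by
      rw [← hu0]
      exact u0.nhds
    exact h this
  have h2 : Tendsto (fun n => Ring.inverse (X n)) atTop (𝓝 (Ring.inverse X0)) := by
    have := NormedRing.inverse_continuousAt u0
    rw [hu0] at this
    exact this.tendsto.comp h
  have h3 : ∀ᶠ n in atTop, ‖Ring.inverse (X n)‖ < ‖Ring.inverse X0‖ + 1 :=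
    h2.norm.eventually (gt_mem_nhds (by linarith))
  refine ⟨‖Ring.inverse X0‖ + 1, ?_⟩
  filter_upwards [h1, h3] with n h4 h5
  exact ⟨h4, h5.le⟩

theorem Ip_ssc (e : HilbertBasis ℤ ℂ H) : SSC (fun n => pr e (Ip n)) (pr e {k | 0 ≤ k}) := by
  apply pr_ssc
  intro k
  filter_upwards [eventually_gt_atTop k.toNat] with n hn
  simp only [Ip, Set.mem_setOf_eq]
  constructor
  · exact fun h => h.1
  · intro h
    exact ⟨h, by omega⟩

/-- the triangular factors -/
structure Tri (e : HilbertBasis ℤ ℂ H) (p p' m m' : H →L[ℂ] H) : Prop where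
  pp' : p * p' = 1
  p'p : p' * p = 1
  mm' : m * m' = 1
  m'm : m' * m = 1
  pm : p * m = m * p
  tp : ∀ k : ℤ, pr e {j | j < k} * p * pr e {j | j < k}ᶜ = 0
  tp' : ∀ k : ℤ, pr e {j | j < k} * p' * pr e {j | j < k}ᶜ = 0
  tm : ∀ k : ℤ, pr e {j | k ≤ j} * m * pr e {j | k ≤ j}ᶜ = 0
  tm' : ∀ k : ℤ, pr e {j | k ≤ j} * m' * pr e {j | k ≤ j}ᶜ = 0
  cm : Cp e (pr e {k | k < 0} * m' * pr e {k | 0 ≤ k})
  cp : Cp e (pr e {k | 0 ≤ k} * p' * pr e {k | k < 0})

theorem tri_cut (e : HilbertBasis ℤ ℂ H) {A s t : Set ℤ} {T : H →L[ℂ] H}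
    (h : pr e A * T * pr e Aᶜ = 0) (hs : s ⊆ A) (ht : t ⊆ Aᶜ) : pr e s * T * pr e t = 0 := by
  have h1 : pr e s * T * pr e t = pr e s * (pr e A * T * pr e Aᶜ) * pr e t := by
    calc pr e s * T * pr e t = (pr e s * pr e A) * T * (pr e Aᶜ * pr e t) := by
          rw [pr_sub e hs, pr_sup e ht]
      _ = _ := by simp only [mul_assoc]
  rw [h1, h]
  simp

theorem Tri.wh {e : HilbertBasis ℤ ℂ H} {p p' m m' : H →L[ℂ] H} (h : Tri e p p' m m')
    {w : H →L[ℂ] H} (hw : w * m' = m' * w) (n : ℕ) :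
    WH (pr e (Ip n)) (pr e {k | k < 0}) (pr e {k | (n : ℤ) ≤ k}) p p' m m' w where
  sum := by
    rw [pr_add e, pr_add e]
    · have : Ip n ∪ {k | k < 0} ∪ {k | (n : ℤ) ≤ k} = Set.univ := by
        ext k
        simp only [Ip, Set.mem_union, Set.mem_setOf_eq, Set.mem_univ, iff_true]
        omega
      rw [this, pr_univ]
    · rw [Set.disjoint_left]
      intro k hk hk'
      simp only [Ip, Set.mem_union, Set.mem_setOf_eq] at hk hk'
      omega
    · rw [Set.disjoint_left]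
      intro k hk hk'
      simp only [Ip, Set.mem_setOf_eq] at hk hk'
      omega
  aa := pr_idem e _
  ab := pr_disj e (by
    rw [Set.disjoint_left]; intro k hk hk'
    simp only [Ip, Set.mem_setOf_eq] at hk hk'; omega)
  ba := pr_disj e (by
    rw [Set.disjoint_left]; intro k hk hk'
    simp only [Ip, Set.mem_setOf_eq] at hk hk'; omega)
  ac := pr_disj e (by
    rw [Set.disjoint_left]; intro k hk hk'
    simp only [Ip, Set.mem_setOf_eq] at hk hk'; omega)
  ca := pr_disj e (by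
    rw [Set.disjoint_left]; intro k hk hk'
    simp only [Ip, Set.mem_setOf_eq] at hk hk'; omega)
  pp' := h.pp'
  p'p := h.p'p
  mm' := h.mm'
  m'm := h.m'm
  wm' := hw
  apc := tri_cut e (h.tp n) (by
    intro k hk; simp only [Ip, Set.mem_setOf_eq] at hk ⊢; omega) (by
    intro k hk; simp only [Set.mem_compl_iff, Set.mem_setOf_eq] at hk ⊢; omega)
  ap'c := tri_cut e (h.tp' n) (by
    intro k hk; simp only [Ip, Set.mem_setOf_eq] at hk ⊢; omega) (by
    intro k hk; simp only [Set.mem_compl_iff, Set.mem_setOf_eq] at hk ⊢; omega)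
  bpa := tri_cut e (h.tp 0) (by
    intro k hk; simp only [Set.mem_setOf_eq] at hk ⊢; omega) (by
    intro k hk; simp only [Ip, Set.mem_compl_iff, Set.mem_setOf_eq] at hk ⊢; omega)
  bp'a := tri_cut e (h.tp' 0) (by
    intro k hk; simp only [Set.mem_setOf_eq] at hk ⊢; omega) (by
    intro k hk; simp only [Ip, Set.mem_compl_iff, Set.mem_setOf_eq] at hk ⊢; omega)
  cma := tri_cut e (h.tm n) (by
    intro k hk; simp only [Set.mem_setOf_eq] at hk ⊢; omega) (by
    intro k hk; simp only [Ip, Set.mem_compl_iff, Set.mem_setOf_eq] at hk ⊢; omega)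
  cm'a := tri_cut e (h.tm' n) (by
    intro k hk; simp only [Set.mem_setOf_eq] at hk ⊢; omega) (by
    intro k hk; simp only [Ip, Set.mem_compl_iff, Set.mem_setOf_eq] at hk ⊢; omega)
  amb := tri_cut e (h.tm 0) (by
    intro k hk; simp only [Ip, Set.mem_setOf_eq] at hk ⊢; omega) (by
    intro k hk; simp only [Set.mem_compl_iff, Set.mem_setOf_eq] at hk ⊢; omega)
  am'b := tri_cut e (h.tm' 0) (by
    intro k hk; simp only [Ip, Set.mem_setOf_eq] at hk ⊢; omega) (by
    intro k hk; simp only [Set.mem_compl_iff, Set.mem_setOf_eq] at hk ⊢; omega)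

theorem Tri.wh0 {e : HilbertBasis ℤ ℂ H} {p p' m m' : H →L[ℂ] H} (h : Tri e p p' m m')
    {w : H →L[ℂ] H} (hw : w * m' = m' * w) :
    WH (pr e {k | 0 ≤ k}) (pr e {k | k < 0}) 0 p p' m m' w where
  sum := by
    rw [add_zero, pr_add e]
    · have : {k : ℤ | 0 ≤ k} ∪ {k | k < 0} = Set.univ := by
        ext k
        simp only [Set.mem_union, Set.mem_setOf_eq, Set.mem_univ, iff_true]
        omega
      rw [this, pr_univ]
    · rw [Set.disjoint_left]
      intro k hk hk'
      simp only [Set.mem_setOf_eq] at hk hk'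
      omega
  aa := pr_idem e _
  ab := pr_disj e (by
    rw [Set.disjoint_left]; intro k hk hk'
    simp only [Set.mem_setOf_eq] at hk hk'; omega)
  ba := pr_disj e (by
    rw [Set.disjoint_left]; intro k hk hk'
    simp only [Set.mem_setOf_eq] at hk hk'; omega)
  ac := mul_zero _
  ca := zero_mul _
  pp' := h.pp'
  p'p := h.p'p
  mm' := h.mm'
  m'm := h.m'm
  wm' := hw
  apc := mul_zero _
  ap'c := mul_zero _
  bpa := tri_cut e (h.tp 0) (by
    intro k hk; simp only [Set.mem_setOf_eq] at hk ⊢; omega) (by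
    intro k hk; simp only [Set.mem_compl_iff, Set.mem_setOf_eq] at hk ⊢; omega)
  bp'a := tri_cut e (h.tp' 0) (by
    intro k hk; simp only [Set.mem_setOf_eq] at hk ⊢; omega) (by
    intro k hk; simp only [Set.mem_compl_iff, Set.mem_setOf_eq] at hk ⊢; omega)
  cma := by rw [zero_mul, zero_mul]
  cm'a := by rw [zero_mul, zero_mul]
  amb := tri_cut e (h.tm 0) (by
    intro k hk; simp only [Set.mem_setOf_eq] at hk ⊢; omega) (by
    intro k hk; simp only [Set.mem_compl_iff, Set.mem_setOf_eq] at hk ⊢; omega)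
  am'b := tri_cut e (h.tm' 0) (by
    intro k hk; simp only [Set.mem_setOf_eq] at hk ⊢; omega) (by
    intro k hk; simp only [Set.mem_compl_iff, Set.mem_setOf_eq] at hk ⊢; omega)

/-- the perturbation -/
noncomputable def Rt (a W w p p' m m' P Q : H →L[ℂ] H) : H →L[ℂ] H :=
  -(Ring.inverse W * a * m * w * (Q * m' * P) * a) -
    (Ring.inverse W * a * (P * p' * Q) * ((p * m * w) * (a * m' * a)))

theorem G_eq {a b P p p' m m' w W : H →L[ℂ] H} (hP : P * a = a) (hP' : a * P = a)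
    (hW : W = a * w * a + (1 - a)) (hu : IsUnit W) :
    a * w * a - a * m * w * (b * m' * a) - (a * p' * b) * (p * m * w) * (a * m' * a) + (1 - a) =
      W * (1 + Rt a W w p p' m m' P b) := by
  have h1 : W * Ring.inverse W = 1 := Ring.mul_inverse_cancel _ hu
  have h2 : W * Rt a W w p p' m m' P b =
      -(a * m * w * (b * m' * a)) - (a * p' * b) * (p * m * w) * (a * m' * a) := by
    rw [Rt, mul_sub, mul_neg]
    have e1 : W * (Ring.inverse W * a * m * w * (b * m' * P) * a) =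
        (W * Ring.inverse W) * a * m * w * (b * m' * (P * a)) := by simp only [mul_assoc]
    have e2 : W * (Ring.inverse W * a * (P * p' * b) * ((p * m * w) * (a * m' * a))) =
        (W * Ring.inverse W) * (a * P) * p' * b * ((p * m * w) * (a * m' * a)) := by
      simp only [mul_assoc]
    rw [e1, e2, h1, hP, hP', one_mul]
    simp only [mul_assoc]
  rw [mul_add, mul_one, h2, hW]
  abel

theorem stab (hINV : S_INV) (e : HilbertBasis ℤ ℂ H) {p p' m m' : H →L[ℂ] H}
    (hT : Tri e p p' m m') {w : ℕ → H →L[ℂ] H} {w0 : H →L[ℂ] H} {δ : ℝ} (hδ : δ < 1)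
    (hpw : p * w0 = w0 * p) (hwm : ∀ n, w n * m' = m' * w n) (hwm0 : w0 * m' = m' * w0)
    (hwm0' : w0 * m = m * w0)
    (hw : SSC w w0) (hd : ∀ n, ‖w n - 1‖ ≤ δ) (hd0 : ‖w0 - 1‖ ≤ δ) :
    ∃ C : ℝ, ∀ᶠ n in atTop,
      IsUnit (pr e (Ip n) * (p * m * w n) * pr e (Ip n) + (1 - pr e (Ip n))) ∧
      ‖Ring.inverse (pr e (Ip n) * (p * m * w n) * pr e (Ip n) + (1 - pr e (Ip n)))‖ ≤ C := by
  set a : ℕ → H →L[ℂ] H := fun n => pr e (Ip n) with ha
  set P := pr e {k : ℤ | 0 ≤ k} with hP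
  set Q := pr e {k : ℤ | k < 0} with hQ
  have haS : SSC a P := Ip_ssc e
  set W : ℕ → H →L[ℂ] H := fun n => a n * w n * a n + (1 - a n) with hW
  set W0 : H →L[ℂ] H := P * w0 * P + (1 - P) with hW0
  have hWS : SSC W W0 := ((haS.mul hw).mul haS).add ((SSC.const 1).sub haS)
  -- Neumann
  have key : ∀ (s : Set ℤ) (v : H →L[ℂ] H), ‖v - 1‖ ≤ δ →
      IsUnit (pr e s * v * pr e s + (1 - pr e s)) ∧
        ‖Ring.inverse (pr e s * v * pr e s + (1 - pr e s))‖ ≤ 1 / (1 - δ) := by
    intro s v hv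
    have h1 : pr e s * v * pr e s + (1 - pr e s) = 1 + pr e s * (v - 1) * pr e s := by
      rw [mul_sub, sub_mul, mul_one, pr_idem]
      abel
    rw [h1]
    apply neumann _ hδ
    calc ‖pr e s * (v - 1) * pr e s‖ ≤ ‖pr e s‖ * ‖v - 1‖ * ‖pr e s‖ :=
          (norm_mul_le _ _).trans (mul_le_mul_of_nonneg_right (norm_mul_le _ _) (norm_nonneg _))
      _ ≤ 1 * δ * 1 := by
          have hδ0 : 0 ≤ δ := (norm_nonneg _).trans hv
          gcongr
          · exact pr_norm e s
          · exact pr_norm e s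
      _ = δ := by ring
  have hWu : ∀ n, IsUnit (W n) ∧ ‖Ring.inverse (W n)‖ ≤ 1 / (1 - δ) := fun n => key _ _ (hd n)
  have hW0u : IsUnit W0 := (key _ _ hd0).1
  have hWi : SSC (fun n => Ring.inverse (W n)) (Ring.inverse W0) :=
    (hINV H W W0 (1 / (1 - δ)) hWS (Eventually.of_forall hWu)).2
  -- the perturbations converge in norm
  have hR : Tendsto (fun n => Rt (a n) (W n) (w n) p p' m m' P Q) atTop
      (𝓝 (Rt P W0 w0 p p' m m' P Q)) := by
    have c1 := cp_conv e (((hWi.mul haS).mul (SSC.const m)).mul hw).1 haS hT.cm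
    have c2 := cp_conv e (hWi.mul haS).1
      ((((SSC.const p).mul (SSC.const m)).mul hw).mul ((haS.mul (SSC.const m')).mul haS)) hT.cp
    exact c1.neg.sub c2
  have hPa : ∀ n, P * a n = a n := fun n => pr_sup e (fun k hk => hk.1)
  have haP : ∀ n, a n * P = a n := fun n => pr_sub e (fun k hk => hk.1)
  -- the limit is invertible
  have hu1 : IsUnit (1 + Rt P W0 w0 p p' m m' P Q) := by
    have hwh := hT.wh0 hwm0
    have h1 := G_eq (a := P) (b := Q) (P := P) (p := p) (p' := p') (m := m) (m' := m') (w := w0)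
      (W := W0) (pr_idem e _) (pr_idem e _) hW0 hW0u
    have h2 := hwh.half hpw hT.pm hwm0'
    have hu2 : IsUnit (W0 * (1 + Rt P W0 w0 p p' m m' P Q)) := by
      rw [← h1, h2]
      have u1 := blk_unit hwh.aa hwh.pinv' hwh.pinv
      have u2 := blk_unit hwh.aa hwh.minv hwh.minv'
      exact ((((isUnit_of_inv u1.1 u1.2).mul (isUnit_of_inv u2.1 u2.2)).mul hW0u).mul
        (isUnit_of_inv u1.2 u1.1)).mul (isUnit_of_inv u2.2 u2.1)
    have h3 : 1 + Rt P W0 w0 p p' m m' P Q =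
        Ring.inverse W0 * (W0 * (1 + Rt P W0 w0 p p' m m' P Q)) := by
      rw [← mul_assoc, Ring.inverse_mul_cancel _ hW0u, one_mul]
    rw [h3]
    exact (isUnit_ringInverse.2 hW0u).mul hu2
  obtain ⟨C1, hC1⟩ := unit_open (hR.const_add 1) hu1
  refine ⟨(‖m'‖ + 1) * C1 * (1 / (1 - δ)) * (‖p'‖ + 1), ?_⟩
  filter_upwards [hC1] with n hn
  have hwh := hT.wh (hwm n) n
  have h1 := G_eq (a := a n) (b := Q) (P := P) (p := p) (p' := p') (m := m) (m' := m') (w := w n)
      (W := W n) (hPa n) (haP n) rfl (hWu n).1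
  have h2 := hwh.factor
  rw [h1] at h2
  have u1 := blk_unit hwh.aa hwh.pinv hwh.pinv'
  have u2 := blk_unit hwh.aa hwh.minv hwh.minv'
  set E := a n * p * a n + (1 - a n) with hE
  set E' := a n * p' * a n + (1 - a n) with hE'
  set F := a n * m * a n + (1 - a n) with hF
  set F' := a n * m' * a n + (1 - a n) with hF'
  set S := 1 + Rt (a n) (W n) (w n) p p' m m' P Q with hS
  have s1 : S * Ring.inverse S = 1 := Ring.mul_inverse_cancel _ hn.1
  have s2 : Ring.inverse S * S = 1 := Ring.inverse_mul_cancel _ hn.1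
  have w1 : W n * Ring.inverse (W n) = 1 := Ring.mul_inverse_cancel _ (hWu n).1
  have w2 : Ring.inverse (W n) * W n = 1 := Ring.inverse_mul_cancel _ (hWu n).1
  have hI : Ring.inverse (a n * (p * m * w n) * a n + (1 - a n)) =
      F' * Ring.inverse S * Ring.inverse (W n) * E' := by
    rw [h2]
    apply ring_inverse_eq
    · calc E * (W n * S) * F * (F' * Ring.inverse S * Ring.inverse (W n) * E')
          = E * (W n * (S * (F * F') * Ring.inverse S) * Ring.inverse (W n)) * E' := by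
            simp only [mul_assoc]
        _ = 1 := by rw [u2.1, mul_one, s1, mul_one, w1, mul_one, u1.1]
    · calc F' * Ring.inverse S * Ring.inverse (W n) * E' * (E * (W n * S) * F)
          = F' * (Ring.inverse S * (Ring.inverse (W n) * (E' * E) * W n) * S) * F := by
            simp only [mul_assoc]
        _ = 1 := by rw [u1.2, mul_one, w2, mul_one, s2, mul_one, u2.2]
  have hun : IsUnit (a n * (p * m * w n) * a n + (1 - a n)) := by
    rw [h2]
    exact ((isUnit_of_inv u1.1 u1.2).mul ((hWu n).1.mul hn.1)).mul (isUnit_of_inv u2.1 u2.2)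
  refine ⟨hun, ?_⟩
  rw [hI]
  have hblk : ∀ x : H →L[ℂ] H, ‖a n * x * a n + (1 - a n)‖ ≤ ‖x‖ + 1 := by
    intro x
    have e1 : 1 - a n = pr e (Ip n)ᶜ := by
      rw [sub_eq_iff_eq_add, add_comm]
      exact (pr_compl e _).symm
    rw [e1]
    refine (norm_add_le _ _).trans (add_le_add ?_ (pr_norm e _))
    calc ‖a n * x * a n‖ ≤ ‖a n‖ * ‖x‖ * ‖a n‖ :=
          (norm_mul_le _ _).trans (mul_le_mul_of_nonneg_right (norm_mul_le _ _) (norm_nonneg _))
      _ ≤ 1 * ‖x‖ * 1 := by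
          gcongr
          · exact pr_norm e _
          · exact pr_norm e _
      _ = ‖x‖ := by ring
  have hC10 : 0 ≤ C1 := (norm_nonneg _).trans hn.2
  have hd1 : 0 ≤ 1 / (1 - δ) := (norm_nonneg _).trans (hWu n).2
  calc ‖F' * Ring.inverse S * Ring.inverse (W n) * E'‖
      ≤ ‖F' * Ring.inverse S * Ring.inverse (W n)‖ * ‖E'‖ := norm_mul_le _ _
    _ ≤ (‖F' * Ring.inverse S‖ * ‖Ring.inverse (W n)‖) * ‖E'‖ :=
        mul_le_mul_of_nonneg_right (norm_mul_le _ _) (norm_nonneg _)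
    _ ≤ ((‖F'‖ * ‖Ring.inverse S‖) * ‖Ring.inverse (W n)‖) * ‖E'‖ :=
        mul_le_mul_of_nonneg_right (mul_le_mul_of_nonneg_right (norm_mul_le _ _) (norm_nonneg _))
          (norm_nonneg _)
    _ ≤ (((‖m'‖ + 1) * C1) * (1 / (1 - δ))) * (‖p'‖ + 1) := by
        gcongr
        · exact hblk _
        · exact hn.2
        · exact (hWu n).2
        · exact hblk _

end

end Pool.Agent.K1H32.TD
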