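import Pool.Agent.K1H32.TD.Cpt

/-! # multiplication operators: triangularity and compact corners -/

open Filter Topology MeasureTheory
open scoped InnerProductSpace

namespace Pool.Agent.K1H32.TD

set_option linter.unusedSectionVars false
set_option linter.deprecated false

/-- trigonometric polynomials are dense -/
theorem trig_approx (f : C(Tc, ℂ)) {ε : ℝ} (hε : 0 < ε) :
    ∃ (S : Finset ℤ) (q : ℤ → ℂ), ∀ x, ‖f x - ∑ l ∈ S, q l * fourier l x‖ ≤ ε := by
  have h1 : f ∈ (Submodule.span ℂ (Set.range (fourier (T := 2 * Real.pi)))).topologicalClosure := by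
    rw [span_fourier_closure_eq_top]
    trivial
  have h2 : f ∈ closure ((Submodule.span ℂ (Set.range (fourier (T := 2 * Real.pi))) :
      Submodule ℂ C(Tc, ℂ)) : Set C(Tc, ℂ)) := h1
  obtain ⟨g, hg, hfg⟩ := Metric.mem_closure_iff.1 h2 ε hε
  obtain ⟨c, hc⟩ := (Finsupp.mem_span_range_iff_exists_finsupp).1 hg
  refine ⟨c.support, c, fun x => ?_⟩
  have h3 : g x = ∑ l ∈ c.support, c l * fourier l x := by
    rw [← hc, Finsupp.sum, ContinuousMap.sum_apply]
    rfl
  rw [← h3, ← ContinuousMap.sub_apply]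
  exact ((f - g).norm_coe_le_norm x).trans (by rw [← dist_eq_norm]; exact hfg.le)

theorem BM_of_cont (f : C(Tc, ℂ)) : BM f := ⟨f.continuous.measurable, ‖f‖, f.norm_coe_le_norm⟩

theorem BM_cont {f : Tc → ℂ} (hf : Continuous f) : BM f := BM_of_cont ⟨f, hf⟩

theorem BM.mul {f g : Tc → ℂ} (hf : BM f) (hg : BM g) : BM (fun x => f x * g x) := by
  obtain ⟨h1, C, hC⟩ := hf
  obtain ⟨h2, C', hC'⟩ := hg
  refine ⟨h1.mul h2, C * C', fun x => ?_⟩
  rw [norm_mul]
  exact mul_le_mul (hC x) (hC' x) (norm_nonneg _) ((norm_nonneg _).trans (hC x))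

theorem BM.add {f g : Tc → ℂ} (hf : BM f) (hg : BM g) : BM (fun x => f x + g x) := by
  obtain ⟨h1, C, hC⟩ := hf
  obtain ⟨h2, C', hC'⟩ := hg
  refine ⟨h1.add h2, C + C', fun x => ?_⟩
  exact (norm_add_le _ _).trans (add_le_add (hC x) (hC' x))

theorem BM.const_mul {f : Tc → ℂ} (c : ℂ) (hf : BM f) : BM (fun x => c * f x) := by
  obtain ⟨h1, C, hC⟩ := hf
  refine ⟨h1.const_mul c, ‖c‖ * C, fun x => ?_⟩
  rw [norm_mul]
  exact mul_le_mul_of_nonneg_left (hC x) (norm_nonneg _)

theorem BM.star {f : Tc → ℂ} (hf : BM f) : BM (fun x => Star.star (f x)) := by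
  obtain ⟨h1, C, hC⟩ := hf
  refine ⟨continuous_star.measurable.comp h1, C, fun x => ?_⟩
  rw [norm_star]
  exact hC x

theorem BM_fourier (l : ℤ) : BM (fun x => fourier l x) := BM_of_cont (fourier l)

theorem BM_trig (S : Finset ℤ) (q : ℤ → ℂ) : BM (fun x => ∑ l ∈ S, q l * fourier l x) := by
  apply BM_cont
  fun_prop

section

variable {H : Type} [NormedAddCommGroup H] [InnerProductSpace ℂ H] [CompleteSpace H]
  {e : HilbertBasis ℤ ℂ H} {M : (Tc → ℂ) → (H →L[ℂ] H)}

theorem MulSys.neg (h : MulSys e M) {f : Tc → ℂ} (hf : BM f) : M (fun x => - f x) = - M f := by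
  have := h.smul (-1) f hf
  simpa using this

theorem MulSys.sub (h : MulSys e M) {f g : Tc → ℂ} (hf : BM f) (hg : BM g) :
    M (fun x => f x - g x) = M f - M g := by
  have h1 := h.add f (fun x => (-1) * g x) hf (hg.const_mul (-1))
  rw [h.smul (-1) g hg] at h1
  simpa [sub_eq_add_neg] using h1

theorem MulSys.zero (h : MulSys e M) : M (fun _ => 0) = 0 := by
  have := h.smul 0 (fun _ => 1) (BM_cont continuous_const)
  simpa using this

theorem MulSys.trig (h : MulSys e M) (S : Finset ℤ) (q : ℤ → ℂ) :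
    M (fun x => ∑ l ∈ S, q l * fourier l x) = ∑ l ∈ S, q l • M (fun x => fourier l x) := by
  classical
  induction S using Finset.induction_on with
  | empty => simpa using h.zero
  | insert a S ha ih =>
    rw [Finset.sum_insert ha, ← ih, ← h.smul _ _ (BM_fourier a),
      ← h.add _ _ ((BM_fourier a).const_mul _) (BM_trig S q)]
    congr 1
    funext x
    rw [Finset.sum_insert ha]

theorem MulSys.comm (h : MulSys e M) {f g : Tc → ℂ} (hf : BM f) (hg : BM g) :
    M f * M g = M g * M f := by
  rw [← h.mul f g hf hg, ← h.mul g f hg hf]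
  congr 1
  funext x
  ring

/-- corners of trigonometric monomials see finitely many coordinates -/
theorem corner_fourier (h : MulSys e M) (l : ℤ) (s : Finset ℤ) (hs : ∀ k : ℤ, |k| ≤ |l| → k ∈ s)
    {A B : Set ℤ} (hAB : (A = {k | k < 0} ∧ B = {k | 0 ≤ k}) ∨ (A = {k | 0 ≤ k} ∧ B = {k | k < 0})) :
    pr e (s : Set ℤ) * (pr e A * M (fun x => fourier l x) * pr e B) * pr e (s : Set ℤ) =
      pr e A * M (fun x => fourier l x) * pr e B := by
  classical
  apply op_ext e
  intro k
  simp only [ContinuousLinearMap.mul_apply]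
  by_cases hB : k ∈ B
  · by_cases hA : l + k ∈ A
    · have hk : k ∈ (s : Set ℤ) ∧ l + k ∈ (s : Set ℤ) := by
        rcases hAB with ⟨rfl, rfl⟩ | ⟨rfl, rfl⟩
        · simp only [Set.mem_setOf_eq] at hA hB
          constructor
          · exact hs _ (by rcases abs_cases k with h1 | h1 <;> rcases abs_cases l with h2 | h2 <;> rcases abs_cases (l + k) with h3 | h3 <;> omega)
          · exact hs _ (by rcases abs_cases k with h1 | h1 <;> rcases abs_cases l with h2 | h2 <;> rcases abs_cases (l + k) with h3 | h3 <;> omega)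
        · simp only [Set.mem_setOf_eq] at hA hB
          constructor
          · exact hs _ (by rcases abs_cases k with h1 | h1 <;> rcases abs_cases l with h2 | h2 <;> rcases abs_cases (l + k) with h3 | h3 <;> omega)
          · exact hs _ (by rcases abs_cases k with h1 | h1 <;> rcases abs_cases l with h2 | h2 <;> rcases abs_cases (l + k) with h3 | h3 <;> omega)
      rw [pr_in e hk.1, pr_in e hB, h.shift, pr_in e hA, pr_in e hk.2]
    · rw [pr_in e hB, h.shift, pr_out e hA]
      by_cases hk : k ∈ (s : Set ℤ)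
      · rw [pr_in e hk, pr_in e hB, h.shift, pr_out e hA, map_zero]
      · rw [pr_out e hk]
        simp only [map_zero]
  · rw [pr_out e hB]
    by_cases hk : k ∈ (s : Set ℤ)
    · rw [pr_in e hk, pr_out e hB]
      simp only [map_zero]
    · rw [pr_out e hk]
      simp only [map_zero]

end

end Pool.Agent.K1H32.TD
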